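import Pool.Agent.Helper18.MR.BT
import Pool.Agent.Helper18.MR.SEL

/-! Long blocks (MP_b6eca7_nt), row BTU: the upper bound `C z / log z` for the number of primes in
an interval of length `z ≥ 2`, from Selberg's weights. -/

set_option autoImplicit false

namespace EL

open Finset
open Pool.Agent.Helper40.MR

/-- Brun-Titchmarsh. -/
theorem btu : ∃ C : ℝ, 0 < C ∧ ∀ y z : ℝ, 0 ≤ y → 2 ≤ z →
    (((Ioc ⌊y⌋₊ ⌊y + z⌋₊).filter Nat.Prime).card : ℝ) ≤ C * z / Real.log z := by
  refine ⟨17, by norm_num, fun y z hy hz => ?_⟩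
  obtain ⟨a, ha⟩ : ∃ a, a = ⌊y⌋₊ := ⟨_, rfl⟩
  obtain ⟨b, hb⟩ : ∃ b, b = ⌊y + z⌋₊ := ⟨_, rfl⟩
  rw [← ha, ← hb]
  have hz0 : 0 < z := by linarith
  have hlogz : 0 < Real.log z := Real.log_pos (by linarith)
  have hlogz1 : Real.log z ≤ z := by
    have := Real.log_le_sub_one_of_pos hz0
    linarith
  have ha1 : y - 1 < a := by
    rw [ha]
    have := Nat.lt_floor_add_one y
    linarith
  have hb1 : (b : ℝ) ≤ y + z := by
    rw [hb]
    exact Nat.floor_le (by linarith)
  have hab : a ≤ b := by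
    rw [ha, hb]
    exact Nat.floor_le_floor (by linarith)
  have hba : (b : ℝ) - a ≤ z + 1 := by linarith
  rcases lt_or_ge z 16 with hz16 | hz16
  · -- short intervals
    have h1 : (((Ioc a b).filter Nat.Prime).card : ℝ) ≤ 17 := by
      have h2 : ((Ioc a b).filter Nat.Prime).card ≤ b - a := by
        calc _ ≤ (Ioc a b).card := card_filter_le _ _
          _ = b - a := Nat.card_Ioc a b
      have h3 : (((Ioc a b).filter Nat.Prime).card : ℝ) ≤ ((b - a : ℕ) : ℝ) := by
        exact_mod_cast h2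
      rw [Nat.cast_sub hab] at h3
      linarith
    refine h1.trans ?_
    rw [le_div_iff₀ hlogz]
    nlinarith
  · obtain ⟨D, hD⟩ : ∃ D, D = z ^ (1 / 4 : ℝ) := ⟨_, rfl⟩
    have hD4 : D ^ 4 = z := by
      rw [hD, ← Real.rpow_natCast, ← Real.rpow_mul hz0.le]
      norm_num
    have hD0 : 0 < D := by rw [hD]; positivity
    have hD2 : 2 ≤ D := by
      by_contra hcon
      push Not at hcon
      have : D ^ 4 < 2 ^ 4 := pow_lt_pow_left₀ hcon hD0.le (by norm_num)
      rw [hD4] at this
      linarith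
    have hlogD : Real.log z = 4 * Real.log D := by
      rw [← hD4, Real.log_pow]
      norm_num
    have hlogD0 : 0 < Real.log D := Real.log_pos (by linarith)
    have hlogD1 : Real.log D ≤ D := by
      have := Real.log_le_sub_one_of_pos hD0
      linarith
    obtain ⟨m, hm⟩ : ∃ m, m = ⌈D⌉₊ := ⟨_, rfl⟩
    have hm1 : D ≤ m := by rw [hm]; exact Nat.le_ceil D
    have hm2 : (m : ℝ) < D + 1 := by rw [hm]; exact Nat.ceil_lt_add_one hD0.le
    have hsub : (Ioc a b).filter Nat.Prime ⊆
        Ioc 0 m ∪ (Ioc (max a m) (max b (max a m))).filter Nat.Prime := by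
      intro p hp
      obtain ⟨hp1, hp2⟩ := mem_filter.1 hp
      obtain ⟨hp3, hp4⟩ := mem_Ioc.1 hp1
      rw [mem_union, mem_filter, mem_Ioc, mem_Ioc]
      rcases Nat.lt_or_ge m p with h | h
      · right
        exact ⟨⟨max_lt hp3 h, hp4.trans (le_max_left _ _)⟩, hp2⟩
      · left
        exact ⟨hp2.pos, h⟩
    have hcard : (((Ioc a b).filter Nat.Prime).card : ℝ) ≤
        m + (((Ioc (max a m) (max b (max a m))).filter Nat.Prime).card : ℝ) := by
      have h1 := (card_le_card hsub).trans (card_union_le _ _)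
      rw [Nat.card_Ioc, Nat.sub_zero] at h1
      exact_mod_cast h1
    have hbt := bt_count Pool.Agent.Helper40.MR.st_SEL D (max a m) (max b (max a m)) hD2
      (le_max_right _ _) (hm1.trans (by exact_mod_cast le_max_right a m))
    have hlen : ((max b (max a m) : ℕ) : ℝ) - ((max a m : ℕ) : ℝ) ≤ z + 1 := by
      have ham : (a : ℝ) ≤ ((max a m : ℕ) : ℝ) := by exact_mod_cast le_max_left a m
      rcases le_total b (max a m) with h | h
      · rw [max_eq_right h]
        linarith
      · rw [max_eq_left h]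
        linarith
    have h2 : (((Ioc a b).filter Nat.Prime).card : ℝ) ≤
        D + 1 + ((z + 1) / Real.log D + D ^ 2) := by
      have := div_le_div_of_nonneg_right hlen hlogD0.le
      linarith
    refine h2.trans ?_
    rw [le_div_iff₀ hlogz]
    have h3 : (D + 1 + ((z + 1) / Real.log D + D ^ 2)) * Real.log z =
        4 * ((D + 1 + D ^ 2) * Real.log D) + 4 * (z + 1) := by
      rw [hlogD]
      field_simp
      ring
    rw [h3]
    have h4 : (D + 1 + D ^ 2) * Real.log D ≤ (D + 1 + D ^ 2) * D :=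
      mul_le_mul_of_nonneg_left hlogD1 (by positivity)
    have h5 : (D + 1 + D ^ 2) * D ≤ 2 * z := by
      rw [← hD4]
      nlinarith [mul_nonneg hD0.le (by linarith : (0 : ℝ) ≤ D - 2),
        mul_nonneg (pow_pos hD0 2).le (by linarith : (0 : ℝ) ≤ D - 2),
        mul_nonneg (pow_pos hD0 3).le (by linarith : (0 : ℝ) ≤ D - 2)]
    linarith

end EL
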