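import Pool.Agent.Helper85.EL.Defs
import Pool.Agent.Helper85.EB.Pri

/-! LOW: lower bound for the number of pairs in the longer windows. -/

set_option autoImplicit false

namespace EL

open Finset Filter MeasureTheory
open scoped Classical

theorem low_rp {V : ℝ} (hV : 0 < V) (y : ℝ) : V ^ y = Real.exp (Real.log V * y) :=
  Real.rpow_def_of_pos hV y

theorem low_cnt {X V u : ℝ} {p : ℕ} (hV : 1 ≤ V) (hX : 0 < X)
    (hxX : X ≤ Real.exp u) (hx4 : Real.exp u ≤ 4 * X) (hp : p.Prime)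
    (h1 : Real.exp (V ^ (-(1 / 10) : ℝ)) * Real.exp u / V ^ (2 / 5 : ℝ) ≤ p)
    (h2 : (p : ℝ) ≤ Real.exp u / (V ^ (3 / 10 : ℝ) + 1)) :
    ∀ m ∈ Ioc ⌊Real.exp u / p⌋₊ ⌊Real.exp (V ^ (-(1 / 10) : ℝ)) * Real.exp u / p⌋₊,
      (m, p) ∈ PW X V u (V ^ (-(1 / 10) : ℝ)) := by
  intro m hm
  have hV0 : 0 < V := by linarith
  have hp0 : (0 : ℝ) < p := by exact_mod_cast hp.pos
  have ha : 0 < V ^ (3 / 10 : ℝ) := Real.rpow_pos_of_pos hV0 _
  have hb : 0 < V ^ (2 / 5 : ℝ) := Real.rpow_pos_of_pos hV0 _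
  have hx0 : 0 < Real.exp u := Real.exp_pos u
  set D : ℝ := V ^ (-(1 / 10) : ℝ) with hD
  have hD0 : 0 < D := Real.rpow_pos_of_pos hV0 _
  have hl0 : 0 < Real.exp D := Real.exp_pos _
  have hl1 : 1 ≤ Real.exp D := Real.one_le_exp hD0.le
  rw [mem_Ioc] at hm
  obtain ⟨hm1, hm2⟩ := hm
  have hm1' : Real.exp u / p < m := (Nat.floor_lt (by positivity)).1 hm1
  have hm2' : (m : ℝ) ≤ Real.exp D * Real.exp u / p :=
    (Nat.le_floor_iff (by positivity)).1 hm2
  have hm0 : (0 : ℝ) < m := lt_of_le_of_lt (by positivity) hm1'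
  rw [PW, mem_filter, mem_product, MM, QQ, mem_filter, mem_Ioc, mem_Ioc]
  have e1 : V ^ (3 / 10 : ℝ) + 1 ≤ Real.exp u / p := by
    rw [le_div_iff₀ (by positivity)] at h2
    rw [le_div_iff₀ hp0]; linarith
  have e2 : Real.exp D * Real.exp u / p ≤ V ^ (2 / 5 : ℝ) := by
    rw [div_le_iff₀ hb] at h1
    rw [div_le_iff₀ hp0]; linarith
  refine ⟨⟨⟨?_, ?_⟩, ⟨?_, ?_⟩, hp⟩, ?_, ?_⟩
  · rw [Nat.floor_lt ha.le]
    show V ^ (3 / 10 : ℝ) < (m : ℝ)
    linarith
  · exact Nat.le_floor (by show (m : ℝ) ≤ _; linarith)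
  · rw [Nat.floor_lt (by positivity)]
    show X / V ^ (2 / 5 : ℝ) < (p : ℝ)
    have h3 : X / V ^ (2 / 5 : ℝ) < Real.exp D * Real.exp u / V ^ (2 / 5 : ℝ) := by
      apply div_lt_div_of_pos_right _ hb
      have : 1 < Real.exp D := Real.one_lt_exp_iff.2 hD0
      nlinarith
    linarith
  · refine Nat.le_floor ?_
    show (p : ℝ) ≤ _
    refine h2.trans ?_
    rw [div_le_div_iff₀ (by positivity) ha]
    nlinarith
  · show u < Real.log ((m : ℝ) * (p : ℝ))
    rw [Real.lt_log_iff_exp_lt (by positivity)]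
    rw [div_lt_iff₀ hp0] at hm1'
    exact hm1'
  · show Real.log ((m : ℝ) * (p : ℝ)) ≤ u + D
    rw [Real.log_le_iff_le_exp (by positivity), Real.exp_add]
    rw [le_div_iff₀ hp0] at hm2'
    linarith

theorem low : ∃ V₀ X₀ : ℝ, 2 ≤ V₀ ∧ 2 ≤ X₀ ∧ ∀ X V u : ℝ, X₀ ≤ X → V₀ ≤ V →
    V ≤ X ^ (1 / 10 : ℝ) → Real.log X ≤ u → u ≤ Real.log (4 * X) →
    1 / 100 * V ^ (-(1 / 10) : ℝ) * Real.exp u * Real.log V / Real.log X
      ≤ FW X V u (V ^ (-(1 / 10) : ℝ)) := by
  refine ⟨Real.exp 200, 2, ?_, le_refl _, ?_⟩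
  · have := Real.add_one_le_exp (200 : ℝ); linarith
  intro X V u hX hVe hVX hu1 hu2
  have he200 : (201 : ℝ) ≤ Real.exp 200 := by
    have := Real.add_one_le_exp (200 : ℝ); linarith
  have hX0 : 0 < X := by linarith
  have hV0 : 0 < V := by linarith
  have hV1 : 1 ≤ V := by linarith
  have hW : 200 ≤ Real.log V := (Real.le_log_iff_exp_le hV0).2 hVe
  have hLX : 10 * Real.log V ≤ Real.log X := by
    have h := Real.log_le_log hV0 hVX
    rw [Real.log_rpow hX0] at h
    linarith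
  have hxX : X ≤ Real.exp u := by
    have h := Real.exp_le_exp.2 hu1
    rwa [Real.exp_log hX0] at h
  have hx4 : Real.exp u ≤ 4 * X := by
    have h := Real.exp_le_exp.2 hu2
    rwa [Real.exp_log (by linarith)] at h
  set W := Real.log V with hWd
  set x := Real.exp u with hxd
  have hx0 : 0 < x := Real.exp_pos u
  have hXW : Real.exp (10 * W) ≤ X := by
    rw [← Real.exp_log hX0]; exact Real.exp_le_exp.2 hLX
  have ea : V ^ (3 / 10 : ℝ) = Real.exp (W * (3 / 10)) := low_rp hV0 _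
  have eb : V ^ (2 / 5 : ℝ) = Real.exp (W * (2 / 5)) := low_rp hV0 _
  have eD : V ^ (-(1 / 10) : ℝ) = Real.exp (W * (-(1 / 10))) := low_rp hV0 _
  set a := V ^ (3 / 10 : ℝ) with had
  set b := V ^ (2 / 5 : ℝ) with hbd
  set D := V ^ (-(1 / 10) : ℝ) with hDd
  have ha0 : 0 < a := Real.rpow_pos_of_pos hV0 _
  have hb0 : 0 < b := Real.rpow_pos_of_pos hV0 _
  have hD0 : 0 < D := Real.rpow_pos_of_pos hV0 _
  have hD1 : D ≤ 1 := by rw [eD]; exact Real.exp_le_one_iff.2 (by linarith)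
  have ha1 : 1 ≤ a := by rw [ea]; apply Real.one_le_exp; linarith
  have hDa : 2 ≤ D * a := by
    rw [eD, ea, ← Real.exp_add]
    have := Real.add_one_le_exp (W * (-(1 / 10)) + W * (3 / 10))
    linarith
  have hl3 : Real.exp D ≤ 3 := by
    have h1 := Real.exp_one_lt_d9
    have h2 := Real.exp_le_exp.2 hD1
    linarith
  have hlD : 1 + D ≤ Real.exp D := by have := Real.add_one_le_exp D; linarith
  have hbx : b ≤ x := by
    have : b ≤ Real.exp (10 * W) := by rw [eb]; apply Real.exp_le_exp.2; linarith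
    linarith
  have h4a : 4 * a ≤ x := by
    have h1 : a * Real.exp (W * (97 / 10)) = Real.exp (10 * W) := by
      rw [ea, ← Real.exp_add]; congr 1; ring
    have h2 : (4 : ℝ) ≤ Real.exp (W * (97 / 10)) := by
      have := Real.add_one_le_exp (W * (97 / 10)); linarith
    nlinarith
  have hlog4 : Real.log 4 ≤ 1.5 := EB.pri_log4
  set y : ℕ := ⌈Real.exp D * x / b⌉₊ with hyd
  set Z : ℕ := ⌊x / (a + 1)⌋₊ with hZd
  have hy0 : 0 < Real.exp D * x / b := by positivity
  have hy1 : 1 ≤ y := Nat.one_le_iff_ne_zero.2 (by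
    rw [hyd]; exact (Nat.ceil_pos.2 hy0).ne')
  have hyle : (y : ℝ) ≤ 4 * x / b := by
    have h1 := Nat.ceil_lt_add_one hy0.le
    have h2 : Real.exp D * x / b + 1 ≤ 4 * x / b := by
      rw [div_add_one hb0.ne', div_le_div_iff_of_pos_right hb0]
      nlinarith
    exact (h1.le).trans h2
  have hyge : Real.exp D * x / b ≤ y := Nat.le_ceil _
  have hZle : (Z : ℝ) ≤ x / (a + 1) := Nat.floor_le (by positivity)
  have hZge : x / (4 * a) ≤ Z := by
    have h1 := Nat.lt_floor_add_one (x / (a + 1))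
    have h2 : x / (2 * a) ≤ x / (a + 1) := by
      apply div_le_div_of_nonneg_left hx0.le (by positivity); linarith
    have h3 : 1 ≤ x / (4 * a) := by rw [le_div_iff₀ (by positivity)]; linarith
    have h4 : x / (2 * a) = 2 * (x / (4 * a)) := by field_simp; ring
    have h5 : x / (a + 1) < (Z : ℝ) + 1 := h1
    linarith
  have hZ1 : 1 ≤ Z := by
    have h3 : 1 ≤ x / (4 * a) := by rw [le_div_iff₀ (by positivity)]; linarith
    exact_mod_cast h3.trans hZge
  have hlZ : u - Real.log 4 - W * (3 / 10) ≤ Real.log Z := by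
    have h1 : Real.log (x / (4 * a)) ≤ Real.log Z := Real.log_le_log (by positivity) hZge
    have h2 : Real.log (x / (4 * a)) = u - (Real.log 4 + W * (3 / 10)) := by
      rw [Real.log_div hx0.ne' (by positivity), Real.log_mul (by norm_num) ha0.ne', hxd,
        Real.log_exp, ea, Real.log_exp]
    linarith
  have hly : Real.log y ≤ u + Real.log 4 - W * (2 / 5) := by
    have h1 : Real.log y ≤ Real.log (4 * x / b) :=
      Real.log_le_log (by exact_mod_cast hy1) hyle
    have h2 : Real.log (4 * x / b) = Real.log 4 + u - W * (2 / 5) := by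
      rw [Real.log_div (by positivity) hb0.ne', Real.log_mul (by norm_num) hx0.ne', hxd,
        Real.log_exp, eb, Real.log_exp]
    linarith
  have hyZ : y ≤ Z := by
    have h1 : Real.log y ≤ Real.log Z := by linarith
    have h2 := (Real.log_le_log_iff (by exact_mod_cast hy1) (by exact_mod_cast hZ1)).1 h1
    exact_mod_cast h2
  -- the sum over the primes
  set P : Finset ℕ := (Ioc y Z).filter Nat.Prime with hP
  have hsum : W / 20 ≤ ∑ p ∈ P, Real.log p / p := by
    have h1 := EB.mert_up y hy1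
    have h2 := EB.mert_lo Z hZ1
    have h3 : (Icc 1 Z).filter Nat.Prime = (Icc 1 y).filter Nat.Prime ∪ P := by
      ext q
      simp only [hP, mem_filter, mem_Icc, mem_union, mem_Ioc]
      constructor
      · rintro ⟨⟨h1, h2⟩, h3⟩
        by_cases h : q ≤ y
        · exact Or.inl ⟨⟨h1, h⟩, h3⟩
        · exact Or.inr ⟨⟨by omega, h2⟩, h3⟩
      · rintro (⟨⟨h1, h2⟩, h3⟩ | ⟨⟨h1, h2⟩, h3⟩)
        · exact ⟨⟨h1, by omega⟩, h3⟩
        · exact ⟨⟨by omega, h2⟩, h3⟩
    have h4 : Disjoint ((Icc 1 y).filter Nat.Prime) P := by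
      rw [Finset.disjoint_left]
      intro q hq1 hq2
      simp only [hP, mem_filter, mem_Icc, mem_Ioc] at hq1 hq2
      omega
    rw [h3, Finset.sum_union h4] at h2
    linarith
  have hlX : Real.log (4 * X) ≤ 2 * Real.log X := by
    rw [Real.log_mul (by norm_num) hX0.ne']
    linarith
  have hlX0 : 0 < Real.log X := by linarith
  have hinv : W / 20 ≤ (2 * Real.log X) * ∑ p ∈ P, (1 : ℝ) / p := by
    refine hsum.trans ?_
    rw [Finset.mul_sum]
    refine Finset.sum_le_sum (fun p hp => ?_)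
    rw [hP, mem_filter, mem_Ioc] at hp
    obtain ⟨⟨hp1, hp2⟩, hp3⟩ := hp
    have hp0 : (0 : ℝ) < p := by exact_mod_cast hp3.pos
    have hple : (p : ℝ) ≤ 4 * X := by
      have h1 : (p : ℝ) ≤ Z := by exact_mod_cast hp2
      have h2 : x / (a + 1) ≤ x := div_le_self hx0.le (by linarith)
      linarith
    have h5 : Real.log p ≤ 2 * Real.log X :=
      (Real.log_le_log hp0 hple).trans hlX
    rw [mul_one_div]
    exact div_le_div_of_nonneg_right h5 hp0.le
  -- the pairs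
  have hcard : ∑ p ∈ P, (D * x / (2 * p)) ≤ FW X V u D := by
    have hterm : ∀ p ∈ P, D * x / (2 * p) ≤
        (((Ioc ⌊x / p⌋₊ ⌊Real.exp D * x / p⌋₊).card : ℕ) : ℝ) := by
      intro p hp
      rw [hP, mem_filter, mem_Ioc] at hp
      obtain ⟨⟨hp1, hp2⟩, hp3⟩ := hp
      have hp0 : (0 : ℝ) < p := by exact_mod_cast hp3.pos
      have h1 : (p : ℝ) ≤ x / (a + 1) := le_trans (by exact_mod_cast hp2) hZle
      have h2 : a + 1 ≤ x / p := by
        rw [le_div_iff₀ (by positivity)] at h1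
        rw [le_div_iff₀ hp0]; linarith
      rw [Nat.card_Ioc]
      have h3 := Nat.floor_le (show 0 ≤ x / (p : ℝ) by positivity)
      have h4 := Nat.lt_floor_add_one (Real.exp D * x / (p : ℝ))
      have h5 : ((⌊Real.exp D * x / (p : ℝ)⌋₊ : ℝ)) - (⌊x / (p : ℝ)⌋₊ : ℝ) ≤
          (((⌊Real.exp D * x / (p : ℝ)⌋₊ - ⌊x / (p : ℝ)⌋₊ : ℕ)) : ℝ) := by
        rw [sub_le_iff_le_add, ← Nat.cast_add, Nat.cast_le]
        omega
      have h6 : Real.exp D * x / p = Real.exp D * (x / p) := by ring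
      have h7 : D * x / (2 * p) = D * (x / p) / 2 := by field_simp
      have h8 : D * a ≤ D * (x / p) := by
        apply mul_le_mul_of_nonneg_left _ hD0.le; linarith
      have h9 : (1 + D) * (x / p) ≤ Real.exp D * (x / p) :=
        mul_le_mul_of_nonneg_right hlD (by positivity)
      rw [h7]
      nlinarith
    refine (Finset.sum_le_sum hterm).trans ?_
    rw [FW, ← Nat.cast_sum, Nat.cast_le, ← Finset.card_sigma]
    refine Finset.card_le_card_of_injOn (fun z => (z.2, z.1)) ?_ ?_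
    · rintro ⟨p, m⟩ hz
      rw [Finset.mem_coe, Finset.mem_sigma] at hz
      obtain ⟨hp, hm⟩ := hz
      rw [hP, mem_filter, mem_Ioc] at hp
      obtain ⟨⟨hp1, hp2⟩, hp3⟩ := hp
      refine Finset.mem_coe.2 (low_cnt hV1 hX0 hxX hx4 hp3 ?_ ?_ m hm)
      · exact hyge.trans (by exact_mod_cast hp1.le)
      · exact le_trans (by exact_mod_cast hp2) hZle
    · rintro ⟨p, m⟩ _ ⟨p', m'⟩ _ h
      simp only [Prod.mk.injEq] at h
      obtain ⟨h1, h2⟩ := h
      subst h1; subst h2; rfl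
  refine le_trans ?_ hcard
  have h1 : ∑ p ∈ P, (D * x / (2 * p)) = (D * x / 2) * ∑ p ∈ P, (1 : ℝ) / p := by
    rw [Finset.mul_sum]
    refine Finset.sum_congr rfl (fun p _ => ?_)
    rw [mul_one_div, div_div]
  rw [h1, div_le_iff₀ hlX0]
  have hDx : 0 < D * x := by positivity
  have h2 : D * x * (W / 20) ≤ D * x * ((2 * Real.log X) * ∑ p ∈ P, (1 : ℝ) / p) :=
    mul_le_mul_of_nonneg_left hinv hDx.le
  have h3 : 0 ≤ D * x * W := by positivity
  nlinarith

end EL
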