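import Pool.Agent.Helper85.EL.Defs
import Pool.Agent.Helper17.MR.LB
import Pool.Agent.Helper7.MR.VDC
import Pool.Agent.Helper70.MR.KL
import Pool.Agent.Helper89.MR.WV
import Pool.Agent.Helper45.MR.DL

/-! MMB: the Dirichlet polynomial over the small factor. -/

set_option autoImplicit false

namespace EL

open Finset
open Pool.Agent.Helper40.MR (DP nit xiu ST_VDC st_VDC st_KL st_WV st_DL lb_abel)

theorem mmb_nit (n : ℕ) (t : ℝ) : nit n t = xiu n (-t) := by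
  rw [nit, xiu]
  congr 1
  push_cast
  ring

theorem mmb_xnorm (x u : ℝ) : ‖xiu x u‖ = 1 := Complex.norm_exp_ofReal_mul_I _

/-- one step of the comparison with the integral -/
theorem mmb_step (n : ℕ) (t : ℝ) (hn : 1 ≤ n) (ht : t ≠ 0) (htn : |t| ≤ n) :
    ‖((1 / ((n : ℝ) + 1) : ℝ) : ℂ) * xiu ((n : ℝ) + 1) (-t)
      - (xiu n (-t) / ((t : ℂ) * Complex.I) - xiu ((n : ℝ) + 1) (-t) / ((t : ℂ) * Complex.I))‖
      ≤ (1 + |t|) / (n : ℝ) ^ 2 := by
  have hn0 : (0 : ℝ) < n := by exact_mod_cast hn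
  have htc : (t : ℂ) ≠ 0 := Complex.ofReal_ne_zero.2 ht
  set L : ℝ := Real.log ((n : ℝ) + 1) - Real.log n with hL
  have hLq : L = Real.log (((n : ℝ) + 1) / n) := by
    rw [hL, Real.log_div (by linarith) hn0.ne']
  have hL1 : L ≤ 1 / n := by
    rw [hLq]
    have := Real.log_le_sub_one_of_pos (show 0 < ((n : ℝ) + 1) / n by positivity)
    have e : ((n : ℝ) + 1) / n - 1 = 1 / n := by
      field_simp
      ring
    linarith
  have hL2 : 1 / ((n : ℝ) + 1) ≤ L := by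
    rw [hLq]
    have := Real.one_sub_inv_le_log_of_pos (show 0 < ((n : ℝ) + 1) / n by positivity)
    have e : 1 - (((n : ℝ) + 1) / n)⁻¹ = 1 / ((n : ℝ) + 1) := by
      field_simp
      ring
    linarith
  have hL0 : 0 ≤ L := le_trans (by positivity) hL2
  have hx : xiu n (-t) = xiu ((n : ℝ) + 1) (-t) * Complex.exp (((t * L : ℝ) : ℂ) * Complex.I) := by
    rw [xiu, xiu, ← Complex.exp_add]
    congr 1
    rw [hL]
    push_cast
    ring
  set z : ℂ := ((t * L : ℝ) : ℂ) * Complex.I with hz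
  have hzn : ‖z‖ = |t| * L := by
    rw [hz, norm_mul, Complex.norm_I, mul_one, Complex.norm_real, Real.norm_eq_abs, abs_mul,
      abs_of_nonneg hL0]
  have hz1 : ‖z‖ ≤ 1 := by
    rw [hzn]
    calc |t| * L ≤ n * (1 / n) := mul_le_mul htn hL1 hL0 hn0.le
      _ = 1 := by field_simp
  have hexp := Complex.norm_exp_sub_one_sub_id_le hz1
  have e1 : ((1 / ((n : ℝ) + 1) : ℝ) : ℂ) * xiu ((n : ℝ) + 1) (-t)
      - (xiu n (-t) / ((t : ℂ) * Complex.I) - xiu ((n : ℝ) + 1) (-t) / ((t : ℂ) * Complex.I))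
      = xiu ((n : ℝ) + 1) (-t) * ((((1 / ((n : ℝ) + 1) - L : ℝ)) : ℂ)
        - (Complex.exp z - 1 - z) / ((t : ℂ) * Complex.I)) := by
    rw [hx]
    have e2 : z / ((t : ℂ) * Complex.I) = (L : ℂ) := by
      rw [hz]
      push_cast
      field_simp
    rw [sub_div, sub_div, e2]
    push_cast
    field_simp
    ring
  rw [e1, norm_mul, mmb_xnorm, one_mul]
  refine (norm_sub_le _ _).trans ?_
  rw [Complex.norm_real, Real.norm_eq_abs, norm_div, norm_mul, Complex.norm_I, mul_one,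
    Complex.norm_real, Real.norm_eq_abs]
  have hta : 0 < |t| := abs_pos.2 ht
  have h1 : |1 / ((n : ℝ) + 1) - L| ≤ 1 / (n : ℝ) ^ 2 := by
    rw [abs_of_nonpos (by linarith)]
    have : 1 / (n : ℝ) - 1 / ((n : ℝ) + 1) ≤ 1 / (n : ℝ) ^ 2 := by
      rw [div_sub_div _ _ hn0.ne' (by linarith), div_le_div_iff₀ (by positivity) (by positivity)]
      nlinarith
    linarith
  have h2 : ‖Complex.exp z - 1 - z‖ / |t| ≤ |t| / (n : ℝ) ^ 2 := by
    rw [div_le_iff₀ hta]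
    refine hexp.trans ?_
    rw [hzn]
    calc (|t| * L) ^ 2 ≤ (|t| * (1 / n)) ^ 2 := by
          gcongr
      _ = |t| / (n : ℝ) ^ 2 * |t| := by
          field_simp
  calc |1 / ((n : ℝ) + 1) - L| + ‖Complex.exp z - 1 - z‖ / |t|
      ≤ 1 / (n : ℝ) ^ 2 + |t| / (n : ℝ) ^ 2 := add_le_add h1 h2
    _ = (1 + |t|) / (n : ℝ) ^ 2 := by ring

/-- small `t` -/
theorem mmb_small (a b : ℕ) (t : ℝ) (ha : 1 ≤ a) (hab : a ≤ b) (hb : b ≤ 2 * a) (ht : t ≠ 0)
    (hta : |t| ≤ a) :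
    ‖∑ n ∈ Ioc a b, ((1 / (n : ℝ) : ℝ) : ℂ) * xiu n (-t)‖ ≤ 2 / |t| + (1 + |t|) / a := by
  have ha0 : (0 : ℝ) < a := by exact_mod_cast ha
  have key : ∀ n, a ≤ n → ‖∑ m ∈ Ioc a n, ((1 / (m : ℝ) : ℝ) : ℂ) * xiu m (-t)
      - (xiu a (-t) / ((t : ℂ) * Complex.I) - xiu n (-t) / ((t : ℂ) * Complex.I))‖
      ≤ ((n : ℝ) - a) * ((1 + |t|) / (a : ℝ) ^ 2) := by
    intro n hn
    induction n, hn using Nat.le_induction with
    | base => simp
    | succ n hn ih =>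
      have han : (a : ℝ) ≤ n := by exact_mod_cast hn
      have h1 := mmb_step n t (ha.trans hn) ht (hta.trans han)
      rw [Finset.sum_Ioc_succ_top hn]
      push_cast
      have e : ∑ k ∈ Ioc a n, ((1 / (k : ℝ) : ℝ) : ℂ) * xiu k (-t)
          + ((1 / ((n : ℝ) + 1) : ℝ) : ℂ) * xiu ((n : ℝ) + 1) (-t)
          - (xiu a (-t) / ((t : ℂ) * Complex.I) - xiu ((n : ℝ) + 1) (-t) / ((t : ℂ) * Complex.I))
          = (∑ k ∈ Ioc a n, ((1 / (k : ℝ) : ℝ) : ℂ) * xiu k (-t)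
            - (xiu a (-t) / ((t : ℂ) * Complex.I) - xiu n (-t) / ((t : ℂ) * Complex.I)))
          + (((1 / ((n : ℝ) + 1) : ℝ) : ℂ) * xiu ((n : ℝ) + 1) (-t)
            - (xiu n (-t) / ((t : ℂ) * Complex.I) - xiu ((n : ℝ) + 1) (-t) / ((t : ℂ) * Complex.I))) := by
        ring
      have h2 : (1 + |t|) / (n : ℝ) ^ 2 ≤ (1 + |t|) / (a : ℝ) ^ 2 := by
        gcongr
      have h3 := norm_add_le (∑ k ∈ Ioc a n, ((1 / (k : ℝ) : ℝ) : ℂ) * xiu k (-t)
            - (xiu a (-t) / ((t : ℂ) * Complex.I) - xiu n (-t) / ((t : ℂ) * Complex.I)))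
          (((1 / ((n : ℝ) + 1) : ℝ) : ℂ) * xiu ((n : ℝ) + 1) (-t)
            - (xiu n (-t) / ((t : ℂ) * Complex.I) - xiu ((n : ℝ) + 1) (-t) / ((t : ℂ) * Complex.I)))
      rw [← e] at h3
      push_cast at h3 ih h1 ⊢
      linarith
  have h1 := key b hab
  have hF : ∀ x : ℝ, ‖xiu x (-t) / ((t : ℂ) * Complex.I)‖ = 1 / |t| := by
    intro x
    rw [norm_div, norm_mul, Complex.norm_I, mul_one, Complex.norm_real, Real.norm_eq_abs, mmb_xnorm]
  have h2 : ‖xiu a (-t) / ((t : ℂ) * Complex.I) - xiu b (-t) / ((t : ℂ) * Complex.I)‖ ≤ 2 / |t| := by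
    refine (norm_sub_le _ _).trans ?_
    rw [hF, hF]
    apply le_of_eq
    ring
  have h3 : ((b : ℝ) - a) * ((1 + |t|) / (a : ℝ) ^ 2) ≤ (1 + |t|) / a := by
    have hb' : (b : ℝ) ≤ 2 * a := by exact_mod_cast hb
    calc ((b : ℝ) - a) * ((1 + |t|) / (a : ℝ) ^ 2) ≤ a * ((1 + |t|) / (a : ℝ) ^ 2) := by
          apply mul_le_mul_of_nonneg_right (by linarith) (by positivity)
      _ = (1 + |t|) / a := by
          field_simp
  have h4 := norm_sub_norm_le (∑ m ∈ Ioc a b, ((1 / (m : ℝ) : ℝ) : ℂ) * xiu m (-t))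
      (xiu a (-t) / ((t : ℂ) * Complex.I) - xiu b (-t) / ((t : ℂ) * Complex.I))
  linarith

/-- large `t` -/
theorem mmb_large {A c C : ℝ}
    (H : ∀ (M β u : ℝ) (a b : ℕ), 1 ≤ M → 0 ≤ β → β ≤ 1 → M ^ (1 / 2 : ℝ) ≤ |u| → |u| ≤ M ^ A →
      M ≤ a → a ≤ b → (b : ℝ) ≤ 2 * M → ‖∑ m ∈ Ioc a b, xiu (m + β) u‖ ≤ C * M ^ (1 - c))
    (a b : ℕ) (t : ℝ) (ha : 1 ≤ a) (hab : a ≤ b) (hb : b ≤ 2 * a)
    (ht1 : (a : ℝ) ^ (1 / 2 : ℝ) ≤ |t|) (ht2 : |t| ≤ (a : ℝ) ^ A) :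
    ‖∑ n ∈ Ioc a b, ((1 / (n : ℝ) : ℝ) : ℂ) * xiu n (-t)‖ ≤ C * (a : ℝ) ^ (-c) := by
  have ha0 : (0 : ℝ) < a := by exact_mod_cast ha
  have h := lb_abel (fun n => 1 / (n : ℝ)) (fun n => xiu n (-t)) a b (C * (a : ℝ) ^ (1 - c)) hab
    ?_ (by positivity) ?_
  · refine h.trans (le_of_eq ?_)
    show 1 / (a : ℝ) * (C * (a : ℝ) ^ (1 - c)) = _
    rw [Real.rpow_sub ha0, Real.rpow_one, Real.rpow_neg ha0.le]
    field_simp
  · intro n hn _
    have hn0 : (0 : ℝ) < n := lt_of_lt_of_le ha0 (by exact_mod_cast hn)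
    apply one_div_le_one_div_of_le hn0
    push_cast
    linarith
  · intro n hn hn2
    have h1 := H a 0 (-t) a n (by exact_mod_cast ha) le_rfl zero_le_one (by rwa [abs_neg])
      (by rwa [abs_neg]) le_rfl hn (by exact_mod_cast (hn2.trans hb))
    simpa using h1

/-- putting dyadic pieces together -/
theorem mmb_dyad (z : ℕ → ℂ) (B : ℝ) (hB : 0 ≤ B) (K N : ℕ)
    (H : ∀ a b : ℕ, K ≤ a → a ≤ b → b ≤ 2 * a → b ≤ N → ‖∑ n ∈ Ioc a b, z n‖ ≤ B) (k : ℕ) :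
    ∀ b : ℕ, K ≤ b → b ≤ N → b ≤ 2 ^ k * K → ‖∑ n ∈ Ioc K b, z n‖ ≤ k * B := by
  induction k with
  | zero =>
    intro b h1 h2 h3
    have : b = K := by omega
    subst this
    simp
  | succ k ih =>
    intro b h1 h2 h3
    by_cases hb : b ≤ 2 ^ k * K
    · have := ih b h1 h2 hb
      push_cast
      linarith
    · push Not at hb
      have hK : K ≤ 2 ^ k * K := Nat.le_mul_of_pos_left _ (by positivity)
      have e : ∑ n ∈ Ioc K b, z n = ∑ n ∈ Ioc K (2 ^ k * K), z n + ∑ n ∈ Ioc (2 ^ k * K) b, z n := by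
        rw [Finset.sum_Ioc_consecutive _ hK hb.le]
      rw [e]
      have h4 := ih (2 ^ k * K) hK (hb.le.trans h2) le_rfl
      have h5 := H (2 ^ k * K) b hK hb.le (by rw [pow_succ] at h3; linarith) h2
      have h6 := norm_add_le (∑ n ∈ Ioc K (2 ^ k * K), z n) (∑ n ∈ Ioc (2 ^ k * K) b, z n)
      push_cast
      linarith

theorem mmb : ∃ c C V₀ : ℝ, 0 < c ∧ 0 < C ∧ 2 ≤ V₀ ∧ ∀ V t : ℝ, V₀ ≤ V →
    V ^ (1 / 20 : ℝ) ≤ |t| → |t| ≤ V ^ 2 →
    ‖DP (MM V) (fun _ => 1) t‖ ≤ C * V ^ (-c) := by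
  obtain ⟨c, hc, C, hC, H⟩ := st_VDC st_KL st_WV st_DL 10 (by norm_num)
  set c' : ℝ := min (1 / 20) (c / 5) with hc'
  have hc'0 : 0 < c' := lt_min (by norm_num) (by positivity)
  have hc'1 : c' ≤ 1 / 20 := min_le_left _ _
  have hc'2 : c' ≤ c / 5 := min_le_right _ _
  refine ⟨c' / 2, (C + 4) * (3 * (2 / c')), 1024, by positivity, by positivity, by norm_num, ?_⟩
  intro V t hV ht1 ht2
  have hV0 : 0 < V := by linarith
  have hV1 : 1 ≤ V := by linarith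
  have hV10 : 2 ≤ V ^ (1 / 10 : ℝ) := by
    have : (2 : ℝ) = (1024 : ℝ) ^ (1 / 10 : ℝ) := by
      rw [show (1024 : ℝ) = 2 ^ (10 : ℝ) by norm_num, ← Real.rpow_mul (by norm_num)]
      norm_num
    rw [this]
    exact Real.rpow_le_rpow (by norm_num) hV (by norm_num)
  have hV5 : 1 ≤ V ^ (1 / 5 : ℝ) := Real.one_le_rpow hV1 (by norm_num)
  have hK1 : V ^ (1 / 5 : ℝ) ≤ (⌊V ^ (3 / 10 : ℝ)⌋₊ : ℝ) := by
    have h1 := Nat.lt_floor_add_one (V ^ (3 / 10 : ℝ))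
    have h2 : V ^ (3 / 10 : ℝ) = V ^ (1 / 5 : ℝ) * V ^ (1 / 10 : ℝ) := by
      rw [← Real.rpow_add hV0]
      norm_num
    have h3 : V ^ (1 / 5 : ℝ) * 2 ≤ V ^ (1 / 5 : ℝ) * V ^ (1 / 10 : ℝ) :=
      mul_le_mul_of_nonneg_left hV10 (by linarith)
    linarith
  have ht0 : t ≠ 0 := by
    intro h
    rw [h, abs_zero] at ht1
    have := Real.rpow_pos_of_pos hV0 (1 / 20 : ℝ)
    linarith
  have ht1' : 1 ≤ |t| := (Real.one_le_rpow hV1 (by norm_num)).trans ht1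
  set K := ⌊V ^ (3 / 10 : ℝ)⌋₊ with hK
  set N := ⌊V ^ (2 / 5 : ℝ)⌋₊ with hN
  have hK0 : 1 ≤ K := by
    have : (1 : ℝ) ≤ K := hV5.trans hK1
    exact_mod_cast this
  have e0 : DP (MM V) (fun _ => 1) t = ∑ n ∈ Ioc K N, ((1 / (n : ℝ) : ℝ) : ℂ) * xiu n (-t) := by
    rw [DP, MM]
    refine Finset.sum_congr rfl fun n _ => ?_
    rw [mmb_nit]
    push_cast
    rfl
  rw [e0]
  set B : ℝ := (C + 4) * V ^ (-c') with hB
  have hB0 : 0 ≤ B := by positivity
  have hblock : ∀ a b : ℕ, K ≤ a → a ≤ b → b ≤ 2 * a → b ≤ N →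
      ‖∑ n ∈ Ioc a b, ((1 / (n : ℝ) : ℝ) : ℂ) * xiu n (-t)‖ ≤ B := by
    intro a b h1 h2 h3 _
    have ha1 : 1 ≤ a := hK0.trans h1
    have ha0 : (0 : ℝ) < a := by exact_mod_cast ha1
    have haV : V ^ (1 / 5 : ℝ) ≤ a := hK1.trans (by exact_mod_cast h1)
    rcases le_or_gt ((a : ℝ) ^ (1 / 2 : ℝ)) |t| with h | h
    · have h4 := mmb_large H a b t ha1 h2 h3 h ?_
      · refine h4.trans ?_
        have h5 : (a : ℝ) ^ (-c) ≤ (V ^ (1 / 5 : ℝ)) ^ (-c) :=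
          Real.rpow_le_rpow_of_nonpos (by linarith) haV (by linarith)
        have h6 : (V ^ (1 / 5 : ℝ)) ^ (-c) ≤ V ^ (-c') := by
          rw [← Real.rpow_mul hV0.le]
          apply Real.rpow_le_rpow_of_exponent_le hV1
          linarith
        have h7 : 0 ≤ V ^ (-c') := by positivity
        calc C * (a : ℝ) ^ (-c) ≤ C * V ^ (-c') := mul_le_mul_of_nonneg_left (h5.trans h6) hC.le
          _ ≤ (C + 4) * V ^ (-c') := mul_le_mul_of_nonneg_right (by linarith) h7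
      · refine ht2.trans ?_
        calc V ^ 2 = (V ^ (1 / 5 : ℝ)) ^ (10 : ℝ) := by
              rw [← Real.rpow_mul hV0.le, ← Real.rpow_natCast]
              norm_num
          _ ≤ (a : ℝ) ^ (10 : ℝ) := Real.rpow_le_rpow (by linarith) haV (by norm_num)
    · have haa : (a : ℝ) ^ (1 / 2 : ℝ) ≤ a := by
        calc (a : ℝ) ^ (1 / 2 : ℝ) ≤ (a : ℝ) ^ (1 : ℝ) :=
              Real.rpow_le_rpow_of_exponent_le (by exact_mod_cast ha1) (by norm_num)
          _ = a := Real.rpow_one _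
      have h4 := mmb_small a b t ha1 h2 h3 ht0 (h.le.trans haa)
      refine h4.trans ?_
      have h5 : 2 / |t| ≤ 2 * V ^ (-c') := by
        rw [div_le_iff₀ (by linarith)]
        have h6 : V ^ (-(1 / 20) : ℝ) ≤ V ^ (-c') :=
          Real.rpow_le_rpow_of_exponent_le hV1 (by linarith)
        have h7 : V ^ (-(1 / 20) : ℝ) * V ^ (1 / 20 : ℝ) = 1 := by
          rw [← Real.rpow_add hV0]
          norm_num
        have h8 : V ^ (-(1 / 20) : ℝ) * V ^ (1 / 20 : ℝ) ≤ V ^ (-c') * |t| :=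
          mul_le_mul h6 ht1 (by positivity) (by positivity)
        linarith
      have h6 : (1 + |t|) / a ≤ 2 * V ^ (-c') := by
        have h7 : (1 + |t|) / a ≤ 2 * (a : ℝ) ^ (1 / 2 : ℝ) / a := by
          apply div_le_div_of_nonneg_right _ ha0.le
          linarith
        have h8 : 2 * (a : ℝ) ^ (1 / 2 : ℝ) / a = 2 * (a : ℝ) ^ (-(1 / 2) : ℝ) := by
          have : (a : ℝ) ^ (-(1 / 2) : ℝ) = (a : ℝ) ^ (1 / 2 : ℝ) / a := by
            rw [show (-(1 / 2) : ℝ) = 1 / 2 - 1 by norm_num, Real.rpow_sub ha0, Real.rpow_one]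
          rw [this]
          ring
        have h9 : (a : ℝ) ^ (-(1 / 2) : ℝ) ≤ (V ^ (1 / 5 : ℝ)) ^ (-(1 / 2) : ℝ) :=
          Real.rpow_le_rpow_of_nonpos (by linarith) haV (by norm_num)
        have h10 : (V ^ (1 / 5 : ℝ)) ^ (-(1 / 2) : ℝ) ≤ V ^ (-c') := by
          rw [← Real.rpow_mul hV0.le]
          apply Real.rpow_le_rpow_of_exponent_le hV1
          linarith
        rw [h8] at h7
        linarith
      have h7 : 0 ≤ C * V ^ (-c') := by positivity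
      rw [hB]
      linarith
  have hKN : K ≤ N := by
    apply Nat.floor_le_floor
    exact Real.rpow_le_rpow_of_exponent_le hV1 (by norm_num)
  set k := ⌈2 * Real.log V⌉₊ with hk
  have hNk : N ≤ 2 ^ k * K := by
    have h1 : (N : ℝ) ≤ V := by
      calc (N : ℝ) ≤ V ^ (2 / 5 : ℝ) := Nat.floor_le (by positivity)
        _ ≤ V ^ (1 : ℝ) := Real.rpow_le_rpow_of_exponent_le hV1 (by norm_num)
        _ = V := Real.rpow_one _
    have h2 : V ≤ (2 : ℝ) ^ k := by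
      have h3 : Real.log V ≤ k * Real.log 2 := by
        have h4 : 2 * Real.log V ≤ k := Nat.le_ceil _
        have h5 : (1 / 2 : ℝ) ≤ Real.log 2 := by
          have := Real.log_two_gt_d9
          linarith
        have h6 : 0 ≤ Real.log V := Real.log_nonneg hV1
        nlinarith
      calc V = Real.exp (Real.log V) := (Real.exp_log hV0).symm
        _ ≤ Real.exp (k * Real.log 2) := Real.exp_le_exp.2 h3
        _ = (2 : ℝ) ^ k := by
            rw [Real.exp_nat_mul, Real.exp_log (by norm_num)]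
    have h3 : (N : ℝ) ≤ ((2 ^ k : ℕ) : ℝ) := by
      push_cast
      exact h1.trans h2
    have h4 : N ≤ 2 ^ k := by exact_mod_cast h3
    exact h4.trans (Nat.le_mul_of_pos_right _ hK0)
  have hfin := mmb_dyad (fun n => ((1 / (n : ℝ) : ℝ) : ℂ) * xiu n (-t)) B hB0 K N hblock k N hKN
    le_rfl hNk
  refine hfin.trans ?_
  have hlog1 : 1 ≤ Real.log V := by
    rw [← Real.log_exp 1]
    apply Real.log_le_log (Real.exp_pos 1)
    have := Real.exp_one_lt_d9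
    linarith
  have hk1 : (k : ℝ) ≤ 3 * Real.log V := by
    have := Nat.ceil_lt_add_one (show 0 ≤ 2 * Real.log V by positivity)
    linarith
  have hlog2 : Real.log V ≤ 2 / c' * V ^ (c' / 2) := by
    have := Real.log_le_rpow_div hV0.le (show 0 < c' / 2 by positivity)
    calc Real.log V ≤ V ^ (c' / 2) / (c' / 2) := this
      _ = 2 / c' * V ^ (c' / 2) := by
          field_simp
  calc (k : ℝ) * B ≤ (3 * (2 / c' * V ^ (c' / 2))) * B := by
        apply mul_le_mul_of_nonneg_right _ hB0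
        linarith
    _ = (C + 4) * (3 * (2 / c')) * (V ^ (c' / 2) * V ^ (-c')) := by
        rw [hB]
        ring
    _ = (C + 4) * (3 * (2 / c')) * V ^ (-(c' / 2)) := by
        rw [← Real.rpow_add hV0]
        congr 2
        ring

end EL
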