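import Pool.Agent.Helper85.EL.Defs
import Pool.Agent.Helper24.MR.PLA

/-! Row PLB: Plancherel for the difference of two windows. -/

set_option autoImplicit false

namespace EL

open Finset Filter MeasureTheory FourierTransform
open scoped Classical
open Pool.Agent.Helper40.MR (DP nit xiu)
open Pool.Agent.Helper40.MR (pla_e pla_e_integrable pla_e_memLp pla_e_fourier pla_mult
  pla_plancherel_int pla_DP_cont pla_rhs_integrable pla_c_ne)

/-- the multiplier of one window -/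
noncomputable def plbK (δ t : ℝ) : ℂ :=
  (Complex.exp ((1 + (t : ℂ) * Complex.I) * δ) - 1) / (1 + (t : ℂ) * Complex.I)

/-- the multiplier of the difference of two windows -/
theorem plb_mult {δ Δ t : ℝ} (hδ : 0 < δ) (hd : δ ≤ Δ) (hΔ1 : Δ ≤ 1) :
    ‖plbK δ t - ((δ / Δ : ℝ) : ℂ) * plbK Δ t‖ ^ 2
      ≤ 64 * min (min (δ ^ 2) (1 / (1 + t ^ 2))) ((δ * Δ * (1 + |t|)) ^ 2) := by
  have hΔ : 0 < Δ := lt_of_lt_of_le hδ hd
  set c : ℂ := 1 + (t : ℂ) * Complex.I with hc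
  have hc0 : c ≠ 0 := pla_c_ne t
  have hcn : 0 < ‖c‖ := norm_pos_iff.2 hc0
  have hq0 : (0 : ℝ) < 1 / (1 + t ^ 2) := by positivity
  have hρ0 : 0 ≤ δ / Δ := by positivity
  have hρ1 : δ / Δ ≤ 1 := (div_le_one hΔ).2 hd
  have hct : ‖c‖ ≤ 1 + |t| := by
    rw [hc]
    refine (norm_add_le _ _).trans ?_
    rw [norm_one, norm_mul, Complex.norm_I, mul_one, Complex.norm_real, Real.norm_eq_abs]
  have h1 : ‖plbK δ t‖ ^ 2 ≤ 16 * min (δ ^ 2) (1 / (1 + t ^ 2)) := pla_mult hδ (hd.trans hΔ1)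
  have h2 : ‖plbK Δ t‖ ^ 2 ≤ 16 * min (Δ ^ 2) (1 / (1 + t ^ 2)) := pla_mult hΔ hΔ1
  have h3 : (δ / Δ) ^ 2 * min (Δ ^ 2) (1 / (1 + t ^ 2)) ≤ min (δ ^ 2) (1 / (1 + t ^ 2)) := by
    refine le_min ?_ ?_
    · calc (δ / Δ) ^ 2 * min (Δ ^ 2) (1 / (1 + t ^ 2)) ≤ (δ / Δ) ^ 2 * Δ ^ 2 :=
          mul_le_mul_of_nonneg_left (min_le_left _ _) (sq_nonneg _)
        _ = δ ^ 2 := by field_simp
    · calc (δ / Δ) ^ 2 * min (Δ ^ 2) (1 / (1 + t ^ 2)) ≤ 1 * (1 / (1 + t ^ 2)) :=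
          mul_le_mul (pow_le_one₀ hρ0 hρ1) (min_le_right _ _) (le_min (sq_nonneg _) hq0.le)
            (by norm_num)
        _ = _ := one_mul _
  have hA : ‖plbK δ t - ((δ / Δ : ℝ) : ℂ) * plbK Δ t‖ ^ 2
      ≤ 64 * min (δ ^ 2) (1 / (1 + t ^ 2)) := by
    have e1 : ‖plbK δ t - ((δ / Δ : ℝ) : ℂ) * plbK Δ t‖ ≤ ‖plbK δ t‖ + (δ / Δ) * ‖plbK Δ t‖ := by
      refine (norm_sub_le _ _).trans ?_
      rw [norm_mul, Complex.norm_real, Real.norm_of_nonneg hρ0]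
    have e2 : ‖plbK δ t - ((δ / Δ : ℝ) : ℂ) * plbK Δ t‖ ^ 2
        ≤ (‖plbK δ t‖ + (δ / Δ) * ‖plbK Δ t‖) ^ 2 := pow_le_pow_left₀ (norm_nonneg _) e1 2
    have e3 : (‖plbK δ t‖ + (δ / Δ) * ‖plbK Δ t‖) ^ 2
        ≤ 2 * ‖plbK δ t‖ ^ 2 + 2 * ((δ / Δ) ^ 2 * ‖plbK Δ t‖ ^ 2) := by
      nlinarith [sq_nonneg (‖plbK δ t‖ - (δ / Δ) * ‖plbK Δ t‖)]
    have e4 : (δ / Δ) ^ 2 * ‖plbK Δ t‖ ^ 2
        ≤ (δ / Δ) ^ 2 * (16 * min (Δ ^ 2) (1 / (1 + t ^ 2))) :=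
      mul_le_mul_of_nonneg_left h2 (sq_nonneg _)
    linarith
  rw [mul_min_of_nonneg _ _ (by norm_num : (0 : ℝ) ≤ 64)]
  refine le_min hA ?_
  by_cases hb : 1 ≤ ‖c‖ * Δ
  · have h4 : 64 * min (δ ^ 2) (1 / (1 + t ^ 2)) ≤ 64 * δ ^ 2 :=
      mul_le_mul_of_nonneg_left (min_le_left _ _) (by norm_num)
    have h5 : δ ^ 2 ≤ (δ * Δ * (1 + |t|)) ^ 2 := by
      refine pow_le_pow_left₀ hδ.le ?_ 2
      have : ‖c‖ * Δ ≤ Δ * (1 + |t|) := by
        rw [mul_comm]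
        exact mul_le_mul_of_nonneg_left hct hΔ.le
      calc δ = δ * 1 := (mul_one δ).symm
        _ ≤ δ * (Δ * (1 + |t|)) := mul_le_mul_of_nonneg_left (hb.trans this) hδ.le
        _ = _ := by ring
    linarith
  · rw [not_le] at hb
    have r1 : ∀ x : ℝ, 0 < x → x ≤ Δ →
        ‖Complex.exp (c * x) - 1 - c * x‖ ≤ (‖c‖ * x) ^ 2 := by
      intro x hx hxΔ
      have hn : ‖c * (x : ℂ)‖ = ‖c‖ * x := by
        rw [norm_mul, Complex.norm_real, Real.norm_of_nonneg hx.le]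
      have hle : ‖c * (x : ℂ)‖ ≤ 1 := by
        rw [hn]
        exact (mul_le_mul_of_nonneg_left hxΔ hcn.le).trans hb.le
      have := Complex.norm_exp_sub_one_sub_id_le hle
      rwa [hn] at this
    have r2 : plbK δ t - ((δ / Δ : ℝ) : ℂ) * plbK Δ t
        = (Complex.exp (c * δ) - 1 - c * δ) / c
          - ((δ / Δ : ℝ) : ℂ) * ((Complex.exp (c * Δ) - 1 - c * Δ) / c) := by
      have hΔc : (Δ : ℂ) ≠ 0 := by exact_mod_cast hΔ.ne'
      unfold plbK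
      rw [← hc]
      push_cast
      field_simp
      ring
    have r3 : ‖plbK δ t - ((δ / Δ : ℝ) : ℂ) * plbK Δ t‖ ≤ 2 * (δ * Δ * ‖c‖) := by
      rw [r2]
      refine (norm_sub_le _ _).trans ?_
      rw [norm_mul, norm_div, norm_div, Complex.norm_real, Real.norm_of_nonneg hρ0]
      have s1 : ‖Complex.exp (c * δ) - 1 - c * δ‖ / ‖c‖ ≤ δ * Δ * ‖c‖ := by
        rw [div_le_iff₀ hcn]
        refine (r1 δ hδ hd).trans ?_
        have : δ * δ ≤ δ * Δ := mul_le_mul_of_nonneg_left hd hδ.le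
        have hc2 : 0 ≤ ‖c‖ * ‖c‖ := by positivity
        nlinarith [mul_le_mul_of_nonneg_left this hc2]
      have s2 : δ / Δ * (‖Complex.exp (c * Δ) - 1 - c * Δ‖ / ‖c‖) ≤ δ * Δ * ‖c‖ := by
        have s3 : ‖Complex.exp (c * Δ) - 1 - c * Δ‖ / ‖c‖ ≤ Δ ^ 2 * ‖c‖ := by
          rw [div_le_iff₀ hcn]
          refine (r1 Δ hΔ le_rfl).trans (le_of_eq ?_)
          ring
        calc _ ≤ δ / Δ * (Δ ^ 2 * ‖c‖) := mul_le_mul_of_nonneg_left s3 hρ0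
          _ = _ := by field_simp
      linarith
    have r4 : 2 * (δ * Δ * ‖c‖) ≤ 2 * (δ * Δ * (1 + |t|)) := by
      have : 0 ≤ δ * Δ := by positivity
      nlinarith [mul_le_mul_of_nonneg_left hct this]
    calc _ ≤ (2 * (δ * Δ * (1 + |t|))) ^ 2 :=
          pow_le_pow_left₀ (norm_nonneg _) (r3.trans r4) 2
      _ = 4 * (δ * Δ * (1 + |t|)) ^ 2 := by ring
      _ ≤ _ := by nlinarith [sq_nonneg (δ * Δ * (1 + |t|))]

theorem plb_rhs_integrable (s : Finset ℕ) (a : ℕ → ℂ) (δ Δ : ℝ) :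
    Integrable (fun t : ℝ => ‖DP s a t‖ ^ 2 *
      min (min (δ ^ 2) (1 / (1 + t ^ 2))) ((δ * Δ * (1 + |t|)) ^ 2)) := by
  have h0 : ∀ t : ℝ, (0 : ℝ) < 1 + t ^ 2 := fun t => by positivity
  refine (pla_rhs_integrable s a δ).mono' ?_ ?_
  · refine Continuous.aestronglyMeasurable ?_
    refine ((pla_DP_cont s a).norm.pow 2).mul ((continuous_const.min ?_).min ?_)
    · exact continuous_const.div (by fun_prop) fun t => (h0 t).ne'
    · fun_prop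
  · refine Eventually.of_forall fun t => ?_
    have h1 : 0 ≤ min (min (δ ^ 2) (1 / (1 + t ^ 2))) ((δ * Δ * (1 + |t|)) ^ 2) :=
      le_min (le_min (sq_nonneg _) (by positivity)) (sq_nonneg _)
    rw [Real.norm_of_nonneg (mul_nonneg (sq_nonneg _) h1)]
    exact mul_le_mul_of_nonneg_left (min_le_left _ _) (sq_nonneg _)

theorem plb : ∃ C : ℝ, 0 < C ∧ ∀ (s : Finset ℕ) (δ Δ : ℝ) (a : ℕ → ℂ), (∀ n ∈ s, 1 ≤ n) →
    0 < δ → δ ≤ Δ → Δ ≤ 1 →
    Integrable (fun u : ℝ => ‖∑ n ∈ s.filter (fun n : ℕ => u < Real.log n ∧ Real.log n ≤ u + δ), a n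
      - ((δ / Δ : ℝ) : ℂ) *
        ∑ n ∈ s.filter (fun n : ℕ => u < Real.log n ∧ Real.log n ≤ u + Δ), a n‖ ^ 2
      * Real.exp (-(2 * u))) ∧
    ∫ u : ℝ, ‖∑ n ∈ s.filter (fun n : ℕ => u < Real.log n ∧ Real.log n ≤ u + δ), a n
      - ((δ / Δ : ℝ) : ℂ) *
        ∑ n ∈ s.filter (fun n : ℕ => u < Real.log n ∧ Real.log n ≤ u + Δ), a n‖ ^ 2
      * Real.exp (-(2 * u)) ≤
    C * ∫ t : ℝ, ‖DP s a t‖ ^ 2 *
      min (min (δ ^ 2) (1 / (1 + t ^ 2))) ((δ * Δ * (1 + |t|)) ^ 2) := by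
  refine ⟨64, by norm_num, fun s δ Δ a hs hδ hd hΔ1 => ?_⟩
  have hΔ : 0 < Δ := lt_of_lt_of_le hδ hd
  set g : ℝ → ℂ := fun u => ∑ n ∈ s, a n * (pla_e δ n u - ((δ / Δ : ℝ) : ℂ) * pla_e Δ n u) with hg
  have hti : ∀ n : ℕ, Integrable (fun u : ℝ => a n * (pla_e δ n u
      - ((δ / Δ : ℝ) : ℂ) * pla_e Δ n u)) := fun n =>
    ((pla_e_integrable δ n).sub ((pla_e_integrable Δ n).const_mul _)).const_mul _
  have ht2 : ∀ n : ℕ, MemLp (fun u : ℝ => a n * (pla_e δ n u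
      - ((δ / Δ : ℝ) : ℂ) * pla_e Δ n u)) 2 := fun n =>
    ((pla_e_memLp δ n).sub ((pla_e_memLp Δ n).const_mul _)).const_mul _
  have hgi : Integrable g := integrable_finsetSum _ fun n _ => hti n
  have hg2 : MemLp g 2 := memLp_finsetSum _ fun n _ => ht2 n
  have hone : ∀ (x u : ℝ), ∑ n ∈ s, a n * pla_e x n u = (∑ n ∈ s.filter
      (fun n : ℕ => u < Real.log n ∧ Real.log n ≤ u + x), a n) * Complex.exp (-(u : ℂ)) := by
    intro x u
    rw [Finset.sum_mul, Finset.sum_filter]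
    refine Finset.sum_congr rfl fun n _ => ?_
    unfold pla_e
    split_ifs with h
    · have hmem : u ∈ Set.Ico (Real.log n - x) (Real.log n) := ⟨by linarith [h.2], h.1⟩
      rw [Set.indicator_of_mem hmem]
    · rw [Set.indicator_of_notMem, mul_zero]
      rintro ⟨h1, h2⟩
      exact h ⟨h2, by linarith⟩
  have h1 : ∀ u : ℝ, ‖∑ n ∈ s.filter (fun n : ℕ => u < Real.log n ∧ Real.log n ≤ u + δ), a n
      - ((δ / Δ : ℝ) : ℂ) *
        ∑ n ∈ s.filter (fun n : ℕ => u < Real.log n ∧ Real.log n ≤ u + Δ), a n‖ ^ 2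
      * Real.exp (-(2 * u)) = ‖g u‖ ^ 2 := by
    intro u
    have e0 : g u = ∑ n ∈ s, a n * pla_e δ n u
        - ((δ / Δ : ℝ) : ℂ) * ∑ n ∈ s, a n * pla_e Δ n u := by
      rw [hg, Finset.mul_sum, ← Finset.sum_sub_distrib]
      refine Finset.sum_congr rfl fun n _ => ?_
      ring
    have e1 : g u = (∑ n ∈ s.filter (fun n : ℕ => u < Real.log n ∧ Real.log n ≤ u + δ), a n
      - ((δ / Δ : ℝ) : ℂ) *
        ∑ n ∈ s.filter (fun n : ℕ => u < Real.log n ∧ Real.log n ≤ u + Δ), a n)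
        * Complex.exp (-(u : ℂ)) := by
      rw [e0, hone, hone]
      ring
    rw [e1, norm_mul, mul_pow]
    congr 1
    rw [Complex.norm_exp, ← Real.exp_nat_mul]
    congr 1
    simp
  have h1i : Integrable (fun u : ℝ => ‖g u‖ ^ 2) := hg2.integrable_norm_pow (by norm_num)
  refine ⟨h1i.congr (Eventually.of_forall fun u => (h1 u).symm), ?_⟩
  rw [integral_congr_ae (Eventually.of_forall h1), pla_plancherel_int g hgi hg2]
  have h2 : ∀ ξ : ℝ, 𝓕 g ξ = DP s a (2 * Real.pi * ξ) *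
      (plbK δ (2 * Real.pi * ξ) - ((δ / Δ : ℝ) : ℂ) * plbK Δ (2 * Real.pi * ξ)) := by
    intro ξ
    have hF : ∀ f : ℝ → ℂ, Integrable f → Integrable (fun v : ℝ =>
        Complex.exp (↑(-2 * Real.pi * v * ξ) * Complex.I) • f v) := by
      intro f hf
      have := (Real.fourierIntegral_convergent_iff (V := ℝ) (f := f) ξ).2 hf
      refine this.congr (Eventually.of_forall fun v => ?_)
      simp only [Circle.smul_def, Real.fourierChar_apply]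
      congr 2
      simp
      ring
    have e : 𝓕 g ξ = ∑ n ∈ s, a n * (𝓕 (pla_e δ n) ξ - ((δ / Δ : ℝ) : ℂ) * 𝓕 (pla_e Δ n) ξ) := by
      simp only [Real.fourier_real_eq_integral_exp_smul, hg]
      simp only [Finset.smul_sum]
      rw [integral_finsetSum]
      · refine Finset.sum_congr rfl fun n _ => ?_
        rw [← integral_const_mul, ← integral_sub (hF _ (pla_e_integrable δ n))
          ((hF _ (pla_e_integrable Δ n)).const_mul _), ← integral_const_mul]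
        refine integral_congr_ae (Eventually.of_forall fun v => ?_)
        simp only [smul_eq_mul]
        ring
      · intro n _
        exact hF _ (hti n)
    rw [e, DP, Finset.sum_mul]
    refine Finset.sum_congr rfl fun n hn => ?_
    rw [pla_e_fourier hδ (hs n hn), pla_e_fourier hΔ (hs n hn)]
    unfold plbK
    ring
  have h3 : ∀ ξ : ℝ, ‖𝓕 g ξ‖ ^ 2 ≤ 64 * (fun t : ℝ => ‖DP s a t‖ ^ 2 *
      min (min (δ ^ 2) (1 / (1 + t ^ 2))) ((δ * Δ * (1 + |t|)) ^ 2)) ((2 * Real.pi) * ξ) := by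
    intro ξ
    rw [h2, norm_mul, mul_pow]
    have := mul_le_mul_of_nonneg_left (plb_mult (t := 2 * Real.pi * ξ) hδ hd hΔ1)
      (sq_nonneg ‖DP s a (2 * Real.pi * ξ)‖)
    simp only
    linarith
  have hint := plb_rhs_integrable s a δ Δ
  have hpi : 0 < 2 * Real.pi := by positivity
  have h4 : Integrable (fun ξ : ℝ => 64 * (fun t : ℝ => ‖DP s a t‖ ^ 2 *
      min (min (δ ^ 2) (1 / (1 + t ^ 2))) ((δ * Δ * (1 + |t|)) ^ 2)) ((2 * Real.pi) * ξ)) :=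
    ((integrable_comp_mul_left_iff _ hpi.ne').2 hint).const_mul _
  have h5 : ∫ ξ, ‖𝓕 g ξ‖ ^ 2 ≤ ∫ ξ, 64 * (fun t : ℝ => ‖DP s a t‖ ^ 2 *
      min (min (δ ^ 2) (1 / (1 + t ^ 2))) ((δ * Δ * (1 + |t|)) ^ 2)) ((2 * Real.pi) * ξ) :=
    integral_mono_of_nonneg (Eventually.of_forall fun ξ => by positivity) h4
      (Eventually.of_forall h3)
  refine h5.trans ?_
  have hcm := Measure.integral_comp_mul_left (fun t : ℝ => ‖DP s a t‖ ^ 2 *
      min (min (δ ^ 2) (1 / (1 + t ^ 2))) ((δ * Δ * (1 + |t|)) ^ 2)) (2 * Real.pi)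
  rw [integral_const_mul, hcm]
  have h6 : 0 ≤ ∫ t : ℝ, ‖DP s a t‖ ^ 2 *
      min (min (δ ^ 2) (1 / (1 + t ^ 2))) ((δ * Δ * (1 + |t|)) ^ 2) := by
    refine integral_nonneg fun t => ?_
    have h1 : 0 ≤ min (min (δ ^ 2) (1 / (1 + t ^ 2))) ((δ * Δ * (1 + |t|)) ^ 2) :=
      le_min (le_min (sq_nonneg _) (by positivity)) (sq_nonneg _)
    simp only [Pi.zero_apply]
    positivity
  have h7 : |(2 * Real.pi)⁻¹| ≤ 1 := by
    rw [abs_of_pos (inv_pos.2 hpi)]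
    apply inv_le_one_of_one_le₀
    have := Real.pi_gt_three
    linarith
  rw [smul_eq_mul]
  nlinarith

end EL
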