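import Pool.Agent.Helper85.EL.Defs
import Pool.Agent.Helper24.MR.PLA
import Pool.Agent.Helper44.MR.HM2
import Pool.Agent.Helper51.MR.DUAL
import Pool.Agent.Helper18.MR.SEL
import Pool.Agent.Helper57.MR.SM
import Pool.Agent.Helper7.MR.VDC
import Pool.Agent.Helper70.MR.KL
import Pool.Agent.Helper89.MR.WV
import Pool.Agent.Helper45.MR.DL

/-! Row PPB: the mean square of the polynomial over `p`. -/

set_option autoImplicit false

namespace EL

open Finset Filter MeasureTheory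
open scoped Classical
open Pool.Agent.Helper40.MR (DP nit xiu)
open Pool.Agent.Helper40.MR (pla_DP_cont)

/-- the Halasz-Montgomery inequality over the primes -/
theorem ppb_HM2 : Pool.Agent.Helper40.MR.ST_HM2 :=
  Pool.Agent.Helper40.MR.st_HM2
    (Pool.Agent.Helper40.MR.st_SM (Pool.Agent.Helper40.MR.st_VDC Pool.Agent.Helper40.MR.st_KL
      Pool.Agent.Helper40.MR.st_WV Pool.Agent.Helper40.MR.st_DL))
    Pool.Agent.Helper40.MR.st_DUAL Pool.Agent.Helper40.MR.st_SEL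

/-- the index of the dyadic-type piece of `p` -/
noncomputable def ppbJ (Y : ℝ) (p : ℕ) : ℕ := ⌈Real.log ((p : ℝ) / Y)⌉₊ - 1

theorem ppb_piece {Y : ℝ} (hY : 0 < Y) {p j : ℕ} (hp : Y < p) (hj : ppbJ Y p = j) :
    Y * Real.exp j < p ∧ (p : ℝ) ≤ Real.exp 1 * (Y * Real.exp j) := by
  have hp0 : (0 : ℝ) < p := hY.trans hp
  have h1 : 1 < (p : ℝ) / Y := (one_lt_div hY).2 hp
  have h2 : 0 < Real.log ((p : ℝ) / Y) := Real.log_pos h1
  have h3 : 0 < ⌈Real.log ((p : ℝ) / Y)⌉₊ := Nat.ceil_pos.2 h2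
  have h4 : ⌈Real.log ((p : ℝ) / Y)⌉₊ = j + 1 := by
    unfold ppbJ at hj
    omega
  have h5 : Real.log ((p : ℝ) / Y) ≤ j + 1 := by
    have := Nat.le_ceil (Real.log ((p : ℝ) / Y))
    rw [h4] at this
    exact_mod_cast this
  have h6 : (j : ℝ) < Real.log ((p : ℝ) / Y) := by
    have : j < ⌈Real.log ((p : ℝ) / Y)⌉₊ := by omega
    exact Nat.lt_ceil.1 this
  constructor
  · have := Real.exp_lt_exp.2 h6
    rw [Real.exp_log (by positivity), lt_div_iff₀ hY] at this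
    linarith
  · have := Real.exp_le_exp.2 h5
    rw [Real.exp_log (by positivity), div_le_iff₀ hY, Real.exp_add] at this
    linarith

theorem ppb_split (s : Finset ℕ) (Y : ℝ) (J : ℕ) (hJ : ∀ p ∈ s, ppbJ Y p ∈ range J) (t : ℝ) :
    ‖DP s (fun _ => 1) t‖ ^ 2
      ≤ J * ∑ j ∈ range J, ‖DP (s.filter (fun p => ppbJ Y p = j)) (fun _ => 1) t‖ ^ 2 := by
  have h1 : DP s (fun _ => 1) t
      = ∑ j ∈ range J, DP (s.filter (fun p => ppbJ Y p = j)) (fun _ => 1) t := by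
    unfold DP
    exact (Finset.sum_fiberwise_of_maps_to hJ _).symm
  rw [h1]
  have h2 : ‖∑ j ∈ range J, DP (s.filter (fun p => ppbJ Y p = j)) (fun _ => 1) t‖ ^ 2
      ≤ (∑ j ∈ range J, ‖DP (s.filter (fun p => ppbJ Y p = j)) (fun _ => 1) t‖) ^ 2 :=
    pow_le_pow_left₀ (norm_nonneg _) (norm_sum_le _ _) 2
  refine h2.trans ?_
  have := sq_sum_le_card_mul_sum_sq (s := range J)
    (f := fun j => ‖DP (s.filter (fun p => ppbJ Y p = j)) (fun _ => 1) t‖)
  simpa using this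

theorem ppb : ∃ c₃ C X₀ : ℝ, 0 < c₃ ∧ 0 < C ∧ 2 ≤ X₀ ∧ ∀ X V : ℝ, X₀ ≤ X → 2 ≤ V →
    V ≤ X ^ (1 / 10 : ℝ) →
    ∫ t in (-(X ^ c₃))..(X ^ c₃), ‖DP (QQ X V) (fun _ => 1) t‖ ^ 2
      ≤ C * (Real.log V) ^ 2 / (Real.log X) ^ 2 := by
  obtain ⟨c, hc, C, hC, H⟩ := ppb_HM2 1 le_rfl
  set c₃ : ℝ := min (1 / 2) (c / 2) with hc₃
  have hc₃0 : 0 < c₃ := lt_min (by norm_num) (by linarith)
  have hc₃1 : c₃ ≤ 1 / 2 := min_le_left _ _
  have hc₃2 : c₃ ≤ c / 2 := min_le_right _ _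
  -- the threshold
  have hev : ∀ᶠ X : ℝ in atTop, Real.log X ^ (2 : ℝ) ≤ X ^ (2 / 5 * c) := by
    have := (isLittleO_log_rpow_rpow_atTop (2 : ℝ) (show 0 < 2 / 5 * c by positivity)).bound
      (show (0 : ℝ) < 1 by norm_num)
    filter_upwards [this, eventually_ge_atTop (1 : ℝ)] with X hX hX1
    rw [one_mul, Real.norm_of_nonneg (Real.rpow_nonneg (Real.log_nonneg hX1) _),
      Real.norm_of_nonneg (Real.rpow_nonneg (by linarith) _)] at hX
    exact hX
  obtain ⟨X₁, hX₁⟩ := eventually_atTop.1 hev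
  refine ⟨c₃, 100 * C, max 4 X₁, hc₃0, by positivity, le_trans (by norm_num) (le_max_left _ _),
    fun X V hX hV hVX => ?_⟩
  have hX4 : 4 ≤ X := (le_max_left _ _).trans hX
  have hX0 : 0 < X := by linarith
  have hX1 : 1 ≤ X := by linarith
  have hV0 : 0 < V := by linarith
  have hlX : 0 < Real.log X := Real.log_pos (by linarith)
  have hlV : 0.69 < Real.log V := by
    have h1 := Real.log_two_gt_d9
    have h2 : Real.log 2 ≤ Real.log V := Real.log_le_log (by norm_num) hV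
    linarith
  have hlog : Real.log X ^ (2 : ℕ) ≤ X ^ (2 / 5 * c) := by
    have := hX₁ X ((le_max_right _ _).trans hX)
    rwa [← Real.rpow_natCast]
  -- the base point
  set Y : ℝ := X / V ^ (2 / 5 : ℝ) with hYd
  have hV4 : 0 < V ^ (2 / 5 : ℝ) := Real.rpow_pos_of_pos hV0 _
  have hV3 : 0 < V ^ (3 / 10 : ℝ) := Real.rpow_pos_of_pos hV0 _
  have hY0 : 0 < Y := by positivity
  have hY : X ^ (9 / 10 : ℝ) ≤ Y := by
    rw [hYd, le_div_iff₀ hV4]
    have h1 : V ^ (2 / 5 : ℝ) ≤ X ^ (1 / 10 : ℝ) := by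
      calc V ^ (2 / 5 : ℝ) ≤ V ^ (1 : ℝ) :=
            Real.rpow_le_rpow_of_exponent_le (by linarith) (by norm_num)
        _ = V := Real.rpow_one V
        _ ≤ _ := hVX
    calc X ^ (9 / 10 : ℝ) * V ^ (2 / 5 : ℝ) ≤ X ^ (9 / 10 : ℝ) * X ^ (1 / 10 : ℝ) :=
          mul_le_mul_of_nonneg_left h1 (by positivity)
      _ = X := by
          rw [← Real.rpow_add hX0]
          norm_num
  have hX92 : 2 ≤ X ^ (9 / 10 : ℝ) := by
    calc (2 : ℝ) = (4 : ℝ) ^ (1 / 2 : ℝ) := by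
          rw [show (4 : ℝ) = 2 ^ (2 : ℝ) by norm_num, ← Real.rpow_mul (by norm_num)]
          norm_num
      _ ≤ X ^ (1 / 2 : ℝ) := Real.rpow_le_rpow (by norm_num) hX4 (by norm_num)
      _ ≤ _ := Real.rpow_le_rpow_of_exponent_le hX1 (by norm_num)
  -- the number of pieces
  have hlogY : ∀ p ∈ QQ X V, Y < p ∧ Real.log ((p : ℝ) / Y) ≤ Real.log 8 + Real.log V / 10 := by
    intro p hp
    unfold QQ at hp
    rw [mem_filter, mem_Ioc] at hp
    have h1 : Y < p := by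
      have := Nat.lt_of_floor_lt hp.1.1
      exact this
    refine ⟨h1, ?_⟩
    have h2 : (p : ℝ) ≤ 8 * X / V ^ (3 / 10 : ℝ) :=
      (Nat.le_floor_iff (by positivity)).1 hp.1.2
    have h3 : (p : ℝ) / Y ≤ 8 * V ^ (1 / 10 : ℝ) := by
      rw [div_le_iff₀ hY0]
      refine h2.trans (le_of_eq ?_)
      rw [hYd]
      have e : V ^ (2 / 5 : ℝ) = V ^ (1 / 10 : ℝ) * V ^ (3 / 10 : ℝ) := by
        rw [← Real.rpow_add hV0]
        norm_num
      rw [e]
      have : 0 < V ^ (1 / 10 : ℝ) := Real.rpow_pos_of_pos hV0 _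
      field_simp
    have h4 : 0 < (p : ℝ) / Y := div_pos (hY0.trans h1) hY0
    calc Real.log ((p : ℝ) / Y) ≤ Real.log (8 * V ^ (1 / 10 : ℝ)) := Real.log_le_log h4 h3
      _ = Real.log 8 + Real.log V / 10 := by
          rw [Real.log_mul (by norm_num) (Real.rpow_pos_of_pos hV0 _).ne',
            Real.log_rpow hV0]
          ring
  have hlog8 : Real.log 8 ≤ 2.08 := by
    have : Real.log 8 = 3 * Real.log 2 := by
      rw [show (8 : ℝ) = 2 ^ (3 : ℕ) by norm_num, Real.log_pow]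
      norm_num
    rw [this]
    have := Real.log_two_lt_d9
    linarith
  set K : ℕ := ⌈Real.log 8 + Real.log V / 10⌉₊ with hKd
  have hlog8p : 0 < Real.log 8 := Real.log_pos (by norm_num)
  have hK0 : 0 < Real.log 8 + Real.log V / 10 := by positivity
  have hK : (K : ℝ) ≤ 5 * Real.log V := by
    have := Nat.ceil_lt_add_one hK0.le
    rw [← hKd] at this
    linarith
  have hJ : ∀ p ∈ QQ X V, ppbJ Y p ∈ range K := by
    intro p hp
    obtain ⟨h1, h2⟩ := hlogY p hp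
    have h3 : 1 < (p : ℝ) / Y := (one_lt_div hY0).2 h1
    have h4 : 0 < Real.log ((p : ℝ) / Y) := Real.log_pos h3
    have h5 : 0 < ⌈Real.log ((p : ℝ) / Y)⌉₊ := Nat.ceil_pos.2 h4
    have h6 : ⌈Real.log ((p : ℝ) / Y)⌉₊ ≤ K := Nat.ceil_le_ceil h2
    rw [mem_range]
    unfold ppbJ
    omega
  -- the interval
  have hXc : 0 < X ^ c₃ := Real.rpow_pos_of_pos hX0 _
  have hle : -(X ^ c₃) ≤ X ^ c₃ := by linarith
  have hXcY : X ^ c₃ ≤ X ^ (9 / 10 : ℝ) :=
    Real.rpow_le_rpow_of_exponent_le hX1 (by linarith)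
  -- one piece
  have hone : ∀ j ∈ range K, ∫ t in (-(X ^ c₃))..(X ^ c₃),
      ‖DP ((QQ X V).filter (fun p => ppbJ Y p = j)) (fun _ => 1) t‖ ^ 2
      ≤ 4 * C / (Real.log X) ^ 2 := by
    intro j _
    have hej : 1 ≤ Real.exp (j : ℝ) := Real.one_le_exp (by positivity)
    have hYj : Y ≤ Y * Real.exp j := le_mul_of_one_le_right hY0.le hej
    have hYX : X ^ (9 / 10 : ℝ) ≤ Y * Real.exp j := hY.trans hYj
    have hYj0 : 0 < Y * Real.exp j := by positivity
    have h1 := H (Y * Real.exp j) ((QQ X V).filter (fun p => ppbJ Y p = j)) (fun _ => 1)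
      (Set.Ioc (-(X ^ c₃)) (X ^ c₃)) (hX92.trans hYX)
      (by
        intro p hp
        rw [mem_filter] at hp
        have h2 := ppb_piece hY0 (hlogY p hp.1).1 hp.2
        refine ⟨?_, h2.1, h2.2⟩
        have := hp.1
        unfold QQ at this
        exact (mem_filter.1 this).2)
      (by intro n; simp) measurableSet_Ioc
      (by
        rw [Real.rpow_one]
        intro t ht
        exact ⟨by linarith [ht.1], by linarith [ht.2]⟩)
    rw [intervalIntegral.integral_of_le hle]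
    refine h1.trans ?_
    have hvol : (volume (Set.Ioc (-(X ^ c₃)) (X ^ c₃))).toReal = 2 * X ^ c₃ := by
      rw [Real.volume_Ioc, ENNReal.toReal_ofReal (by linarith)]
      ring
    rw [hvol]
    have h3 : 9 / 10 * Real.log X ≤ Real.log (Y * Real.exp j) := by
      rw [← Real.log_rpow hX0]
      exact Real.log_le_log (Real.rpow_pos_of_pos hX0 _) hYX
    have h4 : C / (Real.log (Y * Real.exp j)) ^ 2 ≤ 2 * C / (Real.log X) ^ 2 := by
      have h5 : C / (Real.log (Y * Real.exp j)) ^ 2 ≤ C / (9 / 10 * Real.log X) ^ 2 := by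
        have : 0 < 9 / 10 * Real.log X := by positivity
        gcongr
      refine h5.trans ?_
      rw [div_le_div_iff₀ (by positivity) (by positivity)]
      nlinarith [mul_pos hC (pow_pos hlX 2)]
    have h5 : (Y * Real.exp j) ^ (-c) ≤ X ^ (-(9 / 10) * c) := by
      calc (Y * Real.exp j) ^ (-c) ≤ (X ^ (9 / 10 : ℝ)) ^ (-c) :=
            Real.rpow_le_rpow_of_nonpos (Real.rpow_pos_of_pos hX0 _) hYX (by linarith)
        _ = _ := by
            rw [← Real.rpow_mul hX0.le]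
            congr 1
            ring
    have h6 : X ^ c₃ * (Y * Real.exp j) ^ (-c) ≤ 1 / (Real.log X) ^ 2 := by
      calc X ^ c₃ * (Y * Real.exp j) ^ (-c) ≤ X ^ c₃ * X ^ (-(9 / 10) * c) :=
            mul_le_mul_of_nonneg_left h5 hXc.le
        _ = X ^ (c₃ + (-(9 / 10) * c)) := (Real.rpow_add hX0 _ _).symm
        _ ≤ X ^ (-(2 / 5 * c)) := Real.rpow_le_rpow_of_exponent_le hX1 (by linarith)
        _ = (X ^ (2 / 5 * c))⁻¹ := Real.rpow_neg hX0.le _
        _ ≤ ((Real.log X) ^ 2)⁻¹ := inv_anti₀ (by positivity) hlog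
        _ = _ := (one_div _).symm
    have h7 : C * (2 * X ^ c₃) * (Y * Real.exp j) ^ (-c) ≤ 2 * C / (Real.log X) ^ 2 := by
      calc C * (2 * X ^ c₃) * (Y * Real.exp j) ^ (-c)
          = 2 * C * (X ^ c₃ * (Y * Real.exp j) ^ (-c)) := by ring
        _ ≤ 2 * C * (1 / (Real.log X) ^ 2) := mul_le_mul_of_nonneg_left h6 (by positivity)
        _ = _ := by ring
    calc _ ≤ 2 * C / (Real.log X) ^ 2 + 2 * C / (Real.log X) ^ 2 := add_le_add h4 h7
      _ = _ := by ring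
  -- the sum
  have hcont : ∀ s : Finset ℕ, Continuous (fun t : ℝ => ‖DP s (fun _ => 1) t‖ ^ 2) := fun s =>
    (pla_DP_cont s _).norm.pow 2
  have hsum : ∫ t in (-(X ^ c₃))..(X ^ c₃), ‖DP (QQ X V) (fun _ => 1) t‖ ^ 2
      ≤ ∫ t in (-(X ^ c₃))..(X ^ c₃), (K : ℝ) * ∑ j ∈ range K,
        ‖DP ((QQ X V).filter (fun p => ppbJ Y p = j)) (fun _ => 1) t‖ ^ 2 := by
    refine intervalIntegral.integral_mono_on hle ((hcont _).intervalIntegrable _ _)
      ((continuous_const.mul (continuous_finsetSum _ fun j _ => hcont _)).intervalIntegrable _ _)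
      fun t _ => ppb_split _ Y K hJ t
  refine hsum.trans ?_
  rw [intervalIntegral.integral_const_mul, intervalIntegral.integral_finsetSum
    (fun j _ => (hcont _).intervalIntegrable _ _)]
  have hsum2 : ∑ j ∈ range K, ∫ t in (-(X ^ c₃))..(X ^ c₃),
      ‖DP ((QQ X V).filter (fun p => ppbJ Y p = j)) (fun _ => 1) t‖ ^ 2
      ≤ K * (4 * C / (Real.log X) ^ 2) := by
    refine (Finset.sum_le_sum hone).trans (le_of_eq ?_)
    rw [Finset.sum_const, card_range, nsmul_eq_mul]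
  have hKK : (K : ℝ) * K ≤ (5 * Real.log V) * (5 * Real.log V) :=
    mul_le_mul hK hK (by positivity) (by linarith)
  calc (K : ℝ) * ∑ j ∈ range K, ∫ t in (-(X ^ c₃))..(X ^ c₃),
      ‖DP ((QQ X V).filter (fun p => ppbJ Y p = j)) (fun _ => 1) t‖ ^ 2
      ≤ K * (K * (4 * C / (Real.log X) ^ 2)) := mul_le_mul_of_nonneg_left hsum2 (by positivity)
    _ = (K : ℝ) * K * (4 * C / (Real.log X) ^ 2) := by ring
    _ ≤ (5 * Real.log V) * (5 * Real.log V) * (4 * C / (Real.log X) ^ 2) :=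
        mul_le_mul_of_nonneg_right hKK (by positivity)
    _ = _ := by ring

end EL
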