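import Pool.Agent.Helper85.EL.VAW
import Pool.Agent.Helper85.EL.Plb
import Pool.Agent.Helper85.EL.Mmb
import Pool.Agent.Helper85.EL.Ppb

/-! Long blocks: the variance, final form. -/

set_option autoImplicit false

namespace EL

open Finset Filter MeasureTheory
open scoped Classical

theorem vaw : ∃ c ε C V₀ X₀ : ℝ, 0 < c ∧ 0 < ε ∧ 0 < C ∧ 2 ≤ V₀ ∧ 2 ≤ X₀ ∧ ∀ X V : ℝ,
    X₀ ≤ X → V₀ ≤ V → V ≤ X ^ ε →
    Integrable (fun u : ℝ => (FW X V u (1 / V)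
      - V ^ (-(9 / 10) : ℝ) * FW X V u (V ^ (-(1 / 10) : ℝ))) ^ 2 * Real.exp (-(2 * u))) ∧
    ∫ u : ℝ, (FW X V u (1 / V)
      - V ^ (-(9 / 10) : ℝ) * FW X V u (V ^ (-(1 / 10) : ℝ))) ^ 2 * Real.exp (-(2 * u))
      ≤ C * V ^ (-2 - c) / (Real.log X) ^ 2 := vaw_of plb mmb ppb

end EL
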