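import Pool.Agent.Helper85.EL.Defs
import Pool.Agent.Helper85.EL.Vaw2
import Pool.Agent.Helper85.EL.Low

/-! Long blocks: measure of the bad `u`. -/

set_option autoImplicit false

namespace EL

open Finset Filter MeasureTheory
open scoped Classical

theorem bad : ∃ c ε C V₀ X₀ : ℝ, 0 < c ∧ 0 < ε ∧ ε ≤ 1 / 20 ∧ 0 < C ∧ 2 ≤ V₀ ∧ 2 ≤ X₀ ∧
    ∀ X V : ℝ, X₀ ≤ X → V₀ ≤ V → V ≤ X ^ ε →
    volume {u : ℝ | Real.log X ≤ u ∧ u ≤ Real.log (4 * X) ∧
      FW X V u (1 / V) < 1 / 200 * Real.exp u * Real.log V / (V * Real.log X)}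
      ≤ ENNReal.ofReal (C * V ^ (-c)) := by
  obtain ⟨c, ε, C, V₁, X₁, hc, hε, hC, hV₁, hX₁, h1⟩ := vaw
  obtain ⟨V₂, X₂, hV₂, hX₂, h2⟩ := low
  refine ⟨c, min ε (1 / 20), C * 40000 / (Real.log 2) ^ 2, max V₁ V₂, max X₁ X₂, hc, by positivity,
    min_le_right _ _, by positivity, hV₁.trans (le_max_left _ _), hX₁.trans (le_max_left _ _), ?_⟩
  intro X V hX hV hVX
  have hX1 : X₁ ≤ X := (le_max_left _ _).trans hX
  have hX2 : X₂ ≤ X := (le_max_right _ _).trans hX
  have hV1 : V₁ ≤ V := (le_max_left _ _).trans hV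
  have hV2 : V₂ ≤ V := (le_max_right _ _).trans hV
  have hX0 : 2 ≤ X := hX₁.trans hX1
  have hV0 : 2 ≤ V := hV₁.trans hV1
  have hVe : V ≤ X ^ ε := hVX.trans
    (Real.rpow_le_rpow_of_exponent_le (by linarith) (min_le_left _ _))
  have hVt : V ≤ X ^ (1 / 10 : ℝ) := hVX.trans
    (Real.rpow_le_rpow_of_exponent_le (by linarith) ((min_le_right _ _).trans (by norm_num)))
  obtain ⟨hI, hb⟩ := h1 X V hX1 hV1 hVe
  have hL : 0 < Real.log X := Real.log_pos (by linarith)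
  have hl2 : 0 < Real.log 2 := Real.log_pos (by norm_num)
  have hlV : Real.log 2 ≤ Real.log V := Real.log_le_log (by norm_num) hV0
  set F : ℝ → ℝ := fun u : ℝ => (FW X V u (1 / V)
      - V ^ (-(9 / 10) : ℝ) * FW X V u (V ^ (-(1 / 10) : ℝ))) ^ 2 * Real.exp (-(2 * u)) with hF
  set τ : ℝ := (1 / 200 * Real.log V / (V * Real.log X)) ^ 2 with hτ
  have hVp : 0 < V := by linarith
  have hlVp : 0 < Real.log V := by linarith
  have hτ0 : 0 < τ := by positivity
  have hF0 : ∀ u, 0 ≤ F u := fun u => by positivity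
  have hmk := mul_meas_ge_le_integral_of_nonneg (Eventually.of_forall hF0) hI τ
  -- the bad set
  have hsub : {u : ℝ | Real.log X ≤ u ∧ u ≤ Real.log (4 * X) ∧
      FW X V u (1 / V) < 1 / 200 * Real.exp u * Real.log V / (V * Real.log X)} ⊆
      {u | τ ≤ F u} := by
    rintro u ⟨hu1, hu2, hu3⟩
    have h3 := h2 X V u hX2 hV2 hVt hu1 hu2
    have h4 : V ^ (-(9 / 10) : ℝ) * V ^ (-(1 / 10) : ℝ) = 1 / V := by
      rw [← Real.rpow_add hVp]
      norm_num
      rw [Real.rpow_neg_one]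
    have h5 : 0 < V ^ (-(9 / 10) : ℝ) := Real.rpow_pos_of_pos hVp _
    have h6 := mul_le_mul_of_nonneg_left h3 h5.le
    have h7 : V ^ (-(9 / 10) : ℝ) * (1 / 100 * V ^ (-(1 / 10) : ℝ) * Real.exp u * Real.log V /
      Real.log X) = 1 / 100 * Real.exp u * Real.log V / (V * Real.log X) := by
      rw [show V ^ (-(9 / 10) : ℝ) * (1 / 100 * V ^ (-(1 / 10) : ℝ) * Real.exp u * Real.log V /
        Real.log X) = (V ^ (-(9 / 10) : ℝ) * V ^ (-(1 / 10) : ℝ)) *
          (1 / 100 * Real.exp u * Real.log V / Real.log X) by ring, h4]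
      field_simp
    rw [h7] at h6
    have h8 : 1 / 200 * Real.exp u * Real.log V / (V * Real.log X) ≤
        V ^ (-(9 / 10) : ℝ) * FW X V u (V ^ (-(1 / 10) : ℝ)) - FW X V u (1 / V) := by
      have h9 : 1 / 100 * Real.exp u * Real.log V / (V * Real.log X) =
        1 / 200 * Real.exp u * Real.log V / (V * Real.log X) +
        1 / 200 * Real.exp u * Real.log V / (V * Real.log X) := by ring
      linarith
    have h10 : 0 ≤ 1 / 200 * Real.exp u * Real.log V / (V * Real.log X) := by positivity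
    have h11 := pow_le_pow_left₀ h10 h8 2
    show τ ≤ F u
    rw [hF]
    simp only
    have h12 : (FW X V u (1 / V) - V ^ (-(9 / 10) : ℝ) * FW X V u (V ^ (-(1 / 10) : ℝ))) ^ 2 =
      (V ^ (-(9 / 10) : ℝ) * FW X V u (V ^ (-(1 / 10) : ℝ)) - FW X V u (1 / V)) ^ 2 := by ring
    rw [h12]
    have h13 := mul_le_mul_of_nonneg_right h11 (Real.exp_pos (-(2 * u))).le
    refine le_trans (le_of_eq ?_) h13
    rw [hτ]
    have h14 : Real.exp u ^ 2 * Real.exp (-(2 * u)) = 1 := by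
      rw [← Real.exp_nat_mul, ← Real.exp_add]
      norm_num
    calc (1 / 200 * Real.log V / (V * Real.log X)) ^ 2 =
        (1 / 200 * Real.log V / (V * Real.log X)) ^ 2 * (Real.exp u ^ 2 * Real.exp (-(2 * u))) := by
          rw [h14, mul_one]
      _ = _ := by ring
  have hne : volume {u | τ ≤ F u} ≠ ⊤ := by
    have := (hI.measure_ge_lt_top (ε := τ) hτ0)
    exact this.ne
  refine (measure_mono hsub).trans ?_
  rw [← ENNReal.ofReal_toReal hne]
  apply ENNReal.ofReal_le_ofReal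
  have hmk' : τ * (volume {u | τ ≤ F u}).toReal ≤ C * V ^ (-2 - c) / (Real.log X) ^ 2 := by
    refine le_trans ?_ hb
    exact hmk
  have h15 : V ^ (-2 - c) = V ^ (-c) / V ^ 2 := by
    rw [show (-2 - c : ℝ) = -c - 2 by ring, Real.rpow_sub hVp]
    norm_num
  rw [h15] at hmk'
  have h16 : (volume {u | τ ≤ F u}).toReal ≤ C * (V ^ (-c) / V ^ 2) / (Real.log X) ^ 2 / τ := by
    rw [le_div_iff₀ hτ0]; linarith
  refine h16.trans ?_
  rw [hτ]
  have h17 : 0 < V ^ (-c) := Real.rpow_pos_of_pos hVp _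
  rw [show C * (V ^ (-c) / V ^ 2) / (Real.log X) ^ 2 / (1 / 200 * Real.log V / (V * Real.log X)) ^ 2
    = C * 40000 * V ^ (-c) / (Real.log V) ^ 2 by field_simp; ring]
  rw [show C * 40000 / (Real.log 2) ^ 2 * V ^ (-c) = C * 40000 * V ^ (-c) / (Real.log 2) ^ 2 by ring]
  gcongr

end EL
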