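import Pool.Agent.Helper85.EL.Defs
import Pool.Agent.Helper85.EL.BTU

/-! Long blocks: the pairs with `b ∣ m`. -/

set_option autoImplicit false

namespace EL

open Finset Filter MeasureTheory
open scoped Classical

theorem bup_harm (N : ℕ) : ∑ m ∈ Icc 1 N, (1 : ℝ) / m ≤ 1 + Real.log N := by
  have h := harmonic_le_one_add_log N
  have h2 : ((harmonic N : ℚ) : ℝ) = ∑ m ∈ Icc 1 N, (1 : ℝ) / m := by
    rw [harmonic_eq_sum_Icc]
    push_cast
    simp only [one_div]
  rw [h2] at h
  exact h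

theorem bup_exp {t : ℝ} (h0 : 0 ≤ t) (h1 : t ≤ 1) : Real.exp t ≤ 1 + 2 * t := by
  have h := Real.abs_exp_sub_one_sub_id_le (x := t) (by rw [abs_of_nonneg h0]; exact h1)
  have h2 := le_abs_self (Real.exp t - 1 - t)
  nlinarith

theorem bup : ∃ C V₀ X₀ : ℝ, 0 < C ∧ 2 ≤ V₀ ∧ 2 ≤ X₀ ∧ ∀ (X V u : ℝ) (b : ℕ), X₀ ≤ X → V₀ ≤ V →
    V ≤ X ^ (1 / 10 : ℝ) → Real.log X ≤ u → u ≤ Real.log (4 * X) → 1 ≤ b →
    (((PW X V u (2 / V)).filter (fun z => b ∣ z.1)).card : ℝ)
      ≤ C * Real.exp u * Real.log V / (V * b * Real.log X) := by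
  obtain ⟨C, hC, hbt⟩ := btu
  refine ⟨16 * C, 3, 16, by positivity, by norm_num, by norm_num, ?_⟩
  intro X V u b hX hV hVX hu1 hu2 hb
  have hXp : 0 < X := by linarith
  have hVp : 0 < V := by linarith
  have hL : 0 < Real.log X := Real.log_pos (by linarith)
  have hlV : 1 ≤ Real.log V := by
    rw [Real.le_log_iff_exp_le hVp]
    have := Real.exp_one_lt_d9
    linarith
  have hb' : (1 : ℝ) ≤ b := by exact_mod_cast hb
  set x : ℝ := Real.exp u with hx
  have hxX : X ≤ x := by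
    rw [← Real.exp_log hXp]
    exact Real.exp_le_exp.2 hu1
  have hxp : 0 < x := by linarith
  -- the primes for a given `m`
  let P : ℕ → Finset ℕ := fun m =>
    (Ioc ⌊x / m⌋₊ ⌊x / m + 4 * x / (V * m)⌋₊).filter Nat.Prime
  have hsub : (PW X V u (2 / V)).filter (fun z => b ∣ z.1) ⊆
      ((MM V).filter (fun m => b ∣ m)).biUnion (fun m => (P m).image (fun p => (m, p))) := by
    rintro ⟨m, p⟩ hz
    rw [mem_filter, PW, mem_filter, mem_product] at hz
    obtain ⟨⟨⟨hm, hp⟩, h1, h2⟩, hbm⟩ := hz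
    simp only at hm hp h1 h2 hbm
    rw [mem_biUnion]
    refine ⟨m, mem_filter.2 ⟨hm, hbm⟩, ?_⟩
    rw [mem_image]
    refine ⟨p, ?_, rfl⟩
    have hm0 : 0 < m := by
      rw [MM, mem_Ioc] at hm
      omega
    have hpp : p.Prime := (mem_filter.1 hp).2
    have hm' : (0 : ℝ) < m := by exact_mod_cast hm0
    have hp' : (0 : ℝ) < p := by exact_mod_cast hpp.pos
    have h3 : x < m * p := by
      rw [← Real.exp_log (mul_pos hm' hp')]
      exact Real.exp_lt_exp.2 h1
    have h4 : (m : ℝ) * p ≤ x * Real.exp (2 / V) := by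
      rw [← Real.exp_log (mul_pos hm' hp'), hx, ← Real.exp_add]
      exact Real.exp_le_exp.2 h2
    have h5 : Real.exp (2 / V) ≤ 1 + 2 * (2 / V) :=
      bup_exp (by positivity) (by rw [div_le_one hVp]; linarith)
    have h6 : (m : ℝ) * p ≤ x + 4 * x / V := by
      refine h4.trans ((mul_le_mul_of_nonneg_left h5 hxp.le).trans (le_of_eq ?_))
      ring
    rw [mem_filter, mem_Ioc]
    refine ⟨⟨?_, ?_⟩, hpp⟩
    · rw [Nat.floor_lt (by positivity), div_lt_iff₀ hm']
      linarith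
    · apply Nat.le_floor
      rw [show x / m + 4 * x / (V * m) = (x + 4 * x / V) / m by field_simp, le_div_iff₀ hm']
      linarith
  have hcard : ((((PW X V u (2 / V)).filter (fun z => b ∣ z.1)).card : ℕ) : ℝ) ≤
      ∑ m ∈ (MM V).filter (fun m => b ∣ m), ((P m).card : ℝ) := by
    have h1 := (Finset.card_le_card hsub).trans Finset.card_biUnion_le
    have h2 : ∑ m ∈ (MM V).filter (fun m => b ∣ m), ((P m).image (fun p => (m, p))).card ≤
        ∑ m ∈ (MM V).filter (fun m => b ∣ m), (P m).card :=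
      Finset.sum_le_sum fun m _ => Finset.card_image_le
    have h3 := h1.trans h2
    calc ((((PW X V u (2 / V)).filter (fun z => b ∣ z.1)).card : ℕ) : ℝ) ≤
        ((∑ m ∈ (MM V).filter (fun m => b ∣ m), (P m).card : ℕ) : ℝ) := by exact_mod_cast h3
      _ = _ := by push_cast; rfl
  -- Brun-Titchmarsh
  have hVle : V ^ (2 / 5 : ℝ) * V ≤ X ^ (7 / 50 : ℝ) := by
    have h1 : V ^ (2 / 5 : ℝ) * V = V ^ (7 / 5 : ℝ) := by
      nth_rewrite 2 [← Real.rpow_one V]
      rw [← Real.rpow_add hVp]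
      norm_num
    rw [h1]
    calc V ^ (7 / 5 : ℝ) ≤ (X ^ (1 / 10 : ℝ)) ^ (7 / 5 : ℝ) :=
          Real.rpow_le_rpow hVp.le hVX (by norm_num)
      _ = X ^ (7 / 50 : ℝ) := by
          rw [← Real.rpow_mul hXp.le]; norm_num
  have hterm : ∀ m ∈ (MM V).filter (fun m => b ∣ m),
      ((P m).card : ℝ) ≤ 8 * C * x / (V * Real.log X) * (1 / m) := by
    intro m hm
    rw [mem_filter, MM, mem_Ioc] at hm
    have hm0 : 0 < m := by omega
    have hm' : (0 : ℝ) < m := by exact_mod_cast hm0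
    have hmV : (m : ℝ) ≤ V ^ (2 / 5 : ℝ) := by
      have h1 : (m : ℝ) ≤ (⌊V ^ (2 / 5 : ℝ)⌋₊ : ℝ) := by exact_mod_cast hm.1.2
      exact h1.trans (Nat.floor_le (Real.rpow_nonneg hVp.le _))
    set z : ℝ := 4 * x / (V * m) with hz
    have hz1 : X ^ (1 / 2 : ℝ) ≤ z := by
      rw [hz, le_div_iff₀ (by positivity)]
      have h1 : V * m ≤ X ^ (7 / 50 : ℝ) := by
        refine le_trans ?_ hVle
        rw [mul_comm]
        exact mul_le_mul_of_nonneg_right hmV hVp.le
      calc X ^ (1 / 2 : ℝ) * (V * m) ≤ X ^ (1 / 2 : ℝ) * X ^ (7 / 50 : ℝ) :=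
            mul_le_mul_of_nonneg_left h1 (Real.rpow_nonneg hXp.le _)
        _ = X ^ (32 / 50 : ℝ) := by rw [← Real.rpow_add hXp]; norm_num
        _ ≤ X ^ (1 : ℝ) := Real.rpow_le_rpow_of_exponent_le (by linarith) (by norm_num)
        _ = X := Real.rpow_one X
        _ ≤ 4 * x := by linarith
    have hz4 : 4 ≤ z := by
      refine le_trans ?_ hz1
      calc (4 : ℝ) = (16 : ℝ) ^ (1 / 2 : ℝ) := by
            rw [show (16 : ℝ) = 4 ^ (2 : ℝ) by norm_num, ← Real.rpow_mul (by norm_num)]; norm_num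
        _ ≤ X ^ (1 / 2 : ℝ) := Real.rpow_le_rpow (by norm_num) hX (by norm_num)
    have hlz : Real.log X / 2 ≤ Real.log z := by
      have h1 := Real.log_le_log (Real.rpow_pos_of_pos hXp _) hz1
      rw [Real.log_rpow hXp] at h1
      linarith
    have h2 := hbt (x / m) z (by positivity) (by linarith)
    refine h2.trans ?_
    calc C * z / Real.log z ≤ C * z / (Real.log X / 2) := by
          apply div_le_div_of_nonneg_left (by positivity) (by positivity) hlz
      _ = 8 * C * x / (V * Real.log X) * (1 / m) := by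
          rw [hz]; field_simp; ring
  -- the sum over `m`
  have hsum : ∑ m ∈ (MM V).filter (fun m => b ∣ m), (1 : ℝ) / m ≤ 2 * Real.log V / b := by
    set N : ℕ := ⌊V ^ (2 / 5 : ℝ)⌋₊ with hN
    have hsub2 : (MM V).filter (fun m => b ∣ m) ⊆ (Icc 1 N).image (fun m => b * m) := by
      intro m hm
      rw [mem_filter, MM, mem_Ioc] at hm
      obtain ⟨⟨h1, h2⟩, k, hk⟩ := hm
      rw [mem_image]
      refine ⟨k, ?_, hk.symm⟩
      rw [mem_Icc]
      constructor
      · by_contra hcon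
        have : k = 0 := by omega
        rw [this] at hk
        omega
      · calc k = 1 * k := (one_mul k).symm
          _ ≤ b * k := Nat.mul_le_mul_right k hb
          _ = m := hk.symm
          _ ≤ N := h2
    have h1 : ∑ m ∈ (MM V).filter (fun m => b ∣ m), (1 : ℝ) / m ≤
        ∑ m ∈ (Icc 1 N).image (fun m => b * m), (1 : ℝ) / m :=
      Finset.sum_le_sum_of_subset_of_nonneg hsub2 fun m _ _ => by positivity
    have h2 : ∑ m ∈ (Icc 1 N).image (fun m => b * m), (1 : ℝ) / m =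
        (1 / b) * ∑ m ∈ Icc 1 N, (1 : ℝ) / m := by
      rw [Finset.sum_image, Finset.mul_sum]
      · refine Finset.sum_congr rfl fun m _ => ?_
        push_cast
        rw [one_div_mul_one_div]
      · intro m _ m' _ h
        exact Nat.eq_of_mul_eq_mul_left (by omega) h
    rw [h2] at h1
    refine h1.trans ?_
    have h3 := bup_harm N
    have h4 : Real.log N ≤ Real.log V := by
      rcases Nat.eq_zero_or_pos N with h | h
      · rw [h]; simp; linarith
      · have hN1 : (N : ℝ) ≤ V := by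
          calc (N : ℝ) ≤ V ^ (2 / 5 : ℝ) := Nat.floor_le (Real.rpow_nonneg hVp.le _)
            _ ≤ V ^ (1 : ℝ) := Real.rpow_le_rpow_of_exponent_le (by linarith) (by norm_num)
            _ = V := Real.rpow_one V
        exact Real.log_le_log (by exact_mod_cast h) hN1
    calc (1 / (b : ℝ)) * ∑ m ∈ Icc 1 N, (1 : ℝ) / m ≤ (1 / b) * (2 * Real.log V) :=
          mul_le_mul_of_nonneg_left (by linarith) (by positivity)
      _ = 2 * Real.log V / b := by ring
  calc ((((PW X V u (2 / V)).filter (fun z => b ∣ z.1)).card : ℕ) : ℝ) ≤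
      ∑ m ∈ (MM V).filter (fun m => b ∣ m), ((P m).card : ℝ) := hcard
    _ ≤ ∑ m ∈ (MM V).filter (fun m => b ∣ m), 8 * C * x / (V * Real.log X) * (1 / m) :=
        Finset.sum_le_sum hterm
    _ = 8 * C * x / (V * Real.log X) * ∑ m ∈ (MM V).filter (fun m => b ∣ m), (1 : ℝ) / m := by
        rw [Finset.mul_sum]
    _ ≤ 8 * C * x / (V * Real.log X) * (2 * Real.log V / b) :=
        mul_le_mul_of_nonneg_left hsum (by positivity)
    _ = 16 * C * x * Real.log V / (V * b * Real.log X) := by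
        field_simp; ring

end EL
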