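import Pool.Agent.Helper85.EL.Defs

/-! Row CMB of the EL sheet (helper20). -/

set_option autoImplicit false

namespace EL

/-! ### CMB: exact ratio -/

theorem cmb {n₁ n₂ k₁ k₂ i i' j j' p p' : ℕ} (hk : k₂ ≤ k₁) (h12 : n₁ + k₁ ≤ n₂)
    (hi : 1 ≤ i) (hi1 : i ≤ k₁) (hi' : 1 ≤ i') (hi1' : i' ≤ k₁)
    (hj : 1 ≤ j) (hj1 : j ≤ k₂) (hj' : 1 ≤ j') (hj1' : j' ≤ k₂) (hp : p.Prime) (hp' : p'.Prime)
    (hne : p ≠ p') (h1 : p ∣ n₁ + i) (h2 : p' ∣ n₁ + i') (h3 : p ∣ n₂ + j) (h4 : p' ∣ n₂ + j')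
    (h5 : 3 * n₂ * k₁ ≤ p ^ 2) (h6 : 3 * n₂ * k₁ ≤ p' ^ 2) :
    (n₂ + j) * (n₁ + i') = (n₂ + j') * (n₁ + i) := by
  have hcop : IsCoprime (p : ℤ) (p' : ℤ) := by
    rw [Nat.isCoprime_iff_coprime]
    exact (Nat.coprime_primes hp hp').2 hne
  have hd1 : (p : ℤ) ∣ ((n₂ : ℤ) + j) * (n₁ + i') - ((n₂ : ℤ) + j') * (n₁ + i) := by
    apply dvd_sub
    · exact Dvd.dvd.mul_right (by exact_mod_cast h3) _
    · exact Dvd.dvd.mul_left (by exact_mod_cast h1) _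
  have hd2 : (p' : ℤ) ∣ ((n₂ : ℤ) + j) * (n₁ + i') - ((n₂ : ℤ) + j') * (n₁ + i) := by
    apply dvd_sub
    · exact Dvd.dvd.mul_left (by exact_mod_cast h2) _
    · exact Dvd.dvd.mul_right (by exact_mod_cast h4) _
  have hd : (p : ℤ) * p' ∣ ((n₂ : ℤ) + j) * (n₁ + i') - ((n₂ : ℤ) + j') * (n₁ + i) :=
    hcop.mul_dvd hd1 hd2
  have hpp : 3 * n₂ * k₁ ≤ p * p' := by
    by_contra hlt
    push Not at hlt
    have h7 : (p * p') ^ 2 < (3 * n₂ * k₁) ^ 2 := Nat.pow_lt_pow_left hlt (by norm_num)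
    have h8 : (3 * n₂ * k₁) ^ 2 ≤ (p * p') ^ 2 := by
      calc (3 * n₂ * k₁) ^ 2 = (3 * n₂ * k₁) * (3 * n₂ * k₁) := sq _
        _ ≤ p ^ 2 * p' ^ 2 := Nat.mul_le_mul h5 h6
        _ = (p * p') ^ 2 := by ring
    omega
  have hppZ : (3 : ℤ) * n₂ * k₁ ≤ (p : ℤ) * p' := by exact_mod_cast hpp
  have z1 : (1 : ℤ) ≤ i := by exact_mod_cast hi
  have z2 : (i : ℤ) ≤ k₁ := by exact_mod_cast hi1
  have z1' : (1 : ℤ) ≤ i' := by exact_mod_cast hi'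
  have z3 : (i' : ℤ) ≤ k₁ := by exact_mod_cast hi1'
  have z4 : (1 : ℤ) ≤ j := by exact_mod_cast hj
  have z5 : (j : ℤ) ≤ k₂ := by exact_mod_cast hj1
  have z6 : (1 : ℤ) ≤ j' := by exact_mod_cast hj'
  have z7 : (j' : ℤ) ≤ k₂ := by exact_mod_cast hj1'
  have z8 : (k₂ : ℤ) ≤ k₁ := by exact_mod_cast hk
  have z9 : (n₁ : ℤ) + k₁ ≤ n₂ := by exact_mod_cast h12
  have z0 : (0 : ℤ) ≤ n₁ := by positivity
  have b0 : (0 : ℤ) ≤ n₂ := by positivity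
  have a1 : (n₂ : ℤ) * (i' - i) ≤ n₂ * (k₁ - 1) :=
    mul_le_mul_of_nonneg_left (by linarith) (by linarith)
  have a2 : (n₂ : ℤ) * (i - i') ≤ n₂ * (k₁ - 1) :=
    mul_le_mul_of_nonneg_left (by linarith) (by linarith)
  have a3 : (n₁ : ℤ) * (j - j') ≤ n₁ * k₁ := mul_le_mul_of_nonneg_left (by linarith) z0
  have a4 : (n₁ : ℤ) * (j' - j) ≤ n₁ * k₁ := mul_le_mul_of_nonneg_left (by linarith) z0
  have a5 : (j : ℤ) * i' ≤ k₁ * k₁ := mul_le_mul (by linarith) z3 (by linarith) (by linarith)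
  have a6 : (j' : ℤ) * i ≤ k₁ * k₁ :=
    mul_le_mul (by linarith) (by linarith) (by linarith) (by linarith)
  have a7 : (0 : ℤ) < (j : ℤ) * i' := mul_pos (by linarith) (by linarith)
  have a8 : (0 : ℤ) < (j' : ℤ) * i := mul_pos (by linarith) (by linarith)
  have a9 : (n₁ : ℤ) * k₁ + k₁ * k₁ ≤ n₂ * k₁ := by
    have := mul_le_mul_of_nonneg_right z9 (show (0 : ℤ) ≤ k₁ by linarith)
    linarith
  have b1 : (0 : ℤ) < n₂ := by linarith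
  have b2 : (0 : ℤ) ≤ n₂ * k₁ := mul_nonneg b1.le (by linarith)
  have hid : ((n₂ : ℤ) + j) * (n₁ + i') - ((n₂ : ℤ) + j') * (n₁ + i) =
      n₂ * (i' - i) + n₁ * (j - j') + j * i' - j' * i := by ring
  have hlt : |((n₂ : ℤ) + j) * (n₁ + i') - ((n₂ : ℤ) + j') * (n₁ + i)| < (p : ℤ) * p' := by
    rw [hid, abs_lt]
    constructor
    · nlinarith
    · nlinarith
  have hΔ : ((n₂ : ℤ) + j) * (n₁ + i') - ((n₂ : ℤ) + j') * (n₁ + i) = 0 :=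
    Int.eq_zero_of_abs_lt_dvd hd hlt
  have hΔ2 : ((n₂ : ℤ) + j) * (n₁ + i') = ((n₂ : ℤ) + j') * (n₁ + i) := by linarith
  exact_mod_cast hΔ2

end EL
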