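import Mathlib
import Pool.Agent.Helper40.MR.Defs

/-! Long blocks (MP_b6eca7_nt): definitions. -/

set_option autoImplicit false

namespace EL

open Finset

/-- The range of the small factor `m`. -/
noncomputable def MM (V : ℝ) : Finset ℕ := Ioc ⌊V ^ (3 / 10 : ℝ)⌋₊ ⌊V ^ (2 / 5 : ℝ)⌋₊

/-- The range of the prime factor `p`. -/
noncomputable def QQ (X V : ℝ) : Finset ℕ :=
  (Ioc ⌊X / V ^ (2 / 5 : ℝ)⌋₊ ⌊8 * X / V ^ (3 / 10 : ℝ)⌋₊).filter Nat.Prime

open Classical in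
/-- The pairs `(m, p)` with `u < log (m p) ≤ u + δ`. -/
noncomputable def PW (X V u δ : ℝ) : Finset (ℕ × ℕ) :=
  (MM V ×ˢ QQ X V).filter (fun z => u < Real.log ((z.1 : ℝ) * z.2) ∧
    Real.log ((z.1 : ℝ) * z.2) ≤ u + δ)

/-- Their number. -/
noncomputable def FW (X V u δ : ℝ) : ℝ := ((PW X V u δ).card : ℝ)

end EL
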