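import Pool.Agent.Helper85.EL.EnlA
import Pool.Agent.Helper85.EL.Bup

/-! Row ENL of the EL sheet (helper20). -/

set_option autoImplicit false

namespace EL

open Finset Filter
open scoped Classical
open EB (bl)

theorem enl : ∃ J r₁ : ℕ, ∀ ε : ℝ, 0 < ε → ε ≤ 1 / 20 → ∀ r₀ : ℕ, r₁ ≤ r₀ →
    ∃ X₀ : ℕ, ∀ X n₁ : ℕ, X₀ ≤ X → X ≤ n₁ → n₁ < 2 * X → Good ε r₀ J X n₁ →
    ∀ k₁ k₂ n₂ : ℕ, (X : ℝ) ^ (1 - ε / 2) ≤ k₁ → 2 ^ r₀ * k₁ ≤ X → k₂ ≤ k₁ → n₁ + k₁ ≤ n₂ →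
    n₂ ≤ 2 * n₁ → ¬ ((bl n₁ k₁).primeFactors ⊆ (bl n₂ k₂).primeFactors) :=
  enl_of bup

end EL
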