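import Pool.Agent.Helper85.EL.Good
import Pool.Agent.Helper85.EL.Cmb
import Pool.Agent.Helper85.EB.Defs

/-! Row ENL of the EL sheet, with the statement of `bup` as a hypothesis (helper20). -/

set_option autoImplicit false

namespace EL

open Finset Filter
open scoped Classical
open EB (bl)

/-- two multiples of `p` in a block shorter than `p` are equal -/
theorem enl_eq {n k p x y : ℕ} (hkp : k < p) (hx : p ∣ x) (hy : p ∣ y) (h1 : n + 1 ≤ x)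
    (h2 : x ≤ n + k) (h3 : n + 1 ≤ y) (h4 : y ≤ n + k) : x = y := by
  rcases lt_trichotomy x y with h | h | h
  · have h5 := Nat.le_of_dvd (by omega) (Nat.dvd_sub hy hx)
    omega
  · exact h
  · have h5 := Nat.le_of_dvd (by omega) (Nat.dvd_sub hx hy)
    omega

theorem enl_ratio {n₁ n₂ k₁ k₂ : ℕ} (hk : k₂ ≤ k₁) (h12 : n₁ + k₁ ≤ n₂)
    (hP : (bl n₁ k₁).primeFactors ⊆ (bl n₂ k₂).primeFactors) (Z : Finset (ℕ × ℕ))
    (hZ : ∀ z ∈ Z, z.2.Prime ∧ k₁ < z.2 ∧ 3 * n₂ * k₁ ≤ z.2 ^ 2 ∧ n₁ + 1 ≤ z.1 * z.2 ∧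
      z.1 * z.2 ≤ n₁ + k₁) (hne : Z.Nonempty) :
    ∃ a b : ℕ, Nat.Coprime a b ∧ 0 < b ∧ b < a ∧ ∀ z ∈ Z, ∃ j, 1 ≤ j ∧ j ≤ k₂ ∧
      b * (n₂ + j) = a * (z.1 * z.2) := by
  have hj : ∀ z ∈ Z, ∃ j, 1 ≤ j ∧ j ≤ k₂ ∧ z.2 ∣ n₂ + j := by
    intro z hz
    obtain ⟨hp, h1, h2, h3, h4⟩ := hZ z hz
    have hi : z.1 * z.2 - n₁ ∈ Icc 1 k₁ := by
      rw [Finset.mem_Icc]
      omega
    have hb : bl n₁ k₁ ≠ 0 := by
      unfold EB.bl
      rw [Finset.prod_ne_zero_iff]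
      intro a ha
      have := (Finset.mem_Icc.1 ha).1
      omega
    have hd : z.2 ∣ bl n₁ k₁ := by
      unfold EB.bl
      refine Dvd.dvd.trans ?_ (Finset.dvd_prod_of_mem (fun i => n₁ + i) hi)
      show z.2 ∣ n₁ + (z.1 * z.2 - n₁)
      have h5 : n₁ + (z.1 * z.2 - n₁) = z.1 * z.2 := by omega
      rw [h5]
      exact dvd_mul_left _ _
    have hm : z.2 ∈ (bl n₁ k₁).primeFactors := by
      rw [Nat.mem_primeFactors]
      exact ⟨hp, hd, hb⟩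
    have hm2 := (Nat.mem_primeFactors.1 (hP hm)).2.1
    unfold EB.bl at hm2
    obtain ⟨j, hj, hjd⟩ := hp.prime.exists_mem_finset_dvd hm2
    exact ⟨j, (Finset.mem_Icc.1 hj).1, (Finset.mem_Icc.1 hj).2, hjd⟩
  obtain ⟨z0, hz0⟩ := hne
  obtain ⟨j0, hj01, hj02, hj0d⟩ := hj z0 hz0
  obtain ⟨hp0, h01, h02, h03, h04⟩ := hZ z0 hz0
  set A : ℕ := n₂ + j0 with hA
  set B : ℕ := z0.1 * z0.2 with hB
  have hA0 : 0 < A := by omega
  have hB0 : 0 < B := by omega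
  have hAB : B < A := by omega
  set g : ℕ := Nat.gcd A B with hg
  have hg0 : 0 < g := Nat.gcd_pos_of_pos_left _ hA0
  obtain ⟨a, ha⟩ : g ∣ A := Nat.gcd_dvd_left _ _
  obtain ⟨b, hb⟩ : g ∣ B := Nat.gcd_dvd_right _ _
  have hcop : Nat.Coprime a b := by
    have h1 : Nat.gcd (g * a) (g * b) = g * Nat.gcd a b := Nat.gcd_mul_left _ _ _
    rw [← ha, ← hb, ← hg] at h1
    have h2 : g * 1 = g * Nat.gcd a b := by rw [mul_one]; exact h1
    exact (Nat.eq_of_mul_eq_mul_left hg0 h2).symm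
  have hb0 : 0 < b := by
    rcases Nat.eq_zero_or_pos b with h | h
    · rw [h, mul_zero] at hb
      omega
    · exact h
  have hab : b < a := by
    have h1 : g * b < g * a := by rw [← ha, ← hb]; exact hAB
    exact Nat.lt_of_mul_lt_mul_left h1
  refine ⟨a, b, hcop, hb0, hab, fun z hz => ?_⟩
  obtain ⟨hp, h1, h2, h3, h4⟩ := hZ z hz
  by_cases hpp : z.2 = z0.2
  · refine ⟨j0, hj01, hj02, ?_⟩
    have h5 : z.1 * z.2 = z0.1 * z0.2 := by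
      refine enl_eq h01 ?_ (dvd_mul_left _ _) h3 h4 h03 h04
      rw [hpp]
      exact dvd_mul_left _ _
    rw [h5, ← hB, ← hA, ha, hb]
    ring
  · obtain ⟨j, hj1, hj2, hjd⟩ := hj z hz
    refine ⟨j, hj1, hj2, ?_⟩
    have e0 : n₁ + (B - n₁) = B := by omega
    have e1 : n₁ + (z.1 * z.2 - n₁) = z.1 * z.2 := by omega
    have h5 := cmb (n₁ := n₁) (n₂ := n₂) (k₁ := k₁) (k₂ := k₂) (i := B - n₁)
      (i' := z.1 * z.2 - n₁) (j := j0) (j' := j) (p := z0.2) (p' := z.2) hk h12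
      (by omega) (by omega) (by omega) (by omega) hj01 hj02 hj1 hj2 hp0 hp
      (fun h => hpp h.symm) (by rw [e0]; exact dvd_mul_left _ _)
      (by rw [e1]; exact dvd_mul_left _ _) hj0d hjd h02 h2
    rw [e0, e1, ← hA] at h5
    have h6 : g * (a * (z.1 * z.2)) = g * (b * (n₂ + j)) := by
      calc g * (a * (z.1 * z.2)) = A * (z.1 * z.2) := by rw [ha]; ring
        _ = (n₂ + j) * B := h5
        _ = g * (b * (n₂ + j)) := by rw [hb]; ring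
    exact (Nat.eq_of_mul_eq_mul_left hg0 h6).symm

theorem enl_b {n₁ n₂ k₁ k₂ a b : ℕ} (hcop : Nat.Coprime a b) (Z : Finset (ℕ × ℕ))
    (hZ : ∀ z ∈ Z, z.2.Prime ∧ k₁ < z.2 ∧ n₁ + 1 ≤ z.1 * z.2 ∧ z.1 * z.2 ≤ n₁ + k₁)
    (hlt : ∀ z ∈ Z, ∀ z' ∈ Z, z.1 < z'.2) (hcard : 2 ≤ Z.card)
    (h : ∀ z ∈ Z, ∃ j, 1 ≤ j ∧ j ≤ k₂ ∧ b * (n₂ + j) = a * (z.1 * z.2)) :
    ∀ z ∈ Z, b ∣ z.1 := by
  have hd : ∀ z ∈ Z, b ∣ z.1 * z.2 := by
    intro z hz
    obtain ⟨j, _, _, hj⟩ := h z hz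
    have h1 : b ∣ a * (z.1 * z.2) := ⟨n₂ + j, hj.symm⟩
    exact (Nat.Coprime.symm hcop).dvd_of_dvd_mul_left h1
  intro z hz
  obtain ⟨hp, h1, h2, h3⟩ := hZ z hz
  have hex : ∃ z' ∈ Z, z' ≠ z := by
    by_contra hcon
    push Not at hcon
    have h4 : Z ⊆ {z} := fun w hw => Finset.mem_singleton.2 (hcon w hw)
    have h5 := Finset.card_le_card h4
    rw [Finset.card_singleton] at h5
    omega
  obtain ⟨z', hz', hzz⟩ := hex
  obtain ⟨hp', h1', h2', h3'⟩ := hZ z' hz'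
  have hne : z.2 ≠ z'.2 := by
    intro heq
    have h5 : z'.1 * z'.2 = z.1 * z.2 := by
      refine enl_eq h1' (dvd_mul_left _ _) ?_ h2' h3' h2 h3
      rw [heq]
      exact dvd_mul_left _ _
    rw [heq] at h5
    have h6 : z'.1 = z.1 := Nat.eq_of_mul_eq_mul_right hp'.pos h5
    exact hzz (Prod.ext h6 heq.symm)
  have hnd : ¬ z.2 ∣ b := by
    intro hdb
    have h5 : z.2 ∣ z'.1 * z'.2 := hdb.trans (hd z' hz')
    rcases (Nat.Prime.dvd_mul hp).1 h5 with h6 | h6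
    · have h7 : 0 < z'.1 := by
        rcases Nat.eq_zero_or_pos z'.1 with h8 | h8
        · rw [h8, zero_mul] at h2'
          omega
        · exact h8
      have h8 := Nat.le_of_dvd h7 h6
      have h9 := hlt z' hz' z hz
      omega
    · exact hne ((Nat.prime_dvd_prime_iff_eq hp hp').1 h6)
  have hcp : Nat.Coprime b z.2 := ((Nat.Prime.coprime_iff_not_dvd hp).2 hnd).symm
  exact hcp.dvd_of_dvd_mul_right (hd z hz)

/-- the choice of a window near the end of the block -/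
theorem enl_window (n k s d : ℝ) (J : ℕ) (hk : 0 < k) (hs : s ≤ k)
    (hstep : ∀ j : ℕ, j < J → n * Real.exp ((j + 1 : ℕ) * d) - n * Real.exp (j * d) ≤ s)
    (hJ : n + k < n * Real.exp (J * d)) :
    ∃ j : ℕ, j < J ∧ n * Real.exp ((j + 1 : ℕ) * d) ≤ n + k ∧
      n + k - 2 * s < n * Real.exp (j * d) := by
  have hex : ∃ i : ℕ, n + k < n * Real.exp (i * d) := ⟨J, hJ⟩
  set i := Nat.find hex with hi
  have hiP : n + k < n * Real.exp (i * d) := Nat.find_spec hex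
  have hiJ : i ≤ J := Nat.find_min' hex hJ
  have hmin : ∀ m : ℕ, m < i → n * Real.exp (m * d) ≤ n + k := by
    intro m hm
    have := Nat.find_min hex hm
    push Not at this
    exact this
  have h0 : i ≠ 0 := by
    intro h
    rw [h] at hiP
    simp at hiP
    linarith
  have h1 : i ≠ 1 := by
    intro h
    rw [h] at hiP
    have h2 := hstep 0 (by omega)
    simp at h2 hiP
    linarith
  obtain ⟨j, hj⟩ : ∃ j, i = j + 2 := ⟨i - 2, by omega⟩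
  refine ⟨j, by omega, hmin (j + 1) (by omega), ?_⟩
  have h2 := hstep j (by omega)
  have h3 := hstep (j + 1) (by omega)
  have h4 : n + k < n * Real.exp ((j + 1 + 1 : ℕ) * d) := by
    have : j + 1 + 1 = i := by omega
    rw [this]
    exact hiP
  linarith

theorem enl_of (hbup : ∃ C V₀ X₀ : ℝ, 0 < C ∧ 2 ≤ V₀ ∧ 2 ≤ X₀ ∧ ∀ (X V u : ℝ) (b : ℕ),
    X₀ ≤ X → V₀ ≤ V →
    V ≤ X ^ (1 / 10 : ℝ) → Real.log X ≤ u → u ≤ Real.log (4 * X) → 1 ≤ b →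
    (((PW X V u (2 / V)).filter (fun z => b ∣ z.1)).card : ℝ)
      ≤ C * Real.exp u * Real.log V / (V * b * Real.log X)) :
    ∃ J r₁ : ℕ, ∀ ε : ℝ, 0 < ε → ε ≤ 1 / 20 → ∀ r₀ : ℕ, r₁ ≤ r₀ →
    ∃ X₀ : ℕ, ∀ X n₁ : ℕ, X₀ ≤ X → X ≤ n₁ → n₁ < 2 * X → Good ε r₀ J X n₁ →
    ∀ k₁ k₂ n₂ : ℕ, (X : ℝ) ^ (1 - ε / 2) ≤ k₁ → 2 ^ r₀ * k₁ ≤ X → k₂ ≤ k₁ → n₁ + k₁ ≤ n₂ →
    n₂ ≤ 2 * n₁ → ¬ ((bl n₁ k₁).primeFactors ⊆ (bl n₂ k₂).primeFactors) := by
  obtain ⟨C, V₀, X₁, hC, hV₀, hX₁, hb⟩ := hbup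
  obtain ⟨b₁, hb₁⟩ : ∃ b₁ : ℕ, b₁ = ⌈200 * C⌉₊ + 1 := ⟨_, rfl⟩
  obtain ⟨Cw, hCw⟩ : ∃ Cw : ℕ, Cw = 80 * (b₁ + 1) := ⟨_, rfl⟩
  obtain ⟨N, hN⟩ : ∃ N : ℕ, N = 100000000 := ⟨_, rfl⟩
  have hCw1 : 80 ≤ Cw := by omega
  have hCwR : (80 : ℝ) ≤ Cw := by exact_mod_cast hCw1
  refine ⟨Cw, ⌈V₀⌉₊ + (12 * Cw) ^ 5, fun ε hε hε' r₀ hr₀ => ?_⟩
  refine ⟨⌈X₁⌉₊ + N + ⌈(Cw : ℝ) ^ (2 / ε)⌉₊, fun X n₁ hX hXn hnX hG k₁ k₂ n₂ hk1 hk1' hk
    h12 hn2 hP => ?_⟩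
  -- sizes of `X`
  have hX8 : 100000000 ≤ X := by omega
  have hX8R : (100000000 : ℝ) ≤ X := by exact_mod_cast hX8
  have hX0 : (0 : ℝ) < X := by linarith
  have hX1R : (1 : ℝ) ≤ X := by linarith
  have hXX₁ : X₁ ≤ X := by
    have h1 : ⌈X₁⌉₊ ≤ X := by omega
    exact (Nat.le_ceil _).trans (by exact_mod_cast h1)
  have hXε : (Cw : ℝ) ≤ (X : ℝ) ^ (ε / 2) := by
    have h1 : ⌈(Cw : ℝ) ^ (2 / ε)⌉₊ ≤ X := by omega
    have h2 : (Cw : ℝ) ^ (2 / ε) ≤ X := (Nat.le_ceil _).trans (by exact_mod_cast h1)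
    calc (Cw : ℝ) = ((Cw : ℝ) ^ (2 / ε)) ^ (ε / 2) := by
          rw [← Real.rpow_mul (by linarith)]
          have h3 : 2 / ε * (ε / 2) = 1 := by field_simp
          rw [h3, Real.rpow_one]
      _ ≤ (X : ℝ) ^ (ε / 2) := Real.rpow_le_rpow (by positivity) h2 (by linarith)
  set L := Real.log X with hL
  have hL0 : 0 < L := Real.log_pos (by linarith)
  -- `k₁`
  have hk0R : (0 : ℝ) < k₁ := lt_of_lt_of_le (Real.rpow_pos_of_pos hX0 _) hk1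
  have hk0 : 0 < k₁ := by exact_mod_cast hk0R
  -- the exponent `r`
  set Q : ℕ := Cw * X / k₁ with hQ
  have h2r0 : 1 ≤ 2 ^ r₀ := Nat.one_le_two_pow
  have hQr0 : 2 ^ r₀ ≤ Q := by
    rw [hQ, Nat.le_div_iff_mul_le hk0]
    calc 2 ^ r₀ * k₁ ≤ X := hk1'
      _ = 1 * X := (one_mul X).symm
      _ ≤ Cw * X := Nat.mul_le_mul_right _ (by omega)
  have hQ0 : Q ≠ 0 := by omega
  set r : ℕ := Nat.log 2 Q with hr
  have hrr0 : r₀ ≤ r := Nat.le_log_of_pow_le (by norm_num) hQr0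
  have hrQ : 2 ^ r ≤ Q := Nat.pow_log_le_self 2 hQ0
  have hQr : Q < 2 ^ (r + 1) := Nat.lt_pow_succ_log_self (by norm_num) Q
  obtain ⟨V, hV⟩ : ∃ V : ℝ, V = (2 : ℝ) ^ r := ⟨_, rfl⟩
  have hV1 : V * k₁ ≤ (Cw : ℝ) * X := by
    have h1 : 2 ^ r * k₁ ≤ Cw * X :=
      (Nat.mul_le_mul_right _ hrQ).trans (Nat.div_mul_le_self _ _)
    have h2 : ((2 ^ r * k₁ : ℕ) : ℝ) ≤ ((Cw * X : ℕ) : ℝ) := by exact_mod_cast h1
    rw [hV]
    push_cast at h2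
    exact h2
  have hV2 : (Cw : ℝ) * X < 2 * V * k₁ := by
    have h1 : Cw * X < k₁ * (Q + 1) := Nat.lt_mul_div_succ _ hk0
    have h2 : k₁ * (Q + 1) ≤ k₁ * 2 ^ (r + 1) := Nat.mul_le_mul_left _ hQr
    have h3 : Cw * X < k₁ * 2 ^ (r + 1) := lt_of_lt_of_le h1 h2
    have h4 : ((Cw * X : ℕ) : ℝ) < ((k₁ * 2 ^ (r + 1) : ℕ) : ℝ) := by exact_mod_cast h3
    push_cast at h4
    have h5 : (k₁ : ℝ) * 2 ^ (r + 1) = 2 * V * k₁ := by
      rw [hV, pow_succ]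
      ring
    linarith
  have hVbig : ((⌈V₀⌉₊ + (12 * Cw) ^ 5 : ℕ) : ℝ) ≤ V := by
    have h1 : ⌈V₀⌉₊ + (12 * Cw) ^ 5 ≤ 2 ^ r := by
      calc ⌈V₀⌉₊ + (12 * Cw) ^ 5 ≤ r := hr₀.trans hrr0
        _ ≤ 2 ^ r := Nat.lt_two_pow_self.le
    have h2 : ((⌈V₀⌉₊ + (12 * Cw) ^ 5 : ℕ) : ℝ) ≤ ((2 ^ r : ℕ) : ℝ) := by exact_mod_cast h1
    rw [hV]
    push_cast at h2 ⊢
    exact h2
  push_cast at hVbig
  have hceil : V₀ ≤ (⌈V₀⌉₊ : ℝ) := Nat.le_ceil _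
  have hV₀V : V₀ ≤ V := by
    have : (0 : ℝ) ≤ (12 * (Cw : ℝ)) ^ 5 := by positivity
    linarith
  have hV12 : (12 * (Cw : ℝ)) ^ 5 ≤ V := by
    have : (0 : ℝ) ≤ (⌈V₀⌉₊ : ℝ) := by positivity
    linarith
  have hV2' : 2 ≤ V := hV₀.trans hV₀V
  have hV0 : 0 < V := by linarith
  have hV12' : 12 * (Cw : ℝ) ≤ V := by
    have h1 : (1 : ℝ) ≤ 12 * Cw := by linarith
    calc 12 * (Cw : ℝ) = (12 * (Cw : ℝ)) ^ 1 := (pow_one _).symm
      _ ≤ (12 * (Cw : ℝ)) ^ 5 := pow_le_pow_right₀ h1 (by norm_num)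
      _ ≤ V := hV12
  have hVε : V ≤ (X : ℝ) ^ ε := by
    have h0 : 0 < (X : ℝ) ^ (1 - ε / 2) := Real.rpow_pos_of_pos hX0 _
    have h1 : V * (X : ℝ) ^ (1 - ε / 2) ≤ (X : ℝ) ^ ε * (X : ℝ) ^ (1 - ε / 2) := by
      calc V * (X : ℝ) ^ (1 - ε / 2) ≤ V * k₁ := mul_le_mul_of_nonneg_left hk1 hV0.le
        _ ≤ Cw * X := hV1
        _ ≤ (X : ℝ) ^ (ε / 2) * X := mul_le_mul_of_nonneg_right hXε hX0.le
        _ = (X : ℝ) ^ (ε / 2) * (X : ℝ) ^ (1 : ℝ) := by rw [Real.rpow_one]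
        _ = (X : ℝ) ^ ε * (X : ℝ) ^ (1 - ε / 2) := by
            rw [← Real.rpow_add hX0, ← Real.rpow_add hX0]
            congr 1
            ring
    exact le_of_mul_le_mul_right h1 h0
  have hV20 : V ≤ (X : ℝ) ^ (1 / 20 : ℝ) :=
    hVε.trans (Real.rpow_le_rpow_of_exponent_le hX1R hε')
  have hV10 : V ≤ (X : ℝ) ^ (1 / 10 : ℝ) :=
    hV20.trans (Real.rpow_le_rpow_of_exponent_le hX1R (by norm_num))
  -- the fifth root of `V`
  set T : ℝ := V ^ (1 / 5 : ℝ) with hT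
  have hT0 : 0 < T := Real.rpow_pos_of_pos hV0 _
  have hT5 : T ^ 5 = V := by
    rw [hT, ← Real.rpow_natCast, ← Real.rpow_mul hV0.le]
    norm_num
  have hT2 : V ^ (2 / 5 : ℝ) = T ^ 2 := by
    rw [hT, ← Real.rpow_natCast, ← Real.rpow_mul hV0.le]
    norm_num
  have hT12 : 12 * (Cw : ℝ) ≤ T := by
    by_contra hcon
    push Not at hcon
    have h1 : T ^ 5 < (12 * (Cw : ℝ)) ^ 5 := pow_lt_pow_left₀ hcon hT0.le (by norm_num)
    linarith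
  have hT1 : 1 ≤ T := by linarith
  have hTX : T ^ 4 ≤ (X : ℝ) := by
    calc T ^ 4 ≤ T ^ 5 := pow_le_pow_right₀ hT1 (by norm_num)
      _ = V := hT5
      _ ≤ (X : ℝ) ^ (1 / 10 : ℝ) := hV10
      _ ≤ (X : ℝ) ^ (1 : ℝ) := Real.rpow_le_rpow_of_exponent_le hX1R (by norm_num)
      _ = X := Real.rpow_one _
  -- `n₁`, `n₂`
  have hnR1 : (X : ℝ) ≤ n₁ := by exact_mod_cast hXn
  have hnR2 : (n₁ : ℝ) < 2 * X := by exact_mod_cast hnX
  have hn0 : (0 : ℝ) < n₁ := by linarith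
  have hn2R : (n₂ : ℝ) ≤ 2 * n₁ := by exact_mod_cast hn2
  -- information about a pair
  have hpair : ∀ (j : ℕ) (z : ℕ × ℕ), z ∈ PW X V (Real.log n₁ + j * (2 / V)) (2 / V) →
      z.2.Prime ∧ (z.1 : ℝ) ≤ T ^ 2 ∧ (X : ℝ) < z.2 * T ^ 2 ∧
      (n₁ : ℝ) * Real.exp (j * (2 / V)) < (z.1 : ℝ) * z.2 ∧
      (z.1 : ℝ) * z.2 ≤ n₁ * Real.exp ((j + 1 : ℕ) * (2 / V)) := by
    intro j z hz
    unfold PW at hz
    obtain ⟨hz1, hz2, hz3⟩ := Finset.mem_filter.1 hz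
    obtain ⟨hm, hq⟩ := Finset.mem_product.1 hz1
    unfold MM at hm
    unfold QQ at hq
    obtain ⟨hq1, hq2⟩ := Finset.mem_filter.1 hq
    rw [Finset.mem_Ioc] at hm hq1
    have hm1 : (0 : ℝ) < z.1 := by
      have : 0 < z.1 := by omega
      exact_mod_cast this
    have hp1 : (0 : ℝ) < z.2 := by exact_mod_cast hq2.pos
    have hmp : (0 : ℝ) < (z.1 : ℝ) * z.2 := mul_pos hm1 hp1
    refine ⟨hq2, ?_, ?_, ?_, ?_⟩
    · rw [← hT2]
      exact (Nat.le_floor_iff (by positivity)).1 hm.2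
    · have h1 := (Nat.floor_lt (by positivity)).1 hq1.1
      rw [hT2, div_lt_iff₀ (by positivity)] at h1
      exact h1
    · rw [Real.lt_log_iff_exp_lt hmp, Real.exp_add, Real.exp_log hn0] at hz2
      exact hz2
    · rw [Real.log_le_iff_le_exp hmp, Real.exp_add, Real.exp_add, Real.exp_log hn0,
        mul_assoc, ← Real.exp_add] at hz3
      have h1 : (j : ℝ) * (2 / V) + 2 / V = ((j + 1 : ℕ) : ℝ) * (2 / V) := by
        push_cast
        ring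
      rw [h1] at hz3
      exact hz3
  have hbigp : ∀ p : ℕ, (X : ℝ) < p * T ^ 2 → 3 * n₂ * k₁ ≤ p ^ 2 ∧ k₁ < p := by
    intro p hp
    have hp2 : (X : ℝ) ^ 2 ≤ (p * T ^ 2) ^ 2 := pow_le_pow_left₀ hX0.le hp.le 2
    have h1 : (3 * n₂ * k₁ : ℝ) * V ≤ (p : ℝ) ^ 2 * V := by
      calc (3 * n₂ * k₁ : ℝ) * V = 3 * n₂ * (V * k₁) := by ring
        _ ≤ 3 * (4 * X) * (Cw * X) := by
            refine mul_le_mul ?_ hV1 (by positivity) (by positivity)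
            linarith
        _ = (12 * Cw) * (X : ℝ) ^ 2 := by ring
        _ ≤ T * (p * T ^ 2) ^ 2 := mul_le_mul hT12 hp2 (by positivity) hT0.le
        _ = (p : ℝ) ^ 2 * T ^ 5 := by ring
        _ = (p : ℝ) ^ 2 * V := by rw [hT5]
    have h2 : (3 * n₂ * k₁ : ℝ) ≤ (p : ℝ) ^ 2 := le_of_mul_le_mul_right h1 hV0
    have h3 : 3 * n₂ * k₁ ≤ p ^ 2 := by exact_mod_cast h2
    refine ⟨h3, ?_⟩
    by_contra hcon
    push Not at hcon
    have h4 : p ^ 2 ≤ k₁ ^ 2 := Nat.pow_le_pow_left hcon 2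
    have h5 : k₁ ≤ n₂ := by omega
    have h6 : 3 * k₁ * k₁ ≤ 3 * n₂ * k₁ := Nat.mul_le_mul_right _ (by omega)
    have h7 : 0 < k₁ * k₁ := Nat.mul_pos hk0 hk0
    have h8 : 3 * k₁ * k₁ ≤ k₁ ^ 2 := h6.trans (h3.trans h4)
    have h9 : 3 * k₁ * k₁ = 3 * (k₁ * k₁) := by ring
    have h10 : k₁ ^ 2 = k₁ * k₁ := by ring
    rw [h9, h10] at h8
    omega
  -- the windows
  have hd0 : 0 < 2 / V := by positivity
  have hdJ : (Cw : ℝ) * (2 / V) ≤ 1 / 6 := by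
    rw [mul_div_assoc', div_le_iff₀ hV0]
    linarith
  have hd1 : 2 / V ≤ 1 / 2 := by
    rw [div_le_iff₀ hV0]
    linarith
  have hexp1 : Real.exp (2 / V) - 1 ≤ 4 / V := by
    have h1 := Real.add_one_le_exp (-(2 / V))
    have h2 : Real.exp (2 / V) * Real.exp (-(2 / V)) = 1 := by
      rw [← Real.exp_add]
      simp
    have h3 : 0 < Real.exp (2 / V) := Real.exp_pos _
    have h4 : Real.exp (2 / V) * (1 - 2 / V) ≤ 1 := by
      calc Real.exp (2 / V) * (1 - 2 / V) ≤ Real.exp (2 / V) * Real.exp (-(2 / V)) :=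
            mul_le_mul_of_nonneg_left (by linarith) h3.le
        _ = 1 := h2
    have h5 : Real.exp (2 / V) ≤ 2 := by
      have h50 : Real.exp (2 / V) * (1 / 2) ≤ Real.exp (2 / V) * (1 - 2 / V) :=
        mul_le_mul_of_nonneg_left (by linarith) h3.le
      linarith
    have h6 : Real.exp (2 / V) - 1 ≤ Real.exp (2 / V) * (2 / V) := by linarith
    have h7 : Real.exp (2 / V) * (2 / V) ≤ 2 * (2 / V) :=
      mul_le_mul_of_nonneg_right h5 hd0.le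
    have h8 : 2 * (2 / V) = 4 / V := by ring
    linarith
  have hexpJ : ∀ j : ℕ, j ≤ Cw → Real.exp (j * (2 / V)) ≤ 6 / 5 := by
    intro j hj
    have hj' : (j : ℝ) ≤ Cw := by exact_mod_cast hj
    have h0 : (j : ℝ) * (2 / V) ≤ 1 / 6 :=
      (mul_le_mul_of_nonneg_right hj' hd0.le).trans hdJ
    have h1 := Real.add_one_le_exp (-((j : ℝ) * (2 / V)))
    have h2 : Real.exp ((j : ℝ) * (2 / V)) * Real.exp (-((j : ℝ) * (2 / V))) = 1 := by
      rw [← Real.exp_add]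
      simp
    have h3 : 0 < Real.exp ((j : ℝ) * (2 / V)) := Real.exp_pos _
    have h4 : Real.exp ((j : ℝ) * (2 / V)) * (5 / 6) ≤ 1 := by
      calc Real.exp ((j : ℝ) * (2 / V)) * (5 / 6)
          ≤ Real.exp ((j : ℝ) * (2 / V)) * Real.exp (-((j : ℝ) * (2 / V))) :=
            mul_le_mul_of_nonneg_left (by linarith) h3.le
        _ = 1 := h2
    linarith
  have hXV : (X : ℝ) / V ≤ 2 * k₁ / Cw := by
    rw [div_le_div_iff₀ hV0 (by linarith)]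
    linarith
  have hstep : ∀ j : ℕ, j < Cw → (n₁ : ℝ) * Real.exp ((j + 1 : ℕ) * (2 / V)) -
      n₁ * Real.exp (j * (2 / V)) ≤ 24 * k₁ / Cw := by
    intro j hj
    have h1 := hexpJ j hj.le
    have h2 : Real.exp ((j + 1 : ℕ) * (2 / V)) =
        Real.exp (j * (2 / V)) * Real.exp (2 / V) := by
      rw [← Real.exp_add]
      congr 1
      push_cast
      ring
    have h3 : (n₁ : ℝ) * Real.exp ((j + 1 : ℕ) * (2 / V)) - n₁ * Real.exp (j * (2 / V)) =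
        n₁ * Real.exp (j * (2 / V)) * (Real.exp (2 / V) - 1) := by
      rw [h2]
      ring
    rw [h3]
    have h4 : 0 ≤ Real.exp (2 / V) - 1 := by
      have := Real.add_one_le_exp (2 / V)
      linarith
    calc (n₁ : ℝ) * Real.exp (j * (2 / V)) * (Real.exp (2 / V) - 1)
        ≤ (2 * X) * (6 / 5) * (4 / V) := by
          refine mul_le_mul ?_ hexp1 h4 (by positivity)
          exact mul_le_mul hnR2.le h1 (Real.exp_pos _).le (by positivity)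
      _ = 48 / 5 * ((X : ℝ) / V) := by ring
      _ ≤ 48 / 5 * (2 * k₁ / Cw) := mul_le_mul_of_nonneg_left hXV (by norm_num)
      _ = (96 / 5) * k₁ / Cw := by ring
      _ ≤ 24 * k₁ / Cw := by
          apply div_le_div_of_nonneg_right _ (by linarith)
          linarith
  have hend : (n₁ : ℝ) + k₁ < n₁ * Real.exp (Cw * (2 / V)) := by
    have h1 := Real.add_one_le_exp ((Cw : ℝ) * (2 / V))
    have h2 : (n₁ : ℝ) * (Cw * (2 / V) + 1) ≤ n₁ * Real.exp (Cw * (2 / V)) :=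
      mul_le_mul_of_nonneg_left h1 hn0.le
    have h3 : 2 * (k₁ : ℝ) ≤ n₁ * (Cw * (2 / V)) := by
      have h4 : (k₁ : ℝ) ≤ Cw * X / V := by
        rw [le_div_iff₀ hV0]
        linarith
      calc 2 * (k₁ : ℝ) ≤ 2 * (Cw * X / V) := by linarith
        _ = X * (Cw * (2 / V)) := by ring
        _ ≤ n₁ * (Cw * (2 / V)) := mul_le_mul_of_nonneg_right hnR1 (by positivity)
    have h5 : (n₁ : ℝ) * (Cw * (2 / V) + 1) = n₁ * (Cw * (2 / V)) + n₁ := by ring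
    linarith
  have hs1 : 24 * (k₁ : ℝ) / Cw ≤ k₁ := by
    rw [div_le_iff₀ (by linarith)]
    have h1 : (k₁ : ℝ) * 24 ≤ k₁ * Cw := mul_le_mul_of_nonneg_left (by linarith) hk0R.le
    linarith
  obtain ⟨j, hjJ, hj1, hj2⟩ := enl_window n₁ k₁ (24 * k₁ / Cw) (2 / V) Cw hk0R hs1 hstep hend
  -- numbers of pairs
  have hlogV : 1 / 2 ≤ Real.log V := by
    have h1 : Real.log 2 ≤ Real.log V := Real.log_le_log (by norm_num) hV2'
    have h2 := Real.log_two_gt_d9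
    linarith
  have hq0 : 0 < (n₁ : ℝ) * Real.log V / (V * L) := by
    apply div_pos _ (by positivity)
    exact mul_pos hn0 (by linarith)
  have hbig : 1 < 1 / 200 * (n₁ : ℝ) * Real.log V / (V * L) := by
    rw [lt_div_iff₀ (by positivity)]
    have h1 : L ≤ (X : ℝ) ^ (1 / 20 : ℝ) / (1 / 20) := Real.log_le_rpow_div hX0.le (by norm_num)
    have h2 : (X : ℝ) ^ (1 / 20 : ℝ) * (X : ℝ) ^ (1 / 20 : ℝ) * (X : ℝ) ^ (9 / 10 : ℝ) = X := by
      rw [← Real.rpow_add hX0, ← Real.rpow_add hX0]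
      norm_num
    have h3 : (10000 : ℝ) ≤ (X : ℝ) ^ (9 / 10 : ℝ) := by
      calc (10000 : ℝ) = (100000000 : ℝ) ^ (1 / 2 : ℝ) := by
            have h30 : (100000000 : ℝ) = (10000 : ℝ) ^ (2 : ℕ) := by norm_num
            rw [h30, ← Real.rpow_natCast, ← Real.rpow_mul (by norm_num)]
            norm_num
        _ ≤ (X : ℝ) ^ (1 / 2 : ℝ) := Real.rpow_le_rpow (by norm_num) hX8R (by norm_num)
        _ ≤ (X : ℝ) ^ (9 / 10 : ℝ) := Real.rpow_le_rpow_of_exponent_le hX1R (by norm_num)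
    set y : ℝ := (X : ℝ) ^ (1 / 20 : ℝ) with hy
    have hy0 : 0 < y := Real.rpow_pos_of_pos hX0 _
    have h4 : V * L ≤ y * (20 * y) := by
      refine mul_le_mul hV20 ?_ hL0.le hy0.le
      linarith
    have h5 : y * y * 10000 ≤ X := by
      calc y * y * 10000 ≤ y * y * (X : ℝ) ^ (9 / 10 : ℝ) :=
            mul_le_mul_of_nonneg_left h3 (by positivity)
        _ = X := h2
    have hyy : 0 < y * y := by positivity
    have h6 : (X : ℝ) * (1 / 2) ≤ n₁ * Real.log V :=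
      mul_le_mul hnR1 hlogV (by norm_num) hn0.le
    have h7 : y * (20 * y) = 20 * (y * y) := by ring
    have h8 : 1 / 200 * (n₁ : ℝ) * Real.log V = 1 / 200 * (n₁ * Real.log V) := by ring
    rw [h7] at h4
    rw [h8]
    linarith
  have hcount : ∀ j' : ℕ, j' ≤ Cw → 1 / 200 * (n₁ : ℝ) * Real.log V / (V * L) ≤
      ((PW X V (Real.log n₁ + j' * (2 / V)) (2 / V)).card : ℝ) := by
    intro j' hj'
    have h1 := hG r j' hrr0 (by rw [← hV]; exact hVε) hj'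
    unfold FW at h1
    rw [← hV] at h1
    exact h1
  -- the two windows
  set Z0 := PW X V (Real.log n₁ + (0 : ℕ) * (2 / V)) (2 / V) with hZ0
  have hZ0c : 2 ≤ Z0.card := by
    have h1 := hcount 0 (by omega)
    have h2 : (1 : ℝ) < (Z0.card : ℝ) := lt_of_lt_of_le hbig h1
    have h3 : 1 < Z0.card := by exact_mod_cast h2
    omega
  have hZjne : (PW X V (Real.log n₁ + j * (2 / V)) (2 / V)).Nonempty := by
    rw [← Finset.card_pos]
    have h1 := hcount j hjJ.le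
    have h2 : (0 : ℝ) < ((PW X V (Real.log n₁ + j * (2 / V)) (2 / V)).card : ℝ) := by linarith
    exact_mod_cast h2
  obtain ⟨z', hz'⟩ := hZjne
  have hin : ∀ (j' : ℕ) (z : ℕ × ℕ), z ∈ PW X V (Real.log n₁ + j' * (2 / V)) (2 / V) →
      (n₁ : ℝ) * Real.exp ((j' + 1 : ℕ) * (2 / V)) ≤ n₁ + k₁ →
      z.2.Prime ∧ k₁ < z.2 ∧ 3 * n₂ * k₁ ≤ z.2 ^ 2 ∧ n₁ + 1 ≤ z.1 * z.2 ∧
        z.1 * z.2 ≤ n₁ + k₁ := by
    intro j' z hz hend'
    obtain ⟨a1, a2, a3, a4, a5⟩ := hpair j' z hz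
    obtain ⟨b1, b2⟩ := hbigp z.2 a3
    refine ⟨a1, b2, b1, ?_, ?_⟩
    · have h1 : (1 : ℝ) ≤ Real.exp (j' * (2 / V)) := by
        apply Real.one_le_exp
        positivity
      have h2 : (n₁ : ℝ) < (z.1 : ℝ) * z.2 := by
        calc (n₁ : ℝ) = n₁ * 1 := (mul_one _).symm
          _ ≤ n₁ * Real.exp (j' * (2 / V)) := mul_le_mul_of_nonneg_left h1 hn0.le
          _ < _ := a4
      have h3 : n₁ < z.1 * z.2 := by exact_mod_cast h2
      omega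
    · have h2 : (z.1 : ℝ) * z.2 ≤ n₁ + k₁ := a5.trans hend'
      exact_mod_cast h2
  have hend0 : (n₁ : ℝ) * Real.exp ((0 + 1 : ℕ) * (2 / V)) ≤ n₁ + 24 * k₁ / Cw := by
    have h1 := hstep 0 (by omega)
    have h2 : (n₁ : ℝ) * Real.exp (((0 : ℕ) : ℝ) * (2 / V)) = n₁ := by simp
    linarith
  have hend0' : (n₁ : ℝ) * Real.exp ((0 + 1 : ℕ) * (2 / V)) ≤ n₁ + k₁ := by linarith
  have hZ0in := fun z hz => hin 0 z hz hend0'
  have hz'in := hin j z' hz' hj1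
  obtain ⟨a, b, hcop, hb0, hab, hrat⟩ := enl_ratio hk h12 hP (insert z' Z0)
    (by
      intro z hz
      rcases Finset.mem_insert.1 hz with h | h
      · rw [h]
        exact hz'in
      · exact hZ0in z h)
    (Finset.insert_nonempty _ _)
  have hbd : ∀ z ∈ Z0, b ∣ z.1 := by
    refine enl_b (n₁ := n₁) (n₂ := n₂) (k₁ := k₁) (k₂ := k₂) hcop Z0 ?_ ?_ hZ0c ?_
    · intro z hz
      obtain ⟨c1, c2, c3, c4, c5⟩ := hZ0in z hz
      exact ⟨c1, c2, c4, c5⟩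
    · intro z hz w hw
      obtain ⟨-, a2, -, -, -⟩ := hpair 0 z hz
      obtain ⟨-, -, a3, -, -⟩ := hpair 0 w hw
      have hTT : T ^ 2 * T ^ 2 ≤ (X : ℝ) := by
        have h0 : T ^ 2 * T ^ 2 = T ^ 4 := by ring
        rw [h0]
        exact hTX
      have h1 : T ^ 2 * T ^ 2 < w.2 * T ^ 2 := lt_of_le_of_lt hTT a3
      have h2 : T ^ 2 < (w.2 : ℝ) := lt_of_mul_lt_mul_right h1 (by positivity)
      have h3 : (z.1 : ℝ) < w.2 := lt_of_le_of_lt a2 h2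
      exact_mod_cast h3
    · intro z hz
      exact hrat z (Finset.mem_insert_of_mem hz)
  have hbb : (b : ℝ) ≤ 200 * C := by
    have hb0R : (0 : ℝ) < b := by exact_mod_cast hb0
    have h1 := hb X V (Real.log n₁ + (0 : ℕ) * (2 / V)) b hXX₁ hV₀V hV10
      (by
        have : Real.log X ≤ Real.log n₁ := Real.log_le_log hX0 hnR1
        simpa using this)
      (by
        have : Real.log n₁ ≤ Real.log (4 * X) := Real.log_le_log hn0 (by linarith)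
        simpa using this) hb0
    have h2 : (PW X V (Real.log n₁ + (0 : ℕ) * (2 / V)) (2 / V)).filter (fun z => b ∣ z.1) =
        Z0 := Finset.filter_true_of_mem hbd
    rw [h2] at h1
    have h3 := (hcount 0 (by omega)).trans h1
    have h4 : Real.exp (Real.log n₁ + (0 : ℕ) * (2 / V)) = n₁ := by
      simp [Real.exp_log hn0]
    rw [h4] at h3
    have h5 : 1 / 200 * (n₁ : ℝ) * Real.log V / (V * L) =
        1 / 200 * (n₁ * Real.log V / (V * L)) := by ring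
    have h6 : C * (n₁ : ℝ) * Real.log V / (V * b * L) =
        C / b * (n₁ * Real.log V / (V * L)) := by
      field_simp
    rw [h5, h6] at h3
    have h7 : 1 / 200 ≤ C / b := le_of_mul_le_mul_right h3 hq0
    rw [le_div_iff₀ hb0R] at h7
    linarith
  have hbb₁ : b + 1 ≤ b₁ := by
    have h1 : b ≤ ⌈200 * C⌉₊ := by
      have h2 : (b : ℝ) ≤ (⌈200 * C⌉₊ : ℝ) := hbb.trans (Nat.le_ceil _)
      exact_mod_cast h2
    omega
  -- the end
  obtain ⟨z, hz⟩ : Z0.Nonempty := Finset.card_pos.1 (by omega)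
  obtain ⟨i, hi1, hi2, hi3⟩ := hrat z (Finset.mem_insert_of_mem hz)
  obtain ⟨i', hi1', hi2', hi3'⟩ := hrat z' (Finset.mem_insert_self _ _)
  have hPz : (z.1 : ℝ) * z.2 ≤ n₁ + 24 * k₁ / Cw := (hpair 0 z hz).2.2.2.2.trans hend0
  have hPz' : (n₁ : ℝ) + k₁ - 2 * (24 * k₁ / Cw) < (z'.1 : ℝ) * z'.2 :=
    hj2.trans (hpair j z' hz').2.2.2.1
  have e1 : (b : ℝ) * (n₂ + i) = a * (z.1 * z.2) := by exact_mod_cast hi3
  have e2 : (b : ℝ) * (n₂ + i') = a * (z'.1 * z'.2) := by exact_mod_cast hi3'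
  have hab' : (b : ℝ) + 1 ≤ a := by exact_mod_cast hab
  have hb0R : (0 : ℝ) < b := by exact_mod_cast hb0
  have hii : (i' : ℝ) - i ≤ k₁ := by
    have h1 : (i' : ℝ) ≤ k₁ := by exact_mod_cast hi2'.trans hk
    have h2 : (0 : ℝ) ≤ i := by positivity
    linarith
  have hdiff : (k₁ : ℝ) * (1 - 72 / Cw) ≤ (z'.1 : ℝ) * z'.2 - z.1 * z.2 := by
    have h1 : (k₁ : ℝ) * (1 - 72 / Cw) = k₁ - 2 * (24 * k₁ / Cw) - 24 * k₁ / Cw := by ring
    rw [h1]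
    linarith
  have h72 : 72 / (Cw : ℝ) * (b + 1) < 1 := by
    rw [div_mul_eq_mul_div, div_lt_one (by linarith)]
    have h1 : 72 * (b + 1) < Cw := by omega
    exact_mod_cast h1
  have hpos72 : 0 < 1 - 72 / (Cw : ℝ) := by
    have h1 : 72 / (Cw : ℝ) < 1 := by
      rw [div_lt_one (by linarith)]
      linarith
    linarith
  have hf1 : ((b : ℝ) + 1) * (k₁ * (1 - 72 / Cw)) ≤ a * ((z'.1 : ℝ) * z'.2 - z.1 * z.2) :=
    mul_le_mul hab' hdiff (by positivity) (by positivity)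
  have hf2 : (a : ℝ) * ((z'.1 : ℝ) * z'.2 - z.1 * z.2) = b * (i' - i) := by
    rw [mul_sub, ← e1, ← e2]
    ring
  have hf3 : (b : ℝ) * (i' - i) ≤ b * k₁ := mul_le_mul_of_nonneg_left hii hb0R.le
  have hf4 : ((b : ℝ) + 1) * (1 - 72 / Cw) * k₁ ≤ b * k₁ := by linarith
  have hf5 : ((b : ℝ) + 1) * (1 - 72 / Cw) ≤ b := le_of_mul_le_mul_right hf4 hk0R
  linarith

end EL
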