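import Pool.Agent.Helper85.EL.Good

/-! EXC: the exceptional integers, from the measure of the bad set. -/

set_option autoImplicit false

namespace EL

open Finset MeasureTheory
open scoped Classical

theorem exc_mono (X V u v δ δ' : ℝ) (h1 : v ≤ u) (h2 : u + δ ≤ v + δ') :
    FW X V u δ ≤ FW X V v δ' := by
  unfold FW
  have : PW X V u δ ⊆ PW X V v δ' := by
    intro z hz
    simp only [PW, Finset.mem_filter] at hz ⊢
    exact ⟨hz.1, by linarith [hz.2.1], by linarith [hz.2.2]⟩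
  exact_mod_cast Finset.card_le_card this

/-- counting for one `r` and one `j` -/
theorem exc_cnt (X J j : ℕ) (V D : ℝ) (hX : 2 ≤ X) (hj : j ≤ J) (hV : 1 ≤ V) (hVX : V ≤ X)
    (hVJ : 4 * (J : ℝ) ≤ V) (hD : 0 ≤ D)
    (H : volume {u : ℝ | Real.log X ≤ u ∧ u ≤ Real.log (4 * X) ∧
      FW X V u (1 / V) < 1 / 200 * Real.exp u * Real.log V / (V * Real.log X)}
      ≤ ENNReal.ofReal D) :
    (((Ico X (2 * X)).filter (fun n : ℕ => FW X V (Real.log n + j * (2 / V)) (2 / V)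
      < 1 / 200 * (n : ℝ) * Real.log V / (V * Real.log X))).card : ℝ) ≤ 2 * X * D := by
  set S := (Ico X (2 * X)).filter (fun n : ℕ => FW X V (Real.log n + j * (2 / V)) (2 / V)
      < 1 / 200 * (n : ℝ) * Real.log V / (V * Real.log X)) with hS
  have hX0 : (0 : ℝ) < X := by
    have : 0 < X := by omega
    exact_mod_cast this
  have hX2 : (2 : ℝ) ≤ X := by exact_mod_cast hX
  have hV0 : 0 < V := by linarith
  have hlX : 0 < Real.log X := Real.log_pos (by linarith)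
  have hlV : 0 ≤ Real.log V := Real.log_nonneg hV
  set f : ℕ → Set ℝ := fun n => Set.Ico (Real.log n + j * (2 / V))
    (Real.log ((n : ℝ) + 1) + j * (2 / V)) with hf
  have hmem : ∀ n ∈ S, X ≤ n ∧ n < 2 * X ∧ FW X V (Real.log n + j * (2 / V)) (2 / V)
      < 1 / 200 * (n : ℝ) * Real.log V / (V * Real.log X) := by
    intro n hn
    rw [hS, Finset.mem_filter, Finset.mem_Ico] at hn
    exact ⟨hn.1.1, hn.1.2, hn.2⟩
  have hsub : (⋃ n ∈ S, f n) ⊆ {u : ℝ | Real.log X ≤ u ∧ u ≤ Real.log (4 * X) ∧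
      FW X V u (1 / V) < 1 / 200 * Real.exp u * Real.log V / (V * Real.log X)} := by
    intro u hu
    simp only [Set.mem_iUnion] at hu
    obtain ⟨n, hn, hu⟩ := hu
    obtain ⟨hn1, hn2, hn3⟩ := hmem n hn
    have hu1 : Real.log n + j * (2 / V) ≤ u := hu.1
    have hu2 : u < Real.log ((n : ℝ) + 1) + j * (2 / V) := hu.2
    have hn0 : (0 : ℝ) < n := lt_of_lt_of_le hX0 (by exact_mod_cast hn1)
    have hXn : (X : ℝ) ≤ n := by exact_mod_cast hn1
    have hn2' : (n : ℝ) + 1 ≤ 2 * X := by exact_mod_cast hn2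
    have hj0 : 0 ≤ (j : ℝ) * (2 / V) := by positivity
    have hstep : Real.log ((n : ℝ) + 1) - Real.log n ≤ 1 / V := by
      have h1 := Real.log_le_sub_one_of_pos (show 0 < ((n : ℝ) + 1) / n by positivity)
      rw [Real.log_div (by linarith) hn0.ne'] at h1
      have e : ((n : ℝ) + 1) / n - 1 = 1 / n := by
        field_simp
        ring
      have h2 : 1 / (n : ℝ) ≤ 1 / V := one_div_le_one_div_of_le hV0 (hVX.trans hXn)
      linarith
    refine ⟨?_, ?_, ?_⟩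
    · have := Real.log_le_log hX0 hXn
      linarith
    · have h1 : Real.log ((n : ℝ) + 1) ≤ Real.log (2 * X) := Real.log_le_log (by linarith) hn2'
      have h2 : (j : ℝ) * (2 / V) ≤ 1 / 2 := by
        have hjJ : (j : ℝ) ≤ J := by exact_mod_cast hj
        rw [mul_div_assoc', div_le_iff₀ hV0]
        linarith
      have h3 : Real.log (4 * X) = Real.log (2 * X) + Real.log 2 := by
        rw [← Real.log_mul (by positivity) (by norm_num)]
        congr 1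
        ring
      have h4 := Real.log_two_gt_d9
      linarith
    · have h1 : FW X V u (1 / V) ≤ FW X V (Real.log n + j * (2 / V)) (2 / V) := by
        apply exc_mono _ _ _ _ _ _ hu1
        have : (2 : ℝ) / V = 1 / V + 1 / V := by ring
        linarith
      refine lt_of_le_of_lt h1 (lt_of_lt_of_le hn3 ?_)
      have h2 : (n : ℝ) ≤ Real.exp u := by
        rw [← Real.exp_log hn0]
        exact Real.exp_le_exp.2 (by linarith)
      gcongr
  have hdisj : (S : Set ℕ).PairwiseDisjoint f := by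
    intro n hn m hm hnm
    have key : ∀ n m : ℕ, X ≤ n → n < m → Disjoint (f n) (f m) := by
      intro n m hXn hlt
      rw [Set.disjoint_left]
      intro u hu hu'
      have h1 : u < Real.log ((n : ℝ) + 1) + j * (2 / V) := hu.2
      have h2 : Real.log m + j * (2 / V) ≤ u := hu'.1
      have h3 : Real.log ((n : ℝ) + 1) ≤ Real.log m :=
        Real.log_le_log (by positivity) (by exact_mod_cast hlt)
      linarith
    rcases lt_or_gt_of_ne hnm with h | h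
    · exact key n m (hmem n hn).1 h
    · exact (key m n (hmem m hm).1 h).symm
  have hvol : volume (⋃ n ∈ S, f n)
      = ∑ n ∈ S, ENNReal.ofReal (Real.log ((n : ℝ) + 1) - Real.log n) := by
    rw [measure_biUnion_finset hdisj (fun n _ => measurableSet_Ico)]
    refine Finset.sum_congr rfl fun n _ => ?_
    rw [hf, Real.volume_Ico]
    congr 1
    ring
  have hstep2 : ∀ n ∈ S, 1 / (2 * (X : ℝ)) ≤ Real.log ((n : ℝ) + 1) - Real.log n := by
    intro n hn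
    obtain ⟨hn1, hn2, _⟩ := hmem n hn
    have hn0 : (0 : ℝ) < n := lt_of_lt_of_le hX0 (by exact_mod_cast hn1)
    have hn2' : (n : ℝ) + 1 ≤ 2 * X := by exact_mod_cast hn2
    have h1 := Real.one_sub_inv_le_log_of_pos (show 0 < ((n : ℝ) + 1) / n by positivity)
    rw [Real.log_div (by linarith) hn0.ne'] at h1
    have e : 1 - (((n : ℝ) + 1) / n)⁻¹ = 1 / ((n : ℝ) + 1) := by
      field_simp
      ring
    have h2 : 1 / (2 * (X : ℝ)) ≤ 1 / ((n : ℝ) + 1) := one_div_le_one_div_of_le (by linarith) hn2'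
    linarith
  have h0 : ∀ n ∈ S, 0 ≤ Real.log ((n : ℝ) + 1) - Real.log n := fun n hn =>
    le_trans (by positivity) (hstep2 n hn)
  have h1 : ENNReal.ofReal (∑ n ∈ S, (Real.log ((n : ℝ) + 1) - Real.log n)) ≤ ENNReal.ofReal D := by
    rw [ENNReal.ofReal_sum_of_nonneg h0, ← hvol]
    exact (measure_mono hsub).trans H
  have h2 : ∑ n ∈ S, (Real.log ((n : ℝ) + 1) - Real.log n) ≤ D :=
    (ENNReal.ofReal_le_ofReal_iff hD).1 h1
  have h3 : (S.card : ℝ) * (1 / (2 * (X : ℝ))) ≤ ∑ n ∈ S, (Real.log ((n : ℝ) + 1) - Real.log n) := by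
    rw [← nsmul_eq_mul]
    exact Finset.card_nsmul_le_sum _ _ _ hstep2
  have h4 : (S.card : ℝ) * (1 / (2 * (X : ℝ))) ≤ D := h3.trans h2
  have h5 : (S.card : ℝ) = (S.card : ℝ) * (1 / (2 * (X : ℝ))) * (2 * X) := by
    field_simp
  rw [h5]
  calc (S.card : ℝ) * (1 / (2 * (X : ℝ))) * (2 * X) ≤ D * (2 * X) :=
        mul_le_mul_of_nonneg_right h4 (by positivity)
    _ = 2 * X * D := by ring

theorem exc_of (hbad : ∃ c ε C V₀ X₀ : ℝ, 0 < c ∧ 0 < ε ∧ ε ≤ 1 / 20 ∧ 0 < C ∧ 2 ≤ V₀ ∧ 2 ≤ X₀ ∧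
    ∀ X V : ℝ, X₀ ≤ X → V₀ ≤ V → V ≤ X ^ ε →
    volume {u : ℝ | Real.log X ≤ u ∧ u ≤ Real.log (4 * X) ∧
      FW X V u (1 / V) < 1 / 200 * Real.exp u * Real.log V / (V * Real.log X)}
      ≤ ENNReal.ofReal (C * V ^ (-c))) :
    ∃ ε : ℝ, 0 < ε ∧ ε ≤ 1 / 20 ∧ ∀ (η : ℝ) (J : ℕ), 0 < η → ∃ r₁ : ℕ, ∀ r₀ : ℕ, r₁ ≤ r₀ →
    ∃ X₀ : ℕ, ∀ X : ℕ, X₀ ≤ X →
    (((Ico X (2 * X)).filter (fun n => ¬ Good ε r₀ J X n)).card : ℝ) ≤ η * X := by
  obtain ⟨c, ε, C, V₀, X₀, hc, hε, hε1, hC, hV₀, hX₀, H⟩ := hbad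
  refine ⟨ε, hε, hε1, fun η J hη => ?_⟩
  set q : ℝ := (2 : ℝ) ^ (-c) with hq
  have hq0 : 0 < q := by positivity
  have hq1 : q < 1 := Real.rpow_lt_one_of_one_lt_of_neg (by norm_num) (by linarith)
  have hqs : 0 < 1 - q := by linarith
  have ev1 : ∀ᶠ r : ℕ in Filter.atTop, V₀ ≤ (2 : ℝ) ^ r :=
    (tendsto_pow_atTop_atTop_of_one_lt (by norm_num : (1 : ℝ) < 2)).eventually_ge_atTop V₀
  have ev2 : ∀ᶠ r : ℕ in Filter.atTop, 4 * (J : ℝ) ≤ (2 : ℝ) ^ r :=
    (tendsto_pow_atTop_atTop_of_one_lt (by norm_num : (1 : ℝ) < 2)).eventually_ge_atTop _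
  have ev3 : ∀ᶠ r : ℕ in Filter.atTop, q ^ r < η * (1 - q) / (2 * C * (J + 1)) :=
    (tendsto_pow_atTop_nhds_zero_of_lt_one hq0.le hq1).eventually_lt_const (by positivity)
  obtain ⟨r₁, hr₁⟩ := Filter.eventually_atTop.1 (ev1.and (ev2.and ev3))
  refine ⟨r₁, fun r₀ hr₀ => ⟨⌈X₀⌉₊ + 2, fun X hX => ?_⟩⟩
  have hX2 : 2 ≤ X := by omega
  have hXR : X₀ ≤ (X : ℝ) := (Nat.le_ceil X₀).trans (by exact_mod_cast (by omega : ⌈X₀⌉₊ ≤ X))
  have hX1 : (1 : ℝ) ≤ X := by exact_mod_cast (by omega : 1 ≤ X)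
  have hXε : (X : ℝ) ^ ε ≤ X := by
    calc (X : ℝ) ^ ε ≤ (X : ℝ) ^ (1 : ℝ) := Real.rpow_le_rpow_of_exponent_le hX1 (by linarith)
      _ = X := Real.rpow_one _
  set R : Finset ℕ := (Ico r₀ X).filter (fun r => (2 : ℝ) ^ r ≤ (X : ℝ) ^ ε) with hR
  have hsub : (Ico X (2 * X)).filter (fun n => ¬ Good ε r₀ J X n) ⊆
      R.biUnion (fun r => (range (J + 1)).biUnion (fun j =>
        (Ico X (2 * X)).filter (fun n : ℕ => FW X ((2 : ℝ) ^ r)
          (Real.log n + j * (2 / (2 : ℝ) ^ r)) (2 / (2 : ℝ) ^ r)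
          < 1 / 200 * (n : ℝ) * Real.log ((2 : ℝ) ^ r) / ((2 : ℝ) ^ r * Real.log X)))) := by
    intro n hn
    rw [Finset.mem_filter] at hn
    obtain ⟨hn1, hn2⟩ := hn
    unfold Good at hn2
    push Not at hn2
    obtain ⟨r, j, h1, h2, h3, h4⟩ := hn2
    simp only [Finset.mem_biUnion, Finset.mem_filter, Finset.mem_range]
    refine ⟨r, ?_, j, by omega, hn1, h4⟩
    rw [hR, Finset.mem_filter, Finset.mem_Ico]
    refine ⟨⟨h1, ?_⟩, h2⟩
    have h5 : (2 : ℝ) ^ r ≤ X := h2.trans hXε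
    have h6 : 2 ^ r ≤ X := by exact_mod_cast h5
    exact lt_of_lt_of_le Nat.lt_two_pow_self h6
  have hcard : (((Ico X (2 * X)).filter (fun n => ¬ Good ε r₀ J X n)).card : ℝ) ≤
      ∑ r ∈ R, ∑ j ∈ range (J + 1), (((Ico X (2 * X)).filter (fun n : ℕ => FW X ((2 : ℝ) ^ r)
          (Real.log n + j * (2 / (2 : ℝ) ^ r)) (2 / (2 : ℝ) ^ r)
          < 1 / 200 * (n : ℝ) * Real.log ((2 : ℝ) ^ r) / ((2 : ℝ) ^ r * Real.log X))).card : ℝ) := by
    have h1 := (Finset.card_le_card hsub).trans (Finset.card_biUnion_le)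
    have h2 := h1.trans (Finset.sum_le_sum fun r _ => Finset.card_biUnion_le)
    exact_mod_cast h2
  refine hcard.trans ?_
  have hterm : ∀ r ∈ R, ∑ j ∈ range (J + 1), (((Ico X (2 * X)).filter (fun n : ℕ => FW X ((2 : ℝ) ^ r)
          (Real.log n + j * (2 / (2 : ℝ) ^ r)) (2 / (2 : ℝ) ^ r)
          < 1 / 200 * (n : ℝ) * Real.log ((2 : ℝ) ^ r) / ((2 : ℝ) ^ r * Real.log X))).card : ℝ)
      ≤ ((J : ℝ) + 1) * (2 * X * C) * q ^ r := by
    intro r hr
    rw [hR, Finset.mem_filter, Finset.mem_Ico] at hr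
    obtain ⟨⟨h1, _⟩, h2⟩ := hr
    have h3 := hr₁ r (hr₀.trans h1)
    have hb := H X ((2 : ℝ) ^ r) hXR h3.1 h2
    have h4 : ∀ j ∈ range (J + 1), (((Ico X (2 * X)).filter (fun n : ℕ => FW X ((2 : ℝ) ^ r)
          (Real.log n + j * (2 / (2 : ℝ) ^ r)) (2 / (2 : ℝ) ^ r)
          < 1 / 200 * (n : ℝ) * Real.log ((2 : ℝ) ^ r) / ((2 : ℝ) ^ r * Real.log X))).card : ℝ)
        ≤ 2 * X * (C * ((2 : ℝ) ^ r) ^ (-c)) := by
      intro j hj
      rw [Finset.mem_range] at hj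
      exact exc_cnt X J j _ _ hX2 (by omega) (one_le_pow₀ (by norm_num)) (h2.trans hXε) h3.2.1
        (by positivity) hb
    have h5 := Finset.sum_le_card_nsmul _ _ _ h4
    refine h5.trans (le_of_eq ?_)
    rw [Finset.card_range, nsmul_eq_mul]
    have e : ((2 : ℝ) ^ r) ^ (-c) = q ^ r := by
      rw [hq, ← Real.rpow_natCast, ← Real.rpow_natCast, ← Real.rpow_mul (by norm_num),
        ← Real.rpow_mul (by norm_num), mul_comm]
    rw [e]
    push_cast
    ring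
  refine (Finset.sum_le_sum hterm).trans ?_
  rw [← Finset.mul_sum]
  have hgeo : ∑ r ∈ R, q ^ r ≤ q ^ r₀ / (1 - q) := by
    calc ∑ r ∈ R, q ^ r ≤ ∑ r ∈ Ico r₀ X, q ^ r :=
          Finset.sum_le_sum_of_subset_of_nonneg (Finset.filter_subset _ _)
            (fun _ _ _ => by positivity)
      _ ≤ q ^ r₀ / (1 - q) := geom_sum_Ico_le_of_lt_one hq0.le hq1
  have h6 := (hr₁ r₀ hr₀).2.2
  have h7 : q ^ r₀ / (1 - q) ≤ η / (2 * C * (J + 1)) := by
    rw [div_le_iff₀ hqs]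
    calc q ^ r₀ ≤ η * (1 - q) / (2 * C * (J + 1)) := h6.le
      _ = η / (2 * C * (J + 1)) * (1 - q) := by ring
  calc ((J : ℝ) + 1) * (2 * X * C) * ∑ r ∈ R, q ^ r
      ≤ ((J : ℝ) + 1) * (2 * X * C) * (η / (2 * C * (J + 1))) :=
        mul_le_mul_of_nonneg_left (hgeo.trans h7) (by positivity)
    _ = η * X := by
        field_simp

end EL
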