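import Pool.Agent.Helper85.EL.Bad
import Pool.Agent.Helper85.EL.Exc

/-! Long blocks: exceptional integers, final form. -/

set_option autoImplicit false

namespace EL

open Finset Filter MeasureTheory
open scoped Classical

theorem exc : ∃ ε : ℝ, 0 < ε ∧ ε ≤ 1 / 20 ∧ ∀ (η : ℝ) (J : ℕ), 0 < η → ∃ r₁ : ℕ, ∀ r₀ : ℕ, r₁ ≤ r₀ →
    ∃ X₀ : ℕ, ∀ X : ℕ, X₀ ≤ X →
    (((Ico X (2 * X)).filter (fun n => ¬ Good ε r₀ J X n)).card : ℝ) ≤ η * X := exc_of bad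

end EL
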