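import Pool.Agent.Helper85.EL.Defs
import Pool.Agent.Helper85.EB.Defs
import Pool.Agent.Helper85.EL.Enl
import Pool.Agent.Helper85.EL.Exc2

/-! Long blocks: density. -/

set_option autoImplicit false

namespace EL

open Finset Filter MeasureTheory
open scoped Classical
open EB (bl)

theorem lon : ∃ ε : ℝ, 0 < ε ∧ ∀ η : ℝ, 0 < η → ∃ V₀ X₀ : ℕ, ∀ X : ℕ, X₀ ≤ X →
    (((Ico X (2 * X)).filter (fun n₁ => ∃ k₁ k₂ n₂ : ℕ, (X : ℝ) ^ (1 - ε) ≤ k₁ ∧ V₀ * k₁ ≤ X ∧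
      k₂ ≤ k₁ ∧ n₁ + k₁ ≤ n₂ ∧ n₂ ≤ 2 * n₁ ∧
      (bl n₁ k₁).primeFactors ⊆ (bl n₂ k₂).primeFactors)).card : ℝ) ≤ η * X := by
  obtain ⟨J, r₁, h1⟩ := enl
  obtain ⟨ε, hε, hε', h2⟩ := exc
  refine ⟨ε / 2, by positivity, fun η hη => ?_⟩
  obtain ⟨r₂, h3⟩ := h2 η J hη
  obtain ⟨X₁, h4⟩ := h3 (max r₁ r₂) (le_max_right _ _)
  obtain ⟨X₂, h5⟩ := h1 ε hε hε' (max r₁ r₂) (le_max_left _ _)
  refine ⟨2 ^ (max r₁ r₂), max X₁ X₂, fun X hX => ?_⟩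
  refine le_trans ?_ (h4 X ((le_max_left _ _).trans hX))
  have hsub : (Ico X (2 * X)).filter (fun n₁ => ∃ k₁ k₂ n₂ : ℕ, (X : ℝ) ^ (1 - ε / 2) ≤ k₁ ∧
      2 ^ (max r₁ r₂) * k₁ ≤ X ∧ k₂ ≤ k₁ ∧ n₁ + k₁ ≤ n₂ ∧ n₂ ≤ 2 * n₁ ∧
      (bl n₁ k₁).primeFactors ⊆ (bl n₂ k₂).primeFactors) ⊆
      (Ico X (2 * X)).filter (fun n => ¬ Good ε (max r₁ r₂) J X n) := by
    intro n hn
    rw [mem_filter, mem_Ico] at hn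
    rw [mem_filter, mem_Ico]
    refine ⟨hn.1, fun hg => ?_⟩
    obtain ⟨k₁, k₂, n₂, a1, a2, a3, a4, a5, a6⟩ := hn.2
    exact h5 X n ((le_max_right _ _).trans hX) hn.1.1 hn.1.2 hg k₁ k₂ n₂ a1 a2 a3 a4 a5 a6
  exact_mod_cast Finset.card_le_card hsub

end EL
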