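import Pool.Agent.Helper80.AA.PI
import Pool.Agent.Helper80.AA.PN
import Pool.Agent.Helper91.AA.TB
import Pool.Agent.Helper18.MR.BT
import Pool.Agent.Helper18.MR.SEL

/-! Long blocks (MP_b6eca7_nt), row PNC: primes in `(x, (1 + δ) x]`, from the prime number theorem
of the project AA. -/

set_option autoImplicit false

namespace EL

open Finset
open Pool.Agent.Helper40.MR Pool.Agent.Helper99.AA Pool.Agent.Helper80.AA Pool.Agent.Helper91.AA

/-- Primes in short multiplicative intervals. -/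
theorem pnc (δ : ℝ) (hδ : 0 < δ) : ∃ x₀ : ℝ, ∀ x : ℝ, x₀ ≤ x →
    ∃ p : ℕ, p.Prime ∧ x < p ∧ (p : ℝ) ≤ (1 + δ) * x := by
  have hPI : ST_PI := st_PI (st_PN st_TB (Pool.Agent.Helper40.MR.st_BT
    Pool.Agent.Helper40.MR.st_SEL))
  obtain ⟨x₀, hx₀⟩ := hPI (min δ 1) (lt_min hδ one_pos) (min_le_right _ _)
  refine ⟨max x₀ 2, fun x hx => ?_⟩
  have hx0 : x₀ ≤ x := (le_max_left _ _).trans hx
  have hx2 : 2 ≤ x := (le_max_right _ _).trans hx
  have h1 := hx₀ x hx0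
  have h2 : 0 < min δ 1 * x / (2 * Real.log x) := by
    have : 0 < Real.log x := Real.log_pos (by linarith)
    have : 0 < min δ 1 := lt_min hδ one_pos
    positivity
  have h3 : (0 : ℝ) < ((PrI x ((1 + min δ 1) * x)).card : ℝ) := lt_of_lt_of_le h2 h1
  have h4 : 0 < (PrI x ((1 + min δ 1) * x)).card := by exact_mod_cast h3
  obtain ⟨p, hp⟩ := Finset.card_pos.1 h4
  unfold PrI IocN at hp
  obtain ⟨hp1, hp2⟩ := mem_filter.1 hp
  obtain ⟨hp3, hp4⟩ := mem_Ioc.1 hp1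
  have hmin : 0 < min δ 1 := lt_min hδ one_pos
  refine ⟨p, hp2, (Nat.floor_lt (by linarith)).1 hp3, ?_⟩
  have h5 : (p : ℝ) ≤ (1 + min δ 1) * x := by
    have h6 : (0 : ℝ) ≤ (1 + min δ 1) * x := by positivity
    exact (Nat.le_floor_iff h6).1 hp4
  refine h5.trans ?_
  have h7 : min δ 1 ≤ δ := min_le_left _ _
  nlinarith

end EL
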