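import Pool.Agent.Helper85.EL.Defs
import Pool.Agent.Helper85.EB.Defs
import Pool.Agent.Helper85.EL.PNC

/-! Very long blocks. -/

set_option autoImplicit false

namespace EL

open Finset Filter MeasureTheory
open scoped Classical
open EB (bl)

theorem top (V₀ : ℕ) : ∃ X₀ : ℕ, ∀ n₁ : ℕ, X₀ ≤ n₁ →
    ∀ k₁ k₂ n₂ : ℕ, n₁ ≤ V₀ * k₁ → k₂ ≤ k₁ → n₁ + k₁ ≤ n₂ → n₂ ≤ 2 * n₁ →
    ¬ ((bl n₁ k₁).primeFactors ⊆ (bl n₂ k₂).primeFactors) := by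
  obtain ⟨x₀, hx₀⟩ := pnc (1 / (4 * ((V₀ : ℝ) + 1))) (by positivity)
  obtain ⟨N, hN⟩ := exists_nat_ge x₀
  refine ⟨N + 1, fun n₁ hn₁ k₁ k₂ n₂ h1 h2 h3 h4 hsub => ?_⟩
  have hNn : (N : ℝ) + 1 ≤ n₁ := by exact_mod_cast hn₁
  have hk1 : (k₁ : ℝ) ≤ n₁ := by
    have : k₁ ≤ n₁ := by omega
    exact_mod_cast this
  have hk0 : (0 : ℝ) ≤ k₁ := Nat.cast_nonneg k₁
  have hV : (n₁ : ℝ) ≤ V₀ * k₁ := by exact_mod_cast h1
  obtain ⟨p, hp, hp1, hp2⟩ := hx₀ ((n₁ : ℝ) + k₁ / 2) (by linarith)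
  have hV0 : (0 : ℝ) ≤ V₀ := Nat.cast_nonneg V₀
  have hp3 : (p : ℝ) ≤ n₁ + k₁ := by
    have h5 : 1 / (4 * ((V₀ : ℝ) + 1)) * ((n₁ : ℝ) + k₁ / 2) ≤ k₁ / 2 := by
      rw [div_mul_eq_mul_div, one_mul, div_le_iff₀ (by positivity)]
      nlinarith
    have h6 : (1 + 1 / (4 * ((V₀ : ℝ) + 1))) * ((n₁ : ℝ) + k₁ / 2) =
      ((n₁ : ℝ) + k₁ / 2) + 1 / (4 * ((V₀ : ℝ) + 1)) * ((n₁ : ℝ) + k₁ / 2) := by ring
    rw [h6] at hp2
    linarith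
  have hp3' : p ≤ n₁ + k₁ := by exact_mod_cast hp3
  have hp1' : 2 * n₁ + k₁ < 2 * p := by
    have : 2 * (n₁ : ℝ) + k₁ < 2 * p := by linarith
    exact_mod_cast this
  have hA : p ∈ (bl n₁ k₁).primeFactors := by
    rw [Nat.mem_primeFactors]
    refine ⟨hp, ?_, ?_⟩
    · have h7 : n₁ + (p - n₁) ∣ bl n₁ k₁ := by
        unfold bl
        exact Finset.dvd_prod_of_mem (fun i => n₁ + i) (mem_Icc.2 ⟨by omega, by omega⟩)
      have h8 : n₁ + (p - n₁) = p := by omega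
      rwa [h8] at h7
    · unfold bl
      exact Finset.prod_ne_zero_iff.2 fun i hi => by
        have := (mem_Icc.1 hi).1
        omega
  have hB := hsub hA
  rw [Nat.mem_primeFactors] at hB
  obtain ⟨_, hB1, _⟩ := hB
  unfold bl at hB1
  obtain ⟨j, hj, hjd⟩ := (Prime.dvd_finsetProd_iff hp.prime _).1 hB1
  rw [mem_Icc] at hj
  obtain ⟨c, hc⟩ := hjd
  have hpos := hp.pos
  have hc2 : 2 ≤ c := by
    by_contra hcon
    have : c = 0 ∨ c = 1 := by omega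
    rcases this with h | h
    · rw [h] at hc; omega
    · rw [h] at hc; omega
  have h9 : p * 2 ≤ p * c := Nat.mul_le_mul_left p hc2
  omega

end EL
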