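import Pool.Agent.Helper85.EB.Fin
import Pool.Agent.Helper85.EL.Lon
import Pool.Agent.Helper85.EL.Top

/-! Erdős' question for almost all first blocks: all block lengths. -/

set_option autoImplicit false

namespace EL

open Finset Filter MeasureTheory
open scoped Classical
open EB (bl)

/-- The first blocks of pairs with equal prime support and `n₂ ≤ 2 n₁`. -/
def Ex : Set ℕ := {n₁ | ∃ k₁ k₂ n₂ : ℕ, 2 ≤ k₂ ∧ k₂ ≤ k₁ ∧ n₁ + k₁ ≤ n₂ ∧ n₂ ≤ 2 * n₁ ∧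
  (bl n₁ k₁).primeFactors = (bl n₂ k₂).primeFactors}

theorem ex_dens : Tendsto (fun N : ℕ => ((Ex ∩ Set.Iio N).ncard : ℝ) / N) atTop (nhds 0) := by
  apply EB.dens
  intro η hη
  obtain ⟨ε, hε, hlon⟩ := lon
  set ε' : ℝ := min ε 1 with hε'
  have hε'0 : 0 < ε' := lt_min hε one_pos
  obtain ⟨X₁, h1⟩ := EB.finA ε' (η / 2) hε'0 (by positivity)
  obtain ⟨V₀, X₂, h2⟩ := hlon (η / 2) (by positivity)
  obtain ⟨X₃, h3⟩ := top (2 * V₀)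
  refine ⟨max 1 (max X₁ (max X₂ X₃)), fun X hX => ?_⟩
  have hX0 : 1 ≤ X := (le_max_left _ _).trans hX
  have hX1 : X₁ ≤ X := ((le_max_left _ _).trans (le_max_right _ _)).trans hX
  have hX2 : X₂ ≤ X := (((le_max_left _ _).trans (le_max_right _ _)).trans
    (le_max_right _ _)).trans hX
  have hX3 : X₃ ≤ X := (((le_max_right _ _).trans (le_max_right _ _)).trans
    (le_max_right _ _)).trans hX
  have hsub : Ex ∩ Set.Ico X (2 * X) ⊆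
      (((Ico X (2 * X)).filter (fun n₁ : ℕ => ∃ k₁ k₂ n₂ : ℕ, 2 ≤ k₂ ∧ k₂ ≤ k₁ ∧
      (k₁ : ℝ) ≤ (n₁ : ℝ) ^ (1 - ε') ∧ n₁ + k₁ ≤ n₂ ∧ n₂ ≤ 2 * n₁ ∧
      (bl n₁ k₁).primeFactors = (bl n₂ k₂).primeFactors) ∪
      (Ico X (2 * X)).filter (fun n₁ => ∃ k₁ k₂ n₂ : ℕ, (X : ℝ) ^ (1 - ε) ≤ k₁ ∧ V₀ * k₁ ≤ X ∧
      k₂ ≤ k₁ ∧ n₁ + k₁ ≤ n₂ ∧ n₂ ≤ 2 * n₁ ∧
      (bl n₁ k₁).primeFactors ⊆ (bl n₂ k₂).primeFactors) : Finset ℕ) : Set ℕ) := by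
    rintro n ⟨⟨k₁, k₂, n₂, a1, a2, a3, a4, a5⟩, hn1, hn2⟩
    have hnI : n ∈ Ico X (2 * X) := mem_Ico.2 ⟨hn1, hn2⟩
    have hXn : (X : ℝ) ≤ n := by exact_mod_cast hn1
    have hX0' : (1 : ℝ) ≤ X := by exact_mod_cast hX0
    rw [coe_union, Set.mem_union, mem_coe, mem_coe]
    by_cases hc : (k₁ : ℝ) ≤ (n : ℝ) ^ (1 - ε')
    · left
      exact mem_filter.2 ⟨hnI, k₁, k₂, n₂, a1, a2, hc, a3, a4, a5⟩
    · right
      rw [not_le] at hc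
      refine mem_filter.2 ⟨hnI, k₁, k₂, n₂, ?_, ?_, a2, a3, a4, a5.subset⟩
      · calc (X : ℝ) ^ (1 - ε) ≤ (X : ℝ) ^ (1 - ε') :=
              Real.rpow_le_rpow_of_exponent_le hX0' (by linarith [min_le_left ε 1])
          _ ≤ (n : ℝ) ^ (1 - ε') :=
              Real.rpow_le_rpow (by linarith) hXn (by linarith [min_le_right ε 1])
          _ ≤ k₁ := hc.le
      · by_contra hcon
        rw [not_le] at hcon
        have h4 : n ≤ 2 * V₀ * k₁ := by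
          have : 2 * X < 2 * (V₀ * k₁) := by omega
          calc n ≤ 2 * (V₀ * k₁) := by omega
            _ = 2 * V₀ * k₁ := by ring
        exact h3 n (by omega) k₁ k₂ n₂ h4 a2 a3 a4 a5.subset
  have hc := Set.ncard_le_ncard hsub (Finset.finite_toSet _)
  rw [Set.ncard_coe_finset] at hc
  have hc2 := hc.trans (Finset.card_union_le _ _)
  have hc3 := (Nat.cast_le (α := ℝ)).2 hc2
  rw [Nat.cast_add] at hc3
  have h5 := h1 X hX1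
  have h6 := h2 X hX2
  linarith

theorem final : ∃ S : Set ℕ,
    Tendsto (fun N : ℕ => ((S ∩ Set.Iio N).ncard : ℝ) / N) atTop (nhds 0) ∧
    ∀ n₁ : ℕ, n₁ ∉ S → ∀ k₁ k₂ n₂ : ℕ, 2 ≤ k₂ → k₂ ≤ k₁ → n₁ + k₁ ≤ n₂ →
      (∏ i ∈ Finset.Icc 1 k₁, (n₁ + i)).primeFactors
        = (∏ j ∈ Finset.Icc 1 k₂, (n₂ + j)).primeFactors →
      2 * n₁ < n₂ ∧ ∃ p : ℕ, p.Prime ∧ n₁ ≤ p ∧ p ≤ n₂ := by
  refine ⟨Ex, ex_dens, fun n₁ hn₁ k₁ k₂ n₂ h1 h2 h3 h4 => ?_⟩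
  have h5 : 2 * n₁ < n₂ := by
    by_contra hcon
    exact hn₁ ⟨k₁, k₂, n₂, h1, h2, h3, by omega, h4⟩
  refine ⟨h5, ?_⟩
  rcases Nat.eq_zero_or_pos n₁ with h | h
  · exact ⟨2, Nat.prime_two, by omega, by omega⟩
  · obtain ⟨p, hp, hp1, hp2⟩ := Nat.exists_prime_lt_and_le_two_mul n₁ (by omega)
    exact ⟨p, hp, hp1.le, by omega⟩

end EL
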