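import Pool.Agent.Helper85.EL.Defs

/-! The definition of `Good` (rows EXC, ENL, LON of the EL sheet). -/

set_option autoImplicit false

namespace EL

/-- all windows of `n` are good -/
def Good (ε : ℝ) (r₀ J : ℕ) (X : ℝ) (n : ℕ) : Prop :=
  ∀ r j : ℕ, r₀ ≤ r → (2 : ℝ) ^ r ≤ X ^ ε → j ≤ J →
    1 / 200 * (n : ℝ) * Real.log ((2 : ℝ) ^ r) / ((2 : ℝ) ^ r * Real.log X)
      ≤ FW X ((2 : ℝ) ^ r) (Real.log n + j * (2 / (2 : ℝ) ^ r)) (2 / (2 : ℝ) ^ r)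

end EL
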