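import Pool.Agent.Helper85.EL.Defs
import Pool.Agent.Helper24.MR.PLA

/-! Row VAW: the variance of the short windows. -/

set_option autoImplicit false

namespace EL

open Finset Filter MeasureTheory
open scoped Classical
open Pool.Agent.Helper40.MR (DP nit xiu pla_DP_cont pla_nit_norm pla_DP_bound)

/-- coefficients of the products `m p` -/
noncomputable def vawA (X V : ℝ) (n : ℕ) : ℂ :=
  (((MM V ×ˢ QQ X V).filter (fun z => z.1 * z.2 = n)).card : ℂ)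

/-- the products `m p` -/
noncomputable def vawS (X V : ℝ) : Finset ℕ := (MM V ×ˢ QQ X V).image (fun z => z.1 * z.2)

theorem vaw_mem_MM {V : ℝ} {m : ℕ} (hm : m ∈ MM V) : 1 ≤ m := by
  unfold MM at hm
  have := (mem_Ioc.1 hm).1
  omega

theorem vaw_mem_QQ {X V : ℝ} {p : ℕ} (hp : p ∈ QQ X V) : 1 ≤ p := by
  unfold QQ at hp
  have := (mem_filter.1 hp).2.one_lt
  omega

theorem vaw_one_le {X V : ℝ} : ∀ n ∈ vawS X V, 1 ≤ n := by
  intro n hn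
  unfold vawS at hn
  obtain ⟨z, hz, rfl⟩ := mem_image.1 hn
  rw [mem_product] at hz
  exact Nat.mul_pos (vaw_mem_MM hz.1) (vaw_mem_QQ hz.2)

theorem vaw_FW (X V u δ : ℝ) :
    ∑ n ∈ (vawS X V).filter (fun n : ℕ => u < Real.log n ∧ Real.log n ≤ u + δ), vawA X V n
      = ((FW X V u δ : ℝ) : ℂ) := by
  unfold FW
  have h := card_eq_sum_card_fiberwise (s := PW X V u δ)
    (t := (vawS X V).filter (fun n : ℕ => u < Real.log n ∧ Real.log n ≤ u + δ))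
    (f := fun z : ℕ × ℕ => z.1 * z.2) (by
      intro z hz
      unfold PW at hz
      rw [mem_coe, mem_filter] at hz
      rw [mem_coe, mem_filter]
      refine ⟨mem_image.2 ⟨z, hz.1, rfl⟩, ?_⟩
      push_cast
      exact hz.2)
  rw [h]
  push_cast
  refine sum_congr rfl fun n hn => ?_
  unfold vawA PW
  rw [filter_filter]
  congr 2
  apply filter_congr
  intro z hz
  constructor
  · intro h
    subst h
    have h2 := (mem_filter.1 hn).2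
    push_cast at h2
    exact ⟨h2, rfl⟩
  · intro h
    exact h.2

theorem vaw_nit (m p : ℕ) (hm : 1 ≤ m) (hp : 1 ≤ p) (t : ℝ) :
    nit (m * p) t = nit m t * nit p t := by
  unfold nit
  rw [← Complex.exp_add]
  congr 1
  have hm0 : (m : ℝ) ≠ 0 := by positivity
  have hp0 : (p : ℝ) ≠ 0 := by positivity
  rw [Nat.cast_mul, Real.log_mul hm0 hp0]
  push_cast
  ring

theorem vaw_DP (X V t : ℝ) :
    DP (vawS X V) (vawA X V) t = DP (MM V) (fun _ => 1) t * DP (QQ X V) (fun _ => 1) t := by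
  unfold DP
  rw [sum_mul_sum, ← sum_product']
  have h1 : ∑ z ∈ MM V ×ˢ QQ X V, (1 : ℂ) / (z.1 : ℂ) * nit z.1 t * (1 / (z.2 : ℂ) * nit z.2 t)
      = ∑ z ∈ MM V ×ˢ QQ X V, (1 : ℂ) / ((z.1 * z.2 : ℕ) : ℂ) * nit (z.1 * z.2) t := by
    refine sum_congr rfl fun z hz => ?_
    rw [mem_product] at hz
    rw [vaw_nit _ _ (vaw_mem_MM hz.1) (vaw_mem_QQ hz.2)]
    have h1 : ((z.1 : ℕ) : ℂ) ≠ 0 := by
      have := vaw_mem_MM hz.1
      exact_mod_cast (by omega : z.1 ≠ 0)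
    have h2 : ((z.2 : ℕ) : ℂ) ≠ 0 := by
      have := vaw_mem_QQ hz.2
      exact_mod_cast (by omega : z.2 ≠ 0)
    push_cast
    field_simp
  rw [h1]
  rw [← sum_fiberwise_of_maps_to (s := MM V ×ˢ QQ X V) (t := vawS X V)
    (g := fun z : ℕ × ℕ => z.1 * z.2) (fun z hz => mem_image.2 ⟨z, hz, rfl⟩)]
  refine sum_congr rfl fun n _ => ?_
  have h2 : ∑ z ∈ (MM V ×ˢ QQ X V).filter (fun z => z.1 * z.2 = n),
      (1 : ℂ) / ((z.1 * z.2 : ℕ) : ℂ) * nit (z.1 * z.2) t =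
      ∑ z ∈ (MM V ×ˢ QQ X V).filter (fun z => z.1 * z.2 = n), (1 : ℂ) / (n : ℂ) * nit n t := by
    refine sum_congr rfl fun z hz => ?_
    rw [(mem_filter.1 hz).2]
  rw [h2, sum_const, nsmul_eq_mul]
  unfold vawA
  ring

/-- trivial bound, small factor -/
theorem vaw_MM {V t : ℝ} (hV : 2 ≤ V) : ‖DP (MM V) (fun _ => 1) t‖ ≤ 1 + Real.log V := by
  have h0 : (1 : ℝ) ≤ V := by linarith
  refine (pla_DP_bound _ _ _).trans ?_
  have h1 : ∑ n ∈ MM V, ‖(1 : ℂ) / (n : ℂ)‖ = ∑ n ∈ MM V, ((n : ℝ))⁻¹ := by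
    refine sum_congr rfl fun n _ => ?_
    rw [norm_div, norm_one, Complex.norm_natCast, one_div]
  rw [h1]
  have h2 : ∑ n ∈ MM V, ((n : ℝ))⁻¹ ≤ ∑ n ∈ Icc 1 ⌊V ^ (2 / 5 : ℝ)⌋₊, ((n : ℝ))⁻¹ := by
    apply sum_le_sum_of_subset_of_nonneg
    · intro n hn
      have := vaw_mem_MM hn
      unfold MM at hn
      rw [mem_Ioc] at hn
      exact mem_Icc.2 ⟨this, hn.2⟩
    · intro n _ _
      positivity
  have h3 : ∑ n ∈ Icc 1 ⌊V ^ (2 / 5 : ℝ)⌋₊, ((n : ℝ))⁻¹ = ((harmonic ⌊V ^ (2 / 5 : ℝ)⌋₊ : ℚ) : ℝ) := by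
    rw [harmonic_eq_sum_Icc]
    push_cast
    rfl
  have h4 : 1 ≤ V ^ (2 / 5 : ℝ) := Real.one_le_rpow h0 (by norm_num)
  have h5 : V ^ (2 / 5 : ℝ) ≤ V := by
    calc V ^ (2 / 5 : ℝ) ≤ V ^ (1 : ℝ) := Real.rpow_le_rpow_of_exponent_le h0 (by norm_num)
      _ = V := Real.rpow_one V
  calc _ ≤ ((harmonic ⌊V ^ (2 / 5 : ℝ)⌋₊ : ℚ) : ℝ) := by rw [← h3]; exact h2
    _ ≤ 1 + Real.log ⌊V ^ (2 / 5 : ℝ)⌋₊ := harmonic_le_one_add_log _
    _ ≤ 1 + Real.log V := by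
        have h6 : (0 : ℝ) < ⌊V ^ (2 / 5 : ℝ)⌋₊ := by
          have : 1 ≤ ⌊V ^ (2 / 5 : ℝ)⌋₊ := Nat.le_floor (by simpa using h4)
          exact_mod_cast this
        have := Real.log_le_log h6 ((Nat.floor_le (by linarith)).trans h5)
        linarith

/-- trivial bound, large factor -/
theorem vaw_QQ {X V t : ℝ} (hX : 2 ≤ X) (hV : 2 ≤ V) : ‖DP (QQ X V) (fun _ => 1) t‖ ≤ 8 * V := by
  have h0 : (1 : ℝ) ≤ V := by linarith
  refine (pla_DP_bound _ _ _).trans ?_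
  have hV4 : 0 < V ^ (2 / 5 : ℝ) := by positivity
  have hV3 : 0 < V ^ (3 / 10 : ℝ) := by positivity
  have h1 : ∀ n ∈ QQ X V, ‖(1 : ℂ) / (n : ℂ)‖ ≤ V ^ (2 / 5 : ℝ) / X := by
    intro n hn
    unfold QQ at hn
    have h2 := (mem_Ioc.1 (mem_filter.1 hn).1).1
    have h3 : X / V ^ (2 / 5 : ℝ) < n := Nat.lt_of_floor_lt h2
    rw [norm_div, norm_one, Complex.norm_natCast]
    rw [div_lt_iff₀ hV4] at h3
    have hn0 : (0 : ℝ) < n := by
      by_contra hc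
      push Not at hc
      have := mul_nonneg_iff_of_pos_right hV4 |>.not.2 (by linarith [mul_nonpos_of_nonpos_of_nonneg hc hV4.le] : ¬ (0:ℝ) ≤ n)
      nlinarith
    rw [div_le_div_iff₀ hn0 (by linarith)]
    nlinarith
  calc ∑ n ∈ QQ X V, ‖(1 : ℂ) / (n : ℂ)‖ ≤ ∑ n ∈ QQ X V, V ^ (2 / 5 : ℝ) / X := sum_le_sum h1
    _ = ((QQ X V).card : ℝ) * (V ^ (2 / 5 : ℝ) / X) := by rw [sum_const, nsmul_eq_mul]
    _ ≤ (8 * X / V ^ (3 / 10 : ℝ)) * (V ^ (2 / 5 : ℝ) / X) := by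
        have h2 : (QQ X V).card ≤ ⌊8 * X / V ^ (3 / 10 : ℝ)⌋₊ := by
          unfold QQ
          refine (card_filter_le _ _).trans ?_
          rw [Nat.card_Ioc]
          omega
        have h3 : ((QQ X V).card : ℝ) ≤ 8 * X / V ^ (3 / 10 : ℝ) := by
          refine le_trans ?_ (Nat.floor_le (by positivity))
          exact_mod_cast h2
        gcongr
    _ = 8 * V ^ (1 / 10 : ℝ) := by
        have hX0 : X ≠ 0 := by linarith
        have h4 : V ^ (2 / 5 : ℝ) = V ^ (3 / 10 : ℝ) * V ^ (1 / 10 : ℝ) := by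
          rw [← Real.rpow_add (by linarith)]
          norm_num
        rw [h4]
        field_simp
    _ ≤ 8 * V := by
        have : V ^ (1 / 10 : ℝ) ≤ V ^ (1 : ℝ) :=
          Real.rpow_le_rpow_of_exponent_le h0 (by norm_num)
        rw [Real.rpow_one] at this
        linarith

/-- the weight -/
noncomputable def vawW (V t : ℝ) : ℝ :=
  min (min ((1 / V) ^ 2) (1 / (1 + t ^ 2))) ((1 / V * V ^ (-(1 / 10) : ℝ) * (1 + |t|)) ^ 2)

theorem vaw_W0 (V t : ℝ) : 0 ≤ vawW V t := by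
  unfold vawW
  exact le_min (le_min (sq_nonneg _) (by positivity)) (sq_nonneg _)

theorem vaw_W1 (V t : ℝ) : vawW V t ≤ (1 / V) ^ 2 := (min_le_left _ _).trans (min_le_left _ _)

theorem vaw_W2 (V t : ℝ) : vawW V t ≤ 1 / (1 + t ^ 2) := (min_le_left _ _).trans (min_le_right _ _)

theorem vaw_W3 (V t : ℝ) : vawW V t ≤ (1 / V * V ^ (-(1 / 10) : ℝ) * (1 + |t|)) ^ 2 :=
  min_le_right _ _

/-- pointwise bound for the small factor -/
theorem vaw_pt {c₁ C₂ c V t : ℝ} (hc : 0 < c) (hc1 : c ≤ c₁) (hc2 : c ≤ 1 / 40) (hC : 0 < C₂)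
    (hV : 2 ≤ V)
    (hm : V ^ (1 / 20 : ℝ) ≤ |t| → |t| ≤ V ^ 2 → ‖DP (MM V) (fun _ => 1) t‖ ≤ C₂ * V ^ (-c₁)) :
    ‖DP (MM V) (fun _ => 1) t‖ ^ 2 * vawW V t
      ≤ (4 + C₂ ^ 2) * (1 + Real.log V) ^ 2 * V ^ (-2 - 2 * c) := by
  have hV0 : 0 < V := by linarith
  have hV1 : 1 ≤ V := by linarith
  have hlog : 0 ≤ Real.log V := Real.log_nonneg hV1
  have hP := vaw_MM (t := t) hV
  have hPn : 0 ≤ ‖DP (MM V) (fun _ => 1) t‖ := norm_nonneg _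
  set P := ‖DP (MM V) (fun _ => 1) t‖ with hPdef
  have hP2 : P ^ 2 ≤ (1 + Real.log V) ^ 2 := pow_le_pow_left₀ hPn hP 2
  have hW0 := vaw_W0 V t
  have hL1 : 1 ≤ (1 + Real.log V) ^ 2 := by nlinarith
  have hR0 : 0 < V ^ (-2 - 2 * c) := Real.rpow_pos_of_pos hV0 _
  rcases le_or_gt |t| (V ^ (1 / 20 : ℝ)) with h1 | h1
  · -- small t
    have hw : vawW V t ≤ 4 * V ^ (-2 - 2 * c) := by
      refine (vaw_W3 V t).trans ?_
      have h2 : 1 ≤ V ^ (1 / 20 : ℝ) := Real.one_le_rpow hV1 (by norm_num)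
      have h3 : 1 + |t| ≤ 2 * V ^ (1 / 20 : ℝ) := by linarith
      have h4 : 1 / V * V ^ (-(1 / 10) : ℝ) * (1 + |t|) ≤ 2 * V ^ (-(21 / 20) : ℝ) := by
        calc 1 / V * V ^ (-(1 / 10) : ℝ) * (1 + |t|)
            ≤ 1 / V * V ^ (-(1 / 10) : ℝ) * (2 * V ^ (1 / 20 : ℝ)) := by
              gcongr
          _ = 2 * V ^ (-(21 / 20) : ℝ) := by
              rw [one_div, ← Real.rpow_neg_one]
              have : V ^ (-(21 / 20) : ℝ) = V ^ (-1 : ℝ) * V ^ (-(1 / 10) : ℝ) * V ^ (1 / 20 : ℝ) := by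
                rw [← Real.rpow_add hV0, ← Real.rpow_add hV0]
                norm_num
              rw [this]
              ring
      calc (1 / V * V ^ (-(1 / 10) : ℝ) * (1 + |t|)) ^ 2 ≤ (2 * V ^ (-(21 / 20) : ℝ)) ^ 2 := by
            apply pow_le_pow_left₀ _ h4
            positivity
        _ = 4 * V ^ (-(21 / 10) : ℝ) := by
            rw [mul_pow, ← Real.rpow_natCast (V ^ (-(21 / 20) : ℝ)) 2, ← Real.rpow_mul hV0.le]
            norm_num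
        _ ≤ 4 * V ^ (-2 - 2 * c) := by
            have : V ^ (-(21 / 10) : ℝ) ≤ V ^ (-2 - 2 * c) :=
              Real.rpow_le_rpow_of_exponent_le hV1 (by linarith)
            linarith
    calc P ^ 2 * vawW V t ≤ (1 + Real.log V) ^ 2 * (4 * V ^ (-2 - 2 * c)) := by
          gcongr
      _ ≤ (4 + C₂ ^ 2) * (1 + Real.log V) ^ 2 * V ^ (-2 - 2 * c) := by
          have : 0 ≤ C₂ ^ 2 * ((1 + Real.log V) ^ 2 * V ^ (-2 - 2 * c)) := by positivity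
          nlinarith
  rcases le_or_gt |t| (V ^ 2) with h2 | h2
  · -- middle t
    have h3 := hm h1.le h2
    have h4 : P ^ 2 ≤ C₂ ^ 2 * V ^ (-(2 * c)) := by
      calc P ^ 2 ≤ (C₂ * V ^ (-c₁)) ^ 2 := pow_le_pow_left₀ hPn h3 2
        _ = C₂ ^ 2 * V ^ (-(2 * c₁)) := by
            rw [mul_pow, ← Real.rpow_natCast (V ^ (-c₁)) 2, ← Real.rpow_mul hV0.le]
            congr 2
            push_cast
            ring
        _ ≤ C₂ ^ 2 * V ^ (-(2 * c)) := by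
            have : V ^ (-(2 * c₁)) ≤ V ^ (-(2 * c)) :=
              Real.rpow_le_rpow_of_exponent_le hV1 (by linarith)
            gcongr
    have h5 : vawW V t ≤ V ^ (-2 : ℝ) := by
      refine (vaw_W1 V t).trans (le_of_eq ?_)
      rw [Real.rpow_neg hV0.le, one_div, inv_pow]
      norm_num
    calc P ^ 2 * vawW V t ≤ (C₂ ^ 2 * V ^ (-(2 * c))) * V ^ (-2 : ℝ) := by
          gcongr
      _ = C₂ ^ 2 * V ^ (-2 - 2 * c) := by
          rw [mul_assoc, ← Real.rpow_add hV0]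
          congr 2
          ring
      _ ≤ (4 + C₂ ^ 2) * (1 + Real.log V) ^ 2 * V ^ (-2 - 2 * c) := by
          apply mul_le_mul_of_nonneg_right _ hR0.le
          nlinarith [sq_nonneg C₂]
  · -- large t
    have h3 : vawW V t ≤ V ^ (-4 : ℝ) := by
      refine (vaw_W2 V t).trans ?_
      have h4 : V ^ 4 ≤ 1 + t ^ 2 := by
        have h5 : (V ^ 2) ^ 2 ≤ |t| ^ 2 := pow_le_pow_left₀ (by positivity) h2.le 2
        rw [sq_abs] at h5
        nlinarith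
      rw [Real.rpow_neg hV0.le, ← one_div]
      have h6 : V ^ (4 : ℝ) = V ^ 4 := by norm_num
      rw [h6]
      exact one_div_le_one_div_of_le (by positivity) h4
    have h4 : V ^ (-4 : ℝ) ≤ V ^ (-2 - 2 * c) := Real.rpow_le_rpow_of_exponent_le hV1 (by linarith)
    calc P ^ 2 * vawW V t ≤ (1 + Real.log V) ^ 2 * V ^ (-2 - 2 * c) := by
          gcongr
          exact h3.trans h4
      _ ≤ (4 + C₂ ^ 2) * (1 + Real.log V) ^ 2 * V ^ (-2 - 2 * c) := by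
          have : 0 ≤ (3 + C₂ ^ 2) * ((1 + Real.log V) ^ 2 * V ^ (-2 - 2 * c)) := by positivity
          nlinarith

/-- the integral of `1 / (1 + t²)` outside of `[-T, T]` -/
theorem vaw_tail {T : ℝ} (hT : 0 < T) :
    ∫ t in (Set.Icc (-T) T)ᶜ, (1 + t ^ 2)⁻¹ ≤ 2 / T := by
  have h1 : ∫ t in (Set.Icc (-T) T)ᶜ, (1 + t ^ 2)⁻¹ = Real.pi - (Real.arctan T - Real.arctan (-T)) := by
    have h2 := integral_add_compl (μ := volume) (f := fun t : ℝ => (1 + t ^ 2)⁻¹)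
      (measurableSet_Icc (a := -T) (b := T)) integrable_inv_one_add_sq
    rw [integral_univ_inv_one_add_sq] at h2
    have h3 : ∫ t in Set.Icc (-T) T, (1 + t ^ 2)⁻¹ = Real.arctan T - Real.arctan (-T) := by
      rw [integral_Icc_eq_integral_Ioc, ← intervalIntegral.integral_of_le (by linarith),
        integral_inv_one_add_sq]
    linarith
  rw [h1, Real.arctan_neg]
  have h4 := Real.arctan_inv_of_pos hT
  have h5 : Real.arctan T⁻¹ ≤ T⁻¹ := by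
    have := Real.le_tan (x := Real.arctan T⁻¹) (by
      rw [← Real.arctan_zero]
      exact Real.arctan_mono (by positivity)) (Real.arctan_lt_pi_div_two _)
    rwa [Real.tan_arctan] at this
  rw [div_eq_mul_inv]
  linarith

theorem vaw_W_cont {V : ℝ} : Continuous (vawW V) := by
  unfold vawW
  have h0 : ∀ t : ℝ, (0 : ℝ) < 1 + t ^ 2 := fun t => by positivity
  refine (continuous_const.min ?_).min ?_
  · exact continuous_const.div (by fun_prop) fun t => (h0 t).ne'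
  · fun_prop

/-- the whole integral -/
theorem vaw_int {X V T K₀ I : ℝ} (hX : 2 ≤ X) (hV : 2 ≤ V) (hT : 0 < T) (hK : 0 ≤ K₀)
    (hpt : ∀ t : ℝ, ‖DP (MM V) (fun _ => 1) t‖ ^ 2 * vawW V t ≤ K₀)
    (hI : ∫ t in (-T)..T, ‖DP (QQ X V) (fun _ => 1) t‖ ^ 2 ≤ I) :
    ∫ t : ℝ, ‖DP (vawS X V) (vawA X V) t‖ ^ 2 * vawW V t
      ≤ K₀ * I + 64 * V ^ 4 * (2 / T) := by
  have hV0 : 0 < V := by linarith
  set f : ℝ → ℝ := fun t => ‖DP (vawS X V) (vawA X V) t‖ ^ 2 * vawW V t with hf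
  have hfc : Continuous f := ((pla_DP_cont _ _).norm.pow 2).mul vaw_W_cont
  have hf0 : ∀ t, 0 ≤ f t := fun t => mul_nonneg (by positivity) (vaw_W0 V t)
  have hlogV : 1 + Real.log V ≤ V := by
    have := Real.log_le_sub_one_of_pos hV0
    linarith
  have hlog0 : 0 ≤ Real.log V := Real.log_nonneg (by linarith)
  have hbig : ∀ t, f t ≤ 64 * V ^ 4 * (1 + t ^ 2)⁻¹ := by
    intro t
    have h1 : ‖DP (vawS X V) (vawA X V) t‖ ^ 2 ≤ 64 * V ^ 4 := by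
      rw [vaw_DP, norm_mul, mul_pow]
      calc _ ≤ V ^ 2 * (8 * V) ^ 2 := by
            gcongr
            · exact (vaw_MM hV).trans hlogV
            · exact vaw_QQ hX hV
        _ = 64 * V ^ 4 := by ring
    rw [← one_div]
    exact mul_le_mul h1 (vaw_W2 V t) (vaw_W0 V t) (by positivity)
  have hfi : Integrable f := by
    refine (integrable_inv_one_add_sq.const_mul (64 * V ^ 4)).mono' hfc.aestronglyMeasurable ?_
    refine Eventually.of_forall fun t => ?_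
    rw [Real.norm_of_nonneg (hf0 t)]
    exact hbig t
  rw [← integral_add_compl (measurableSet_Icc (a := -T) (b := T)) hfi]
  have hQc : Continuous (fun t : ℝ => ‖DP (QQ X V) (fun _ => 1) t‖ ^ 2) :=
    (pla_DP_cont _ _).norm.pow 2
  refine add_le_add ?_ ?_
  · calc ∫ t in Set.Icc (-T) T, f t ≤ ∫ t in Set.Icc (-T) T, K₀ * ‖DP (QQ X V) (fun _ => 1) t‖ ^ 2 := by
          apply setIntegral_mono hfi.integrableOn
            ((hQc.const_mul K₀).continuousOn.integrableOn_Icc)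
          intro t
          simp only [hf]
          rw [vaw_DP, norm_mul, mul_pow]
          have := hpt t
          have hq : 0 ≤ ‖DP (QQ X V) (fun _ => 1) t‖ ^ 2 := by positivity
          calc _ = (‖DP (MM V) (fun _ => 1) t‖ ^ 2 * vawW V t) *
                ‖DP (QQ X V) (fun _ => 1) t‖ ^ 2 := by ring
            _ ≤ K₀ * ‖DP (QQ X V) (fun _ => 1) t‖ ^ 2 := by gcongr
      _ = K₀ * ∫ t in (-T)..T, ‖DP (QQ X V) (fun _ => 1) t‖ ^ 2 := by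
          rw [integral_const_mul, integral_Icc_eq_integral_Ioc,
            ← intervalIntegral.integral_of_le (by linarith)]
      _ ≤ K₀ * I := by gcongr
  · calc ∫ t in (Set.Icc (-T) T)ᶜ, f t
        ≤ ∫ t in (Set.Icc (-T) T)ᶜ, 64 * V ^ 4 * (1 + t ^ 2)⁻¹ := by
          apply setIntegral_mono hfi.integrableOn
            ((integrable_inv_one_add_sq.const_mul (64 * V ^ 4)).integrableOn)
          exact hbig
      _ = 64 * V ^ 4 * ∫ t in (Set.Icc (-T) T)ᶜ, (1 + t ^ 2)⁻¹ := by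
          rw [integral_const_mul]
      _ ≤ 64 * V ^ 4 * (2 / T) := by
          have := vaw_tail hT
          gcongr

theorem vaw_log {c V : ℝ} (hc : 0 < c) (hV : 2 ≤ V) :
    (1 + Real.log V) ^ 2 * (Real.log V) ^ 2 * V ^ (-2 - 2 * c)
      ≤ (1 + 4 / c) ^ 4 * V ^ (-2 - c) := by
  have hV0 : 0 < V := by linarith
  have hV1 : 1 ≤ V := by linarith
  have hlog : 0 ≤ Real.log V := Real.log_nonneg hV1
  have h1 : Real.log V ≤ V ^ (c / 4) / (c / 4) := Real.log_le_rpow_div hV0.le (by positivity)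
  have h2 : 1 ≤ V ^ (c / 4) := Real.one_le_rpow hV1 (by positivity)
  have h3 : 1 + Real.log V ≤ (1 + 4 / c) * V ^ (c / 4) := by
    have : V ^ (c / 4) / (c / 4) = 4 / c * V ^ (c / 4) := by field_simp
    rw [this] at h1
    nlinarith
  have h4 : (1 + Real.log V) ^ 2 * (Real.log V) ^ 2 ≤ ((1 + 4 / c) * V ^ (c / 4)) ^ 4 := by
    calc (1 + Real.log V) ^ 2 * (Real.log V) ^ 2 ≤ (1 + Real.log V) ^ 2 * (1 + Real.log V) ^ 2 := by
          gcongr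
          linarith
      _ = (1 + Real.log V) ^ 4 := by ring
      _ ≤ _ := pow_le_pow_left₀ (by positivity) h3 4
  calc (1 + Real.log V) ^ 2 * (Real.log V) ^ 2 * V ^ (-2 - 2 * c)
      ≤ ((1 + 4 / c) * V ^ (c / 4)) ^ 4 * V ^ (-2 - 2 * c) := by gcongr
    _ = (1 + 4 / c) ^ 4 * V ^ (-2 - c) := by
        rw [mul_pow, ← Real.rpow_natCast (V ^ (c / 4)) 4, ← Real.rpow_mul hV0.le, mul_assoc,
          ← Real.rpow_add hV0]
        congr 2
        push_cast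
        ring

/-- the statement of PLB -/
def PlbSt : Prop := ∃ C : ℝ, 0 < C ∧ ∀ (s : Finset ℕ) (δ Δ : ℝ) (a : ℕ → ℂ), (∀ n ∈ s, 1 ≤ n) →
    0 < δ → δ ≤ Δ → Δ ≤ 1 →
    Integrable (fun u : ℝ => ‖∑ n ∈ s.filter (fun n : ℕ => u < Real.log n ∧ Real.log n ≤ u + δ), a n
      - ((δ / Δ : ℝ) : ℂ) *
        ∑ n ∈ s.filter (fun n : ℕ => u < Real.log n ∧ Real.log n ≤ u + Δ), a n‖ ^ 2
      * Real.exp (-(2 * u))) ∧
    ∫ u : ℝ, ‖∑ n ∈ s.filter (fun n : ℕ => u < Real.log n ∧ Real.log n ≤ u + δ), a n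
      - ((δ / Δ : ℝ) : ℂ) *
        ∑ n ∈ s.filter (fun n : ℕ => u < Real.log n ∧ Real.log n ≤ u + Δ), a n‖ ^ 2
      * Real.exp (-(2 * u)) ≤
    C * ∫ t : ℝ, ‖DP s a t‖ ^ 2 *
      min (min (δ ^ 2) (1 / (1 + t ^ 2))) ((δ * Δ * (1 + |t|)) ^ 2)

/-- the statement of MMB -/
def MmbSt : Prop := ∃ c C V₀ : ℝ, 0 < c ∧ 0 < C ∧ 2 ≤ V₀ ∧ ∀ V t : ℝ, V₀ ≤ V →
    V ^ (1 / 20 : ℝ) ≤ |t| → |t| ≤ V ^ 2 →
    ‖DP (MM V) (fun _ => 1) t‖ ≤ C * V ^ (-c)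

/-- the statement of PPB -/
def PpbSt : Prop := ∃ c₃ C X₀ : ℝ, 0 < c₃ ∧ 0 < C ∧ 2 ≤ X₀ ∧ ∀ X V : ℝ, X₀ ≤ X → 2 ≤ V →
    V ≤ X ^ (1 / 10 : ℝ) →
    ∫ t in (-(X ^ c₃))..(X ^ c₃), ‖DP (QQ X V) (fun _ => 1) t‖ ^ 2
      ≤ C * (Real.log V) ^ 2 / (Real.log X) ^ 2

theorem vaw_of (hplb : PlbSt) (hmmb : MmbSt) (hppb : PpbSt) :
    ∃ c ε C V₀ X₀ : ℝ, 0 < c ∧ 0 < ε ∧ 0 < C ∧ 2 ≤ V₀ ∧ 2 ≤ X₀ ∧ ∀ X V : ℝ,
    X₀ ≤ X → V₀ ≤ V → V ≤ X ^ ε →
    Integrable (fun u : ℝ => (FW X V u (1 / V)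
      - V ^ (-(9 / 10) : ℝ) * FW X V u (V ^ (-(1 / 10) : ℝ))) ^ 2 * Real.exp (-(2 * u))) ∧
    ∫ u : ℝ, (FW X V u (1 / V)
      - V ^ (-(9 / 10) : ℝ) * FW X V u (V ^ (-(1 / 10) : ℝ))) ^ 2 * Real.exp (-(2 * u))
      ≤ C * V ^ (-2 - c) / (Real.log X) ^ 2 := by
  obtain ⟨C₁, hC₁, hplb⟩ := hplb
  obtain ⟨c₁, C₂, V₁, hc₁, hC₂, hV₁, hmmb⟩ := hmmb
  obtain ⟨c₃, C₃, X₁, hc₃, hC₃, hX₁, hppb⟩ := hppb
  set c : ℝ := min c₁ (1 / 40) with hcdef
  have hc : 0 < c := lt_min hc₁ (by norm_num)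
  have hcc₁ : c ≤ c₁ := min_le_left _ _
  have hc40 : c ≤ 1 / 40 := min_le_right _ _
  set ε : ℝ := min (c₃ / 16) (1 / 10) with hεdef
  have hε : 0 < ε := lt_min (by positivity) (by norm_num)
  have hε1 : ε ≤ c₃ / 16 := min_le_left _ _
  have hε2 : ε ≤ 1 / 10 := min_le_right _ _
  refine ⟨c, ε, C₁ * ((4 + C₂ ^ 2) * (1 + 4 / c) ^ 4 * C₃ + 128 * (4 / c₃) ^ 2), V₁, X₁, hc, hε,
    by positivity, hV₁, hX₁, fun X V hX hV hVX => ?_⟩
  have hX2 : 2 ≤ X := by linarith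
  have hV2 : 2 ≤ V := by linarith
  have hX0 : 0 < X := by linarith
  have hV0 : 0 < V := by linarith
  have hV1 : 1 ≤ V := by linarith
  have hLX : 0 < Real.log X := Real.log_pos (by linarith)
  have hVX10 : V ≤ X ^ (1 / 10 : ℝ) :=
    hVX.trans (Real.rpow_le_rpow_of_exponent_le (by linarith) hε2)
  have hδΔ : 1 / V / V ^ (-(1 / 10) : ℝ) = V ^ (-(9 / 10) : ℝ) := by
    rw [one_div, ← Real.rpow_neg_one, ← Real.rpow_sub hV0]
    norm_num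
  have hle : 1 / V ≤ V ^ (-(1 / 10) : ℝ) := by
    rw [one_div, ← Real.rpow_neg_one]
    exact Real.rpow_le_rpow_of_exponent_le hV1 (by norm_num)
  have hΔ1 : V ^ (-(1 / 10) : ℝ) ≤ 1 := Real.rpow_le_one_of_one_le_of_nonpos hV1 (by norm_num)
  obtain ⟨hi, hb⟩ := hplb (vawS X V) (1 / V) (V ^ (-(1 / 10) : ℝ)) (vawA X V) vaw_one_le
    (by positivity) hle hΔ1
  have hconv : ∀ u : ℝ, ‖∑ n ∈ (vawS X V).filter
        (fun n : ℕ => u < Real.log n ∧ Real.log n ≤ u + 1 / V), vawA X V n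
      - ((1 / V / V ^ (-(1 / 10) : ℝ) : ℝ) : ℂ) *
        ∑ n ∈ (vawS X V).filter (fun n : ℕ => u < Real.log n ∧
          Real.log n ≤ u + V ^ (-(1 / 10) : ℝ)), vawA X V n‖ ^ 2
      * Real.exp (-(2 * u)) = (FW X V u (1 / V)
      - V ^ (-(9 / 10) : ℝ) * FW X V u (V ^ (-(1 / 10) : ℝ))) ^ 2 * Real.exp (-(2 * u)) := by
    intro u
    rw [vaw_FW, vaw_FW, hδΔ, ← Complex.ofReal_mul, ← Complex.ofReal_sub, Complex.norm_real,
      Real.norm_eq_abs, sq_abs]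
  simp only [hconv] at hi hb
  refine ⟨hi, hb.trans ?_⟩
  have hpt : ∀ t : ℝ, ‖DP (MM V) (fun _ => 1) t‖ ^ 2 * vawW V t
      ≤ (4 + C₂ ^ 2) * (1 + Real.log V) ^ 2 * V ^ (-2 - 2 * c) := fun t =>
    vaw_pt hc hcc₁ hc40 hC₂ hV2 (fun h1 h2 => hmmb V t hV h1 h2)
  have hT : 0 < X ^ c₃ := Real.rpow_pos_of_pos hX0 _
  have hlogV : 0 ≤ Real.log V := Real.log_nonneg hV1
  have hint := vaw_int hX2 hV2 hT (by positivity) hpt (hppb X V hX hV2 hVX10)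
  have hmain : (4 + C₂ ^ 2) * (1 + Real.log V) ^ 2 * V ^ (-2 - 2 * c) *
      (C₃ * (Real.log V) ^ 2 / (Real.log X) ^ 2) ≤
      (4 + C₂ ^ 2) * (1 + 4 / c) ^ 4 * C₃ * V ^ (-2 - c) / (Real.log X) ^ 2 := by
    have h1 := vaw_log hc hV2
    have h2 : (4 + C₂ ^ 2) * (1 + Real.log V) ^ 2 * V ^ (-2 - 2 * c) *
      (C₃ * (Real.log V) ^ 2 / (Real.log X) ^ 2) = (4 + C₂ ^ 2) * C₃ *
      ((1 + Real.log V) ^ 2 * (Real.log V) ^ 2 * V ^ (-2 - 2 * c)) / (Real.log X) ^ 2 := by ring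
    have h3 : (4 + C₂ ^ 2) * (1 + 4 / c) ^ 4 * C₃ * V ^ (-2 - c) / (Real.log X) ^ 2 =
      (4 + C₂ ^ 2) * C₃ * ((1 + 4 / c) ^ 4 * V ^ (-2 - c)) / (Real.log X) ^ 2 := by ring
    rw [h2, h3]
    gcongr
  have htail : 64 * V ^ 4 * (2 / X ^ c₃) ≤ 128 * (4 / c₃) ^ 2 * V ^ (-2 - c) / (Real.log X) ^ 2 := by
    rw [le_div_iff₀ (by positivity)]
    have h1 : Real.log X ≤ X ^ (c₃ / 4) / (c₃ / 4) := Real.log_le_rpow_div hX0.le (by positivity)
    have h2 : Real.log X ^ 2 ≤ (4 / c₃) ^ 2 * X ^ (c₃ / 2) := by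
      calc Real.log X ^ 2 ≤ (X ^ (c₃ / 4) / (c₃ / 4)) ^ 2 := pow_le_pow_left₀ hLX.le h1 2
        _ = (4 / c₃) ^ 2 * (X ^ (c₃ / 4)) ^ 2 := by
            field_simp
        _ = (4 / c₃) ^ 2 * X ^ (c₃ / 2) := by
            rw [← Real.rpow_natCast (X ^ (c₃ / 4)) 2, ← Real.rpow_mul hX0.le]
            congr 2
            push_cast
            ring
    have h3 : V ^ 7 ≤ X ^ (c₃ / 2) := by
      calc V ^ 7 ≤ (X ^ ε) ^ 7 := pow_le_pow_left₀ hV0.le hVX 7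
        _ = X ^ (ε * 7) := by
            rw [← Real.rpow_natCast (X ^ ε) 7, ← Real.rpow_mul hX0.le]
            norm_num
        _ ≤ X ^ (c₃ / 2) := Real.rpow_le_rpow_of_exponent_le (by linarith) (by linarith)
    have h4 : V ^ 4 ≤ X ^ (c₃ / 2) * V ^ (-2 - c) := by
      have h5 : V ^ (-3 : ℝ) ≤ V ^ (-2 - c) := Real.rpow_le_rpow_of_exponent_le hV1 (by linarith)
      have h6 : V ^ 4 = V ^ 7 * V ^ (-3 : ℝ) := by
        rw [← Real.rpow_natCast V 4, ← Real.rpow_natCast V 7, ← Real.rpow_add hV0]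
        norm_num
      rw [h6]
      gcongr
    have h7 : X ^ (c₃ / 2) * X ^ (c₃ / 2) = X ^ c₃ := by
      rw [← Real.rpow_add hX0]
      congr 1
      ring
    calc 64 * V ^ 4 * (2 / X ^ c₃) * Real.log X ^ 2
        = 128 * V ^ 4 * Real.log X ^ 2 / X ^ c₃ := by ring
      _ ≤ 128 * (X ^ (c₃ / 2) * V ^ (-2 - c)) * ((4 / c₃) ^ 2 * X ^ (c₃ / 2)) / X ^ c₃ := by
          gcongr
      _ = 128 * (4 / c₃) ^ 2 * V ^ (-2 - c) * ((X ^ (c₃ / 2) * X ^ (c₃ / 2)) / X ^ c₃) := by ring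
      _ = 128 * (4 / c₃) ^ 2 * V ^ (-2 - c) := by
          rw [h7, div_self hT.ne', mul_one]
  calc C₁ * ∫ t : ℝ, ‖DP (vawS X V) (vawA X V) t‖ ^ 2 *
      min (min ((1 / V) ^ 2) (1 / (1 + t ^ 2))) ((1 / V * V ^ (-(1 / 10) : ℝ) * (1 + |t|)) ^ 2)
      ≤ C₁ * ((4 + C₂ ^ 2) * (1 + 4 / c) ^ 4 * C₃ * V ^ (-2 - c) / (Real.log X) ^ 2
        + 128 * (4 / c₃) ^ 2 * V ^ (-2 - c) / (Real.log X) ^ 2) := by
        apply mul_le_mul_of_nonneg_left _ hC₁.le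
        exact hint.trans (add_le_add hmain htail)
    _ = C₁ * ((4 + C₂ ^ 2) * (1 + 4 / c) ^ 4 * C₃ + 128 * (4 / c₃) ^ 2) * V ^ (-2 - c)
        / (Real.log X) ^ 2 := by ring

end EL
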